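import Pool.Agent.N351.EV.Tw

set_option autoImplicit false

/-! Project EV (helper351): the exceptional twists, at the scale of the twist itself. -/

namespace Pool.Agent.N351.EV

open Complex MeasureTheory Filter Topology Set
open Pool.Agent.Y19.QT

noncomputable section

variable {Q : ℕ} {lam : ℕ → ℝ}

/-- the `s`-th twist has a window in which the number of zeros is wrong -/
def Bad (T : Twists Q lam) (A ε : ℝ) (s : ℤ) : Prop := ∃ u v : ℝ, u < v ∧ v ≤ u + 1 ∧
  A * (Real.log (Real.log |(s : ℝ)|) + Real.log (2 + |u|)) ≤ (v - u) * Real.log |(s : ℝ)| ∧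
    ¬ Good (fd T s) u v (Real.log |(s : ℝ)|) ε

theorem good_mono {f : ℂ → ℂ} {u v L L' ε ε' : ℝ} (h : Good f u v L ε)
    (h1 : ε * ((v - u) * L) + |(v - u) * L - (v - u) * L'| ≤ ε' * ((v - u) * L')) :
    Good f u v L' ε' := by
  obtain ⟨s, h2, h3, h4⟩ := h
  refine ⟨s, h2, ?_, h4⟩
  calc |Real.pi * (Multiset.card s : ℝ) - (v - u) * L'| =
        |(Real.pi * (Multiset.card s : ℝ) - (v - u) * L) + ((v - u) * L - (v - u) * L')| := by
        ring_nf
    _ ≤ |Real.pi * (Multiset.card s : ℝ) - (v - u) * L| + |(v - u) * L - (v - u) * L'| :=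
        abs_add_le _ _
    _ ≤ _ := by linarith

theorem log_le_sqrt {x : ℝ} (hx : 1 ≤ x) : Real.log x ≤ Real.sqrt x := by
  have h1 := Real.log_le_sub_one_of_pos (show (0 : ℝ) < Real.sqrt (Real.sqrt x) by positivity)
  have e1 : Real.sqrt (Real.sqrt x) ^ 2 = Real.sqrt x := Real.sq_sqrt (Real.sqrt_nonneg x)
  have e2 : Real.sqrt x ^ 2 = x := Real.sq_sqrt (by linarith)
  have e3 : Real.log x = 4 * Real.log (Real.sqrt (Real.sqrt x)) := by
    conv_lhs => rw [← e2, ← e1]
    rw [← pow_mul, Real.log_pow]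
    norm_num
  rw [e3]
  nlinarith [sq_nonneg (Real.sqrt (Real.sqrt x) - 2)]

theorem bad_count (T : Twists Q lam) (W : ℕ) (ε : ℝ) (hε : 0 < ε) : ∃ C A : ℝ, 0 < C ∧ 0 < A ∧
    ∀ (Y : ℕ) (S : Finset ℤ), 3 ≤ Y → S ⊆ sqf Y → (∀ s ∈ S, 3 ≤ |(s : ℝ)| ∧ Bad T A ε s) →
      (S.card : ℝ) ≤ C * Y / Real.log Y ^ W := by
  classical
  obtain ⟨C1, A1, hC1, hA1, h1⟩ := tw T W (ε / 4) (by positivity)
  refine ⟨3 + C1 + 3 * (4 * (W : ℝ) ^ 2 + 1) ^ W, 2 * A1 + 4 * W / ε, by positivity, by positivity,
    fun Y S hY hS hs => ?_⟩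
  have hL1 : 1 ≤ Real.log Y := Pool.Agent.Y474.QTZ6.one_le_log hY
  have hY0 : (0 : ℝ) < Y := by exact_mod_cast (by omega : 0 < Y)
  set L := Real.log Y with hLdef
  have hL0 : 0 < L := by linarith
  have hLL : 0 ≤ Real.log L := Real.log_nonneg hL1
  have hq : 0 ≤ (Y : ℝ) / L ^ W := by positivity
  rcases le_or_gt (W * Real.log L) (L / 2) with hW | hW
  · -- the main case
    set S1 : Finset ℤ := S.filter fun s : ℤ => |(s : ℝ)| ≤ Y / L ^ W with hS1
    set S2 : Finset ℤ := S.filter fun s : ℤ => ¬ |(s : ℝ)| ≤ Y / L ^ W with hS2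
    have c1 : (S1.card : ℝ) ≤ 3 * (Y / L ^ W) := small_count Y S1 _ hq
      ((Finset.filter_subset _ _).trans hS) fun d hd => (Finset.mem_filter.1 hd).2
    have c2 : (S2.card : ℝ) ≤ C1 * Y / L ^ W := by
      refine h1 Y S2 hY ((Finset.filter_subset _ _).trans hS) fun s hs2 => ?_
      obtain ⟨hsS, hsY⟩ := Finset.mem_filter.1 hs2
      obtain ⟨hs3, u, v, huv, huv1, hwin, hbad⟩ := hs s hsS
      push Not at hsY
      set l := Real.log |(s : ℝ)| with hl
      have hl1 : 1 ≤ l := by
        rw [hl, Real.le_log_iff_exp_le (by linarith)]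
        have := Real.exp_one_lt_d9
        linarith
      have hsY' : |(s : ℝ)| ≤ Y := by exact_mod_cast (mem_sqf.1 (hS hsS)).1
      have hlL : l ≤ L := Real.log_le_log (by linarith) hsY'
      have hlL2 : L - W * Real.log L ≤ l := by
        have h2 := Real.log_le_log (by positivity) hsY.le
        rw [Real.log_div hY0.ne' (by positivity), Real.log_pow] at h2
        linarith
      have hlL3 : L ≤ 2 * l := by linarith
      have hl0 : 0 < l := by linarith
      have hlog2 : Real.log 2 ≤ Real.log (2 + |u|) :=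
        Real.log_le_log (by norm_num) (by have := abs_nonneg u; linarith)
      have hl2 : (0.69 : ℝ) ≤ Real.log 2 := by have := Real.log_two_gt_d9; linarith
      have hll : 0 ≤ Real.log l := Real.log_nonneg hl1
      have hLl : Real.log L ≤ Real.log l + Real.log 2 := by
        rw [← Real.log_mul (by positivity) (by norm_num)]
        exact Real.log_le_log hL0 (by linarith)
      set g := Real.log l + Real.log (2 + |u|) with hg
      have hg0 : 0 < g := by linarith
      have hg2 : Real.log L + Real.log (2 + |u|) ≤ 2 * g := by linarith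
      have hD : 0 < v - u := by linarith
      have hw1 : 2 * A1 * g ≤ (v - u) * l := by
        refine le_trans ?_ hwin
        have : 0 ≤ 4 * W / ε * g := by positivity
        nlinarith
      have hw2 : 4 * W / ε * g ≤ (v - u) * l := by
        refine le_trans ?_ hwin
        have : 0 ≤ 2 * A1 * g := by positivity
        nlinarith
      refine ⟨u, v, huv, huv1, ?_, fun hgood => hbad (good_mono hgood ?_)⟩
      · calc A1 * (Real.log L + Real.log (2 + |u|)) ≤ A1 * (2 * g) := by gcongr
          _ = 2 * A1 * g := by ring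
          _ ≤ (v - u) * l := hw1
          _ ≤ (v - u) * L := by gcongr
      · have h3 : |(v - u) * L - (v - u) * l| = (v - u) * (L - l) := by
          rw [← mul_sub, abs_of_nonneg (mul_nonneg hD.le (by linarith))]
        rw [h3]
        have h4 : L - l ≤ ε / 2 * l := by
          have h5 : L - l ≤ W * (2 * g) := by
            calc L - l ≤ W * Real.log L := by linarith
              _ ≤ W * (2 * g) := by
                  refine mul_le_mul_of_nonneg_left ?_ (Nat.cast_nonneg _)
                  linarith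
          have h6 : 4 * W * g ≤ ε * ((v - u) * l) := by
            have h7 : 4 * W / ε * g = 4 * W * g / ε := by ring
            rw [h7, div_le_iff₀ hε] at hw2
            linarith
          have h8 : (v - u) * l ≤ l := by nlinarith
          nlinarith
        calc ε / 4 * ((v - u) * L) + (v - u) * (L - l)
            ≤ ε / 4 * ((v - u) * (2 * l)) + (v - u) * (ε / 2 * l) :=
              add_le_add (by gcongr) (mul_le_mul_of_nonneg_left h4 hD.le)
          _ = ε * ((v - u) * l) := by ring
    have hsplit : (S.card : ℝ) = (S1.card : ℝ) + (S2.card : ℝ) := by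
      rw [← Nat.cast_add, hS1, hS2, Finset.card_filter_add_card_filter_not]
    rw [hsplit]
    calc (S1.card : ℝ) + (S2.card : ℝ) ≤ 3 * (Y / L ^ W) + C1 * Y / L ^ W := add_le_add c1 c2
      _ = (3 + C1) * (Y / L ^ W) := by ring
      _ ≤ (3 + C1 + 3 * (4 * (W : ℝ) ^ 2 + 1) ^ W) * (Y / L ^ W) :=
          mul_le_mul_of_nonneg_right (by
            have : 0 ≤ 3 * (4 * (W : ℝ) ^ 2 + 1) ^ W := by positivity
            linarith) hq
      _ = _ := by ring
  · -- small `Y`
    have hsq : Real.log L ≤ Real.sqrt L := log_le_sqrt hL1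
    have hLW : L ≤ 4 * (W : ℝ) ^ 2 + 1 := by
      have h2 : L / 2 < W * Real.sqrt L := hW.trans_le (by gcongr)
      have h3 : Real.sqrt L ^ 2 = L := Real.sq_sqrt hL0.le
      have h4 : 0 < Real.sqrt L := Real.sqrt_pos.2 hL0
      have h5 : Real.sqrt L < 2 * W := by nlinarith
      nlinarith
    have h2 : (S.card : ℝ) ≤ 3 * Y := by
      refine small_count Y S _ hY0.le hS fun d hd => ?_
      exact_mod_cast (mem_sqf.1 (hS hd)).1
    refine h2.trans ?_
    rw [le_div_iff₀ (by positivity)]
    have h3 : L ^ W ≤ (4 * (W : ℝ) ^ 2 + 1) ^ W := pow_le_pow_left₀ hL0.le hLW W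
    calc 3 * (Y : ℝ) * L ^ W ≤ 3 * Y * (4 * (W : ℝ) ^ 2 + 1) ^ W := by gcongr
      _ = 3 * (4 * (W : ℝ) ^ 2 + 1) ^ W * Y := by ring
      _ ≤ (3 + C1 + 3 * (4 * (W : ℝ) ^ 2 + 1) ^ W) * Y :=
          mul_le_mul_of_nonneg_right (by linarith) hY0.le

end

end Pool.Agent.N351.EV
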