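import Pool.Agent.N351.EV.Stm

/-!
# Project EV (helper351), job CNT (helper803): counting the points by two Poisson sums
-/

set_option autoImplicit false

namespace Pool.Agent.N351.EV

open MeasureTheory intervalIntegral

namespace Cnt

/-- the Poisson kernel -/
noncomputable def PK (u x : ℝ) : ℝ := u / (u ^ 2 + x ^ 2)

lemma Qk_eq (y : ℝ) (ρ : ℂ) (t : ℝ) :
    Qk y ρ t = (PK (y - ρ.re) (t - ρ.im) + PK (y + ρ.re) (t - ρ.im)) / 2 := rfl

lemma den_pos {u x : ℝ} (h : 0 < u ∨ 0 < |x|) : 0 < u ^ 2 + x ^ 2 := by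
  rcases h with h | h
  · positivity
  · have : 0 < x ^ 2 := by
      rw [← sq_abs]
      positivity
    positivity

lemma PK_cont {u γ p q : ℝ} (h : ∀ t ∈ Set.uIcc p q, 0 < u ∨ 0 < |t - γ|) :
    IntervalIntegrable (fun t => PK u (t - γ)) volume p q := by
  apply ContinuousOn.intervalIntegrable
  unfold PK
  apply ContinuousOn.div
  · fun_prop
  · fun_prop
  · intro t ht
    exact (den_pos (h t ht)).ne'

lemma PK_deriv {u γ : ℝ} (hu : 0 < u) (t : ℝ) :
    HasDerivAt (fun t => Real.arctan ((t - γ) / u)) (PK u (t - γ)) t := by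
  have h1 : HasDerivAt (fun t : ℝ => (t - γ) / u) (1 / u) t :=
    ((hasDerivAt_id t).sub_const γ).div_const u
  have h2 := h1.arctan
  refine h2.congr_deriv ?_
  unfold PK
  have : 1 + ((t - γ) / u) ^ 2 ≠ 0 := by positivity
  have : u ^ 2 + (t - γ) ^ 2 ≠ 0 := by positivity
  field_simp

lemma PK_int {u γ p q : ℝ} (hu : 0 < u) :
    ∫ t in p..q, PK u (t - γ) = Real.arctan ((q - γ) / u) - Real.arctan ((p - γ) / u) :=
  integral_eq_sub_of_hasDerivAt (fun t _ => PK_deriv hu t)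
    (PK_cont fun _ _ => Or.inl hu)

lemma PK_int_le {u γ p q : ℝ} (hu : 0 < u) : ∫ t in p..q, PK u (t - γ) ≤ Real.pi := by
  rw [PK_int hu]
  have h1 := Real.arctan_lt_pi_div_two ((q - γ) / u)
  have h2 := Real.neg_pi_div_two_lt_arctan ((p - γ) / u)
  linarith

lemma arctan_ge {v : ℝ} (hv : 0 < v) : Real.pi / 2 - 1 / v ≤ Real.arctan v := by
  have h1 := Real.arctan_inv_of_pos hv
  have h2 : Real.arctan v⁻¹ ≤ v⁻¹ := by
    have h0 : 0 < v⁻¹ := by positivity
    have h3 := Real.lt_tan (Real.arctan_pos.2 h0) (Real.arctan_lt_pi_div_two _)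
    rw [Real.tan_arctan] at h3
    exact h3.le
  rw [one_div]
  linarith

lemma PK_int_ge {u γ p q W : ℝ} (hu : 0 < u) (hW : 0 < W) (hp : p ≤ γ - W) (hq : γ + W ≤ q) :
    Real.pi - 2 * u / W ≤ ∫ t in p..q, PK u (t - γ) := by
  rw [PK_int hu]
  have h1 : Real.arctan (W / u) ≤ Real.arctan ((q - γ) / u) := by
    apply Real.arctan_le_arctan_iff.2
    apply div_le_div_of_nonneg_right _ hu.le
    linarith
  have h2 : Real.arctan ((p - γ) / u) ≤ - Real.arctan (W / u) := by
    rw [← Real.arctan_neg]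
    apply Real.arctan_le_arctan_iff.2
    rw [← neg_div]
    apply div_le_div_of_nonneg_right _ hu.le
    linarith
  have h3 := arctan_ge (div_pos hW hu)
  have h4 : 1 / (W / u) = u / W := by rw [one_div, inv_div]
  rw [h4] at h3
  have h5 : 2 * u / W = 2 * (u / W) := by ring
  rw [h5]
  linarith

/-- the product formula -/
lemma Qk_prod {y : ℝ} {ρ : ℂ} {t : ℝ} (h1 : 0 < (y - ρ.re) ^ 2 + (t - ρ.im) ^ 2)
    (h2 : 0 < (y + ρ.re) ^ 2 + (t - ρ.im) ^ 2) :
    Qk y ρ t = y * (y ^ 2 - ρ.re ^ 2 + (t - ρ.im) ^ 2) /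
      (((y - ρ.re) ^ 2 + (t - ρ.im) ^ 2) * ((y + ρ.re) ^ 2 + (t - ρ.im) ^ 2)) := by
  unfold Qk
  field_simp
  ring

lemma int_QS (s : Multiset ℂ) (y p q : ℝ) (h : ∀ ρ ∈ s, IntervalIntegrable (Qk y ρ) volume p q) :
    IntervalIntegrable (QS s y) volume p q ∧
      ∫ t in p..q, QS s y t = (s.map fun ρ => ∫ t in p..q, Qk y ρ t).sum := by
  induction s using Multiset.induction_on with
  | empty =>
    have e : QS 0 y = fun _ => 0 := by
      funext t
      simp [QS]
    rw [e]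
    simp
  | cons ρ s ih =>
    obtain ⟨h1, h2⟩ := ih fun ρ' hρ' => h ρ' (Multiset.mem_cons_of_mem hρ')
    have h3 := h ρ (Multiset.mem_cons_self ρ s)
    have e : QS (ρ ::ₘ s) y = fun t => Qk y ρ t + QS s y t := by
      funext t
      simp [QS]
    rw [e]
    refine ⟨h3.add h1, ?_⟩
    rw [integral_add h3 h1, h2, Multiset.map_cons, Multiset.sum_cons]

lemma Nsum (s : Multiset ℂ) (a b c : ℝ) :
    (s.map fun ρ : ℂ => if a ≤ ρ.im ∧ ρ.im ≤ b then c else 0).sum =
      c * (Multiset.card (s.filter fun ρ => a ≤ ρ.im ∧ ρ.im ≤ b) : ℝ) := by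
  induction s using Multiset.induction_on with
  | empty => simp
  | cons ρ s ih =>
    rw [Multiset.map_cons, Multiset.sum_cons, ih]
    by_cases h : a ≤ ρ.im ∧ ρ.im ≤ b
    · rw [if_pos h, Multiset.filter_cons_of_pos (p := fun ρ : ℂ => a ≤ ρ.im ∧ ρ.im ≤ b) s h, Multiset.card_cons]
      push_cast
      ring
    · rw [if_neg h, Multiset.filter_cons_of_neg (p := fun ρ : ℂ => a ≤ ρ.im ∧ ρ.im ≤ b) s h]
      ring

lemma comp {y W ε X β : ℝ} (hy : 0 < y) (hyW : y ≤ ε * W) (hε : 0 < ε) (hW0 : 0 < W)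
    (hWb : W ≤ 1 / 20) (hyW' : y ≤ W / 20) (hx : W ^ 2 ≤ X)
    (hc : |β| ≤ y / 2 ∨ ((9 / 10) ^ 2 ≤ X ∧ |β| ≤ 1 / 2)) :
    y * (y ^ 2 - β ^ 2 + X) / (((y - β) ^ 2 + X) * ((y + β) ^ 2 + X)) ≤
      8 * ε * (W * (W ^ 2 - β ^ 2 + X) / (((W - β) ^ 2 + X) * ((W + β) ^ 2 + X))) := by
  have hx0 : 0 < X := lt_of_lt_of_le (by positivity) hx
  have p3 : 0 < (W - β) ^ 2 + X := by positivity
  have p4 : 0 < (W + β) ^ 2 + X := by positivity
  have hnum : 0 ≤ y ^ 2 - β ^ 2 + X := by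
    rcases hc with h | ⟨h1, h2⟩
    · have h3 : β ^ 2 ≤ (y / 2) ^ 2 := by
        rw [← sq_abs]
        exact pow_le_pow_left₀ (abs_nonneg _) h 2
      nlinarith [sq_nonneg y]
    · have h3 : β ^ 2 ≤ (1 / 2) ^ 2 := by
        rw [← sq_abs]
        exact pow_le_pow_left₀ (abs_nonneg _) h2 2
      nlinarith [sq_nonneg y]
  have hU : ((W - β) ^ 2 + X) * ((W + β) ^ 2 + X) ≤ 8 * X ^ 2 := by
    rcases hc with h | ⟨h1, h2⟩
    · have h1 := abs_le.1 h
      have h2 : (W - β) ^ 2 ≤ (11 / 10 * W) ^ 2 := by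
        apply sq_le_sq' <;> linarith
      have h3 : (W + β) ^ 2 ≤ (11 / 10 * W) ^ 2 := by
        apply sq_le_sq' <;> linarith
      have h4 : (W - β) ^ 2 + X ≤ 5 / 2 * X := by linarith
      have h5 : (W + β) ^ 2 + X ≤ 5 / 2 * X := by linarith
      calc ((W - β) ^ 2 + X) * ((W + β) ^ 2 + X) ≤ (5 / 2 * X) * (5 / 2 * X) :=
            mul_le_mul h4 h5 p4.le (by positivity)
        _ ≤ 8 * X ^ 2 := by nlinarith
    · have h2 := abs_le.1 h2
      have h3 : (W - β) ^ 2 ≤ (3 / 5) ^ 2 := by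
        apply sq_le_sq' <;> linarith
      have h4 : (W + β) ^ 2 ≤ (3 / 5) ^ 2 := by
        apply sq_le_sq' <;> linarith
      have h5 : (W - β) ^ 2 + X ≤ 2 * X := by linarith
      have h6 : (W + β) ^ 2 + X ≤ 2 * X := by linarith
      calc ((W - β) ^ 2 + X) * ((W + β) ^ 2 + X) ≤ (2 * X) * (2 * X) :=
            mul_le_mul h5 h6 p4.le (by positivity)
        _ ≤ 8 * X ^ 2 := by nlinarith
  have hV : X ^ 2 ≤ ((y - β) ^ 2 + X) * ((y + β) ^ 2 + X) := by
    rw [sq]
    apply mul_le_mul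
    · linarith [sq_nonneg (y - β)]
    · linarith [sq_nonneg (y + β)]
    · exact hx0.le
    · positivity
  have hX2 : 0 < X ^ 2 := by positivity
  have hyWW : y ≤ W := by linarith
  have hsq : y ^ 2 ≤ W ^ 2 := pow_le_pow_left₀ hy.le hyWW 2
  calc y * (y ^ 2 - β ^ 2 + X) / (((y - β) ^ 2 + X) * ((y + β) ^ 2 + X))
      ≤ y * (y ^ 2 - β ^ 2 + X) / X ^ 2 := by
        apply div_le_div_of_nonneg_left (mul_nonneg hy.le hnum) hX2 hV
    _ ≤ (ε * W) * (W ^ 2 - β ^ 2 + X) / X ^ 2 := by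
        apply div_le_div_of_nonneg_right _ hX2.le
        apply mul_le_mul hyW _ hnum (by positivity)
        linarith
    _ = 8 * ε * (W * (W ^ 2 - β ^ 2 + X) / (8 * X ^ 2)) := by
        field_simp
    _ ≤ 8 * ε * (W * (W ^ 2 - β ^ 2 + X) / (((W - β) ^ 2 + X) * ((W + β) ^ 2 + X))) := by
        apply mul_le_mul_of_nonneg_left _ (by positivity)
        apply div_le_div_of_nonneg_left _ (mul_pos p3 p4) hU
        apply mul_nonneg hW0.le
        linarith

end Cnt

open Cnt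

theorem cnt : S_CNT := by
  intro s a b L ε δ y W hL hε hε1 hab hba hδ hδy hy hyW hW hre him hQ
  have hba0 : 0 < b - a := by linarith
  have hW0 : 0 < W := by
    by_contra hc
    push Not at hc
    nlinarith
  have hWb : W ≤ 1 / 20 := by nlinarith
  have hyW' : y ≤ W / 20 := by nlinarith
  set t0 := (a + b) / 2 with ht0
  -- the points are near or far
  have hnear : ∀ ρ ∈ s, |ρ.im - t0| ≤ 3 / 2 → 0 < y - ρ.re ∧ 0 < y + ρ.re ∧ |ρ.re| ≤ y / 2 := by
    intro ρ hρ h
    have h1 := him ρ hρ h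
    have h2 := abs_le.1 h1
    refine ⟨by linarith, by linarith, by linarith⟩
  have hfar : ∀ ρ ∈ s, ¬ |ρ.im - t0| ≤ 3 / 2 → ∀ t : ℝ, |t - t0| ≤ 3 / 5 → 9 / 10 ≤ |t - ρ.im| := by
    intro ρ hρ h t ht
    push Not at h
    have h1 : |ρ.im - t0| ≤ |t - ρ.im| + |t - t0| := by
      have := abs_sub_le ρ.im t t0
      rwa [abs_sub_comm ρ.im t] at this
    linarith
  have hor : ∀ ρ ∈ s, ∀ t : ℝ, |t - t0| ≤ 3 / 5 →
      (0 < y - ρ.re ∧ 0 < y + ρ.re ∧ |ρ.re| ≤ y / 2) ∨ 9 / 10 ≤ |t - ρ.im| := by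
    intro ρ hρ t ht
    by_cases h : |ρ.im - t0| ≤ 3 / 2
    · exact Or.inl (hnear ρ hρ h)
    · exact Or.inr (hfar ρ hρ h t ht)
  -- positivity of the denominators, for y and for W
  have hden : ∀ v : ℝ, y ≤ v → ∀ ρ ∈ s, ∀ t : ℝ, |t - t0| ≤ 3 / 5 →
      (0 < v - ρ.re ∨ 0 < |t - ρ.im|) ∧ (0 < v + ρ.re ∨ 0 < |t - ρ.im|) := by
    intro v hv ρ hρ t ht
    rcases hor ρ hρ t ht with h | h
    · exact ⟨Or.inl (by linarith [h.1]), Or.inl (by linarith [h.2.1])⟩
    · exact ⟨Or.inr (by linarith), Or.inr (by linarith)⟩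
  have hint : ∀ v : ℝ, y ≤ v → ∀ p q : ℝ, (∀ t ∈ Set.uIcc p q, |t - t0| ≤ 3 / 5) → ∀ ρ ∈ s,
      IntervalIntegrable (Qk v ρ) volume p q := by
    intro v hv p q hpq ρ hρ
    have e : Qk v ρ = fun t => (PK (v - ρ.re) (t - ρ.im) + PK (v + ρ.re) (t - ρ.im)) / 2 := by
      funext t
      rw [Qk_eq]
    rw [e]
    exact ((PK_cont fun t ht => (hden v hv ρ hρ t (hpq t ht)).1).add
      (PK_cont fun t ht => (hden v hv ρ hρ t (hpq t ht)).2)).div_const 2
  have hnn : ∀ v : ℝ, y ≤ v → ∀ ρ ∈ s, ∀ t : ℝ, |t - t0| ≤ 3 / 5 → 0 ≤ Qk v ρ t := by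
    intro v hv ρ hρ t ht
    have hd := hden v hv ρ hρ t ht
    rw [Qk_prod (den_pos hd.1) (den_pos hd.2)]
    apply div_nonneg _ (mul_nonneg (den_pos hd.1).le (den_pos hd.2).le)
    apply mul_nonneg (by linarith)
    rcases hor ρ hρ t ht with h | h
    · have h1 := h.1
      have h2 := h.2.1
      have h3 : 0 ≤ (v - ρ.re) * (v + ρ.re) := mul_nonneg (by linarith) (by linarith)
      nlinarith [sq_nonneg (t - ρ.im)]
    · have h1 : (9 / 10) ^ 2 ≤ (t - ρ.im) ^ 2 := by
        rw [← sq_abs (t - ρ.im)]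
        exact pow_le_pow_left₀ (by norm_num) h 2
      have h2 : ρ.re ^ 2 ≤ (1 / 2) ^ 2 := by
        rw [← sq_abs]
        exact pow_le_pow_left₀ (abs_nonneg _) (hre ρ hρ) 2
      nlinarith [sq_nonneg v]
  -- comparison
  have hcomp : ∀ ρ ∈ s, ∀ t : ℝ, |t - t0| ≤ 3 / 5 → W ≤ |t - ρ.im| →
      Qk y ρ t ≤ 8 * ε * Qk W ρ t := by
    intro ρ hρ t ht hWt
    have hd := hden y le_rfl ρ hρ t ht
    have hD := hden W (by linarith) ρ hρ t ht
    rw [Qk_prod (den_pos hd.1) (den_pos hd.2), Qk_prod (den_pos hD.1) (den_pos hD.2)]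
    apply comp hy hyW hε hW0 hWb hyW'
    · rw [← sq_abs (t - ρ.im)]
      exact pow_le_pow_left₀ hW0.le hWt 2
    · rcases hor ρ hρ t ht with h | h
      · exact Or.inl h.2.2
      · right
        refine ⟨?_, hre ρ hρ⟩
        rw [← sq_abs (t - ρ.im)]
        exact pow_le_pow_left₀ (by norm_num) h 2
  -- the intervals
  have hI1 : ∀ t ∈ Set.uIcc (a - W) (b + W), |t - t0| ≤ 3 / 5 := by
    intro t ht
    rw [Set.uIcc_of_le (by linarith), Set.mem_Icc] at ht
    rw [abs_le]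
    constructor <;> linarith [ht.1, ht.2]
  have hI2 : ∀ t ∈ Set.uIcc (a + W) (b - W), |t - t0| ≤ 3 / 5 := by
    intro t ht
    rw [Set.uIcc_of_le (by nlinarith), Set.mem_Icc] at ht
    rw [abs_le]
    constructor <;> linarith [ht.1, ht.2]
  have hle2 : a + W ≤ b - W := by nlinarith
  have hle1 : a - W ≤ b + W := by linarith
  -- number of points
  set N : ℝ := (Multiset.card (s.filter fun ρ => a ≤ ρ.im ∧ ρ.im ≤ b) : ℝ) with hN
  have hNsum : ∀ c : ℝ, (s.map fun ρ : ℂ => if a ≤ ρ.im ∧ ρ.im ≤ b then c else 0).sum = c * N :=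
    fun c => Nsum s a b c
  have hpi := Real.pi_gt_three
  have hpi4 := Real.pi_lt_four
  -- upper bound
  have hup : (Real.pi - 2 * ε) * N ≤ (b - a + 2 * W) * ((1 + ε) * L) := by
    obtain ⟨h1, h2⟩ := int_QS s y (a - W) (b + W) (hint y le_rfl _ _ hI1)
    have h3 : ∫ t in (a - W)..(b + W), QS s y t ≤ ∫ _t in (a - W)..(b + W), (1 + ε) * L := by
      apply integral_mono_on hle1 h1 (by simp)
      intro t ht
      have := (hQ t (by
        have := hI1 t (by rw [Set.uIcc_of_le hle1]; exact ht)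
        linarith)).1
      have := (abs_le.1 this).2
      linarith
    rw [intervalIntegral.integral_const, smul_eq_mul, h2] at h3
    rw [← hNsum]
    have h4 : (s.map fun ρ : ℂ => if a ≤ ρ.im ∧ ρ.im ≤ b then (Real.pi - 2 * ε) else 0).sum ≤
        (s.map fun ρ => ∫ t in (a - W)..(b + W), Qk y ρ t).sum := by
      apply Multiset.sum_map_le_sum_map
      intro ρ hρ
      split_ifs with h
      · have hn := hnear ρ hρ (by rw [abs_le]; constructor <;> linarith [h.1, h.2])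
        have e : (fun t => Qk y ρ t) =
            fun t => (PK (y - ρ.re) (t - ρ.im) + PK (y + ρ.re) (t - ρ.im)) / 2 := by
          funext t
          rw [Qk_eq]
        rw [e, intervalIntegral.integral_div, integral_add (PK_cont fun _ _ => Or.inl hn.1)
          (PK_cont fun _ _ => Or.inl hn.2.1)]
        have g1 := PK_int_ge (γ := ρ.im) (p := a - W) (q := b + W) hn.1 hW0 (by linarith [h.1])
          (by linarith [h.2])
        have g2 := PK_int_ge (γ := ρ.im) (p := a - W) (q := b + W) hn.2.1 hW0 (by linarith [h.1])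
          (by linarith [h.2])
        have g3 : 2 * (y - ρ.re) / W + 2 * (y + ρ.re) / W ≤ 4 * ε := by
          rw [← add_div, div_le_iff₀ hW0]
          linarith
        linarith
      · apply integral_nonneg hle1
        intro t ht
        exact hnn y le_rfl ρ hρ t (hI1 t (by rw [Set.uIcc_of_le hle1]; exact ht))
    refine h4.trans (h3.trans (le_of_eq ?_))
    ring
  -- lower bound
  have hlow : (b - a - 2 * W) * ((1 - ε) * L) ≤ Real.pi * N +
      8 * ε * ((b - a - 2 * W) * ((1 + ε) * L)) := by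
    obtain ⟨h1, h2⟩ := int_QS s y (a + W) (b - W) (hint y le_rfl _ _ hI2)
    obtain ⟨k1, k2⟩ := int_QS s W (a + W) (b - W) (hint W (by linarith) _ _ hI2)
    have h3 : ∫ _t in (a + W)..(b - W), (1 - ε) * L ≤ ∫ t in (a + W)..(b - W), QS s y t := by
      apply integral_mono_on hle2 (by simp) h1
      intro t ht
      have := (hQ t (by
        have := hI2 t (by rw [Set.uIcc_of_le hle2]; exact ht)
        linarith)).1
      have := (abs_le.1 this).1
      linarith
    have k3 : ∫ t in (a + W)..(b - W), QS s W t ≤ ∫ _t in (a + W)..(b - W), (1 + ε) * L := by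
      apply integral_mono_on hle2 k1 (by simp)
      intro t ht
      have := (hQ t (by
        have := hI2 t (by rw [Set.uIcc_of_le hle2]; exact ht)
        linarith)).2
      have := (abs_le.1 this).2
      linarith
    rw [intervalIntegral.integral_const, smul_eq_mul, h2] at h3
    rw [intervalIntegral.integral_const, smul_eq_mul, k2] at k3
    have h4 : (s.map fun ρ => ∫ t in (a + W)..(b - W), Qk y ρ t).sum ≤
        (s.map fun ρ : ℂ => (if a ≤ ρ.im ∧ ρ.im ≤ b then Real.pi else 0) +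
          8 * ε * ∫ t in (a + W)..(b - W), Qk W ρ t).sum := by
      apply Multiset.sum_map_le_sum_map
      intro ρ hρ
      have hJ : 0 ≤ ∫ t in (a + W)..(b - W), Qk W ρ t := by
        apply integral_nonneg hle2
        intro t ht
        exact hnn W (by linarith) ρ hρ t (hI2 t (by rw [Set.uIcc_of_le hle2]; exact ht))
      split_ifs with h
      · have hn := hnear ρ hρ (by rw [abs_le]; constructor <;> linarith [h.1, h.2])
        have e : (fun t => Qk y ρ t) =
            fun t => (PK (y - ρ.re) (t - ρ.im) + PK (y + ρ.re) (t - ρ.im)) / 2 := by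
          funext t
          rw [Qk_eq]
        rw [e, intervalIntegral.integral_div, integral_add (PK_cont fun _ _ => Or.inl hn.1)
          (PK_cont fun _ _ => Or.inl hn.2.1)]
        have g1 := PK_int_le (γ := ρ.im) (p := a + W) (q := b - W) hn.1
        have g2 := PK_int_le (γ := ρ.im) (p := a + W) (q := b - W) hn.2.1
        have g3 : 0 ≤ 8 * ε * ∫ t in (a + W)..(b - W), Qk W ρ t := by positivity
        linarith
      · rw [zero_add, ← intervalIntegral.integral_const_mul]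
        apply integral_mono_on hle2 (hint y le_rfl _ _ hI2 ρ hρ)
          ((hint W (by linarith) _ _ hI2 ρ hρ).const_mul _)
        intro t ht
        apply hcomp ρ hρ t (hI2 t (by rw [Set.uIcc_of_le hle2]; exact ht))
        rw [Set.mem_Icc] at ht
        rw [not_and_or] at h
        rcases h with h | h
        · push Not at h
          rw [le_abs]
          left
          linarith [ht.1]
        · push Not at h
          rw [le_abs]
          right
          linarith [ht.2]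
    rw [Multiset.sum_map_add, Multiset.sum_map_mul_left, hNsum] at h4
    have h5 : b - W - (a + W) = b - a - 2 * W := by ring
    rw [h5] at h3 k3
    have h6 := mul_le_mul_of_nonneg_left k3 (by positivity : (0 : ℝ) ≤ 8 * ε)
    linarith
  have hN0 : 0 ≤ N := Nat.cast_nonneg _
  have hM : 0 < (b - a) * L := by positivity
  rw [abs_le]
  constructor
  · have e1 : (b - a - 2 * W) * ((1 - ε) * L) - 8 * ε * ((b - a - 2 * W) * ((1 + ε) * L)) =
        (b - a - 2 * W) * L * ((1 - ε) - 8 * ε * (1 + ε)) := by ring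
    have e2 : 0 ≤ (1 - ε) - 8 * ε * (1 + ε) := by nlinarith
    have e3 : (1 - 2 * ε) * ((b - a) * L) ≤ (b - a - 2 * W) * L := by nlinarith
    have e4 := mul_le_mul_of_nonneg_right e3 e2
    have e5 : (1 - 20 * ε) * ((b - a) * L) ≤
        (1 - 2 * ε) * ((b - a) * L) * ((1 - ε) - 8 * ε * (1 + ε)) := by
      have : (1 - 20 * ε) ≤ (1 - 2 * ε) * ((1 - ε) - 8 * ε * (1 + ε)) := by
        have e : (1 - 2 * ε) * ((1 - ε) - 8 * ε * (1 + ε)) =
            1 - 20 * ε + (9 * ε + 10 * ε ^ 2 + 16 * ε ^ 3) := by ring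
        rw [e]
        have : 0 ≤ 9 * ε + 10 * ε ^ 2 + 16 * ε ^ 3 := by positivity
        linarith
      calc (1 - 20 * ε) * ((b - a) * L) ≤
          ((1 - 2 * ε) * ((1 - ε) - 8 * ε * (1 + ε))) * ((b - a) * L) :=
            mul_le_mul_of_nonneg_right this hM.le
        _ = _ := by ring
    linarith
  · have e3 : (b - a + 2 * W) * ((1 + ε) * L) ≤ (1 + 2 * ε) * ((1 + ε) * ((b - a) * L)) := by
      have : (b - a + 2 * W) ≤ (1 + 2 * ε) * (b - a) := by nlinarith
      calc (b - a + 2 * W) * ((1 + ε) * L) ≤ ((1 + 2 * ε) * (b - a)) * ((1 + ε) * L) :=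
            mul_le_mul_of_nonneg_right this (by positivity)
        _ = _ := by ring
    have e4 : (Real.pi - 2 * ε) * N ≤ (1 + 2 * ε) * ((1 + ε) * ((b - a) * L)) := hup.trans e3
    -- N is at most 2 (b - a) L / 3 * ...
    have e5 : 2 * N ≤ (1 + 2 * ε) * ((1 + ε) * ((b - a) * L)) := by nlinarith
    have e6 : (1 + 2 * ε) * (1 + ε) ≤ 1 + 4 * ε := by nlinarith
    have e7 : (1 + 2 * ε) * ((1 + ε) * ((b - a) * L)) ≤ (1 + 4 * ε) * ((b - a) * L) := by
      calc _ = ((1 + 2 * ε) * (1 + ε)) * ((b - a) * L) := by ring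
        _ ≤ _ := mul_le_mul_of_nonneg_right e6 hM.le
    have e8 : 2 * ε * N ≤ ε * ((1 + 4 * ε) * ((b - a) * L)) := by
      calc 2 * ε * N = ε * (2 * N) := by ring
        _ ≤ ε * ((1 + 4 * ε) * ((b - a) * L)) := mul_le_mul_of_nonneg_left (e5.trans e7) hε.le
    have e9 : ε * ((1 + 4 * ε) * ((b - a) * L)) ≤ 2 * ε * ((b - a) * L) := by
      have : ε * (1 + 4 * ε) ≤ 2 * ε := by nlinarith
      calc _ = (ε * (1 + 4 * ε)) * ((b - a) * L) := by ring
        _ ≤ _ := mul_le_mul_of_nonneg_right this hM.le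
    nlinarith

end Pool.Agent.N351.EV
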