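import Pool.Agent.Y19.QT.LawsK

set_option autoImplicit false

/-! Project EV (helper351): equidistribution of the zeros of almost all quadratic twists over
multiquadratic fields (the statement). -/

namespace Pool.Agent.N351.EV

open Complex
open Pool.Agent.Y19.QT
open scoped ENNReal

noncomputable section

/-- the number of the zeros `ρ` of `F` with `Re ρ > 3/4` and `u ≤ Im ρ ≤ v`, with multiplicity -/
def zwin (F : ℂ → ℂ) (u v : ℝ) : ℝ≥0∞ :=
  ∑' ρ : ℂ, if F ρ = 0 ∧ 3 / 4 < ρ.re ∧ u ≤ ρ.im ∧ ρ.im ≤ v then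
    ((analyticOrderAt F ρ : ℕ∞) : ℝ≥0∞) else 0

/-- The zeros of the `L`-functions of the quadratic twists `E_{d₀}` of `E : y² = x³ + a x + b` over the
fields `K = K₀(√d_1, …, √d_n)`, where `K₀ = ℚ(√e_1, …, √e_m)` is fixed and the squarefree integer `d₀` and
the `n`-tuple `(d_1, …, d_n)` of squarefree integers with `[K : K₀] = 2ⁿ` vary.  `L(E_{d₀}/K, s)` is
(uniquely) an entire function.  For every `k` and `ε > 0` there are `C` and `A` such that, for all these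
pairs `(d₀, K)` with `|d_i| ≤ X` outside a set `S` of at most `C X^(n+1) / (log X)^k` of them, the zeros
are evenly distributed at the scale `log log X / log X`: for all real `u < v ≤ u + 1` with
`v - u ≥ A (log log X + log (2 + |u|)) / log X` the number of zeros `ρ` with `Re ρ > 3/4` and
`u ≤ Im ρ ≤ v`, with multiplicity, is `2^(m+n) (1 + n/2) (v - u) (log X) / π` with a relative error at
most `ε`. -/
def MultiEvenLaw (a b : ℤ) : Prop := ∀ (m : ℕ) (e : Fin m → ℤ) (n : ℕ),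
  (∀ (d₀ : ℤ) (d : Fin n → ℤ), d₀ ≠ 0 → Indep (Fin.append e d) → ∃! F : ℂ → ℂ,
    IsLFunK (Kd (Fin.append e d)) (a * d₀ ^ 2) (b * d₀ ^ 3) (∏ i, Fin.append e d i) F) ∧
  ∀ F : ℤ → (Fin n → ℤ) → ℂ → ℂ, (∀ d₀ d, d₀ ≠ 0 → Indep (Fin.append e d) →
      IsLFunK (Kd (Fin.append e d)) (a * d₀ ^ 2) (b * d₀ ^ 3) (∏ i, Fin.append e d i) (F d₀ d)) →
    ∀ (k : ℕ) (ε : ℝ), 0 < ε → ∃ C A : ℝ, ∀ X : ℕ, 3 ≤ X →
      ∃ S : Finset (ℤ × (Fin n → ℤ)), S ⊆ sqf X ×ˢ tup e n X ∧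
        (S.card : ℝ) ≤ C * (X : ℝ) ^ (n + 1) / Real.log X ^ k ∧
        ∀ p ∈ sqf X ×ˢ tup e n X, p ∉ S → ∀ u v : ℝ, u < v → v ≤ u + 1 →
          A * ((Real.log (Real.log X) + Real.log (2 + |u|)) / Real.log X) ≤ v - u →
          zwin (F p.1 p.2) u v ≠ ⊤ ∧
          |(zwin (F p.1 p.2) u v).toReal -
              2 ^ (m + n) * (1 + (n : ℝ) / 2) * ((v - u) * Real.log X / Real.pi)| ≤
            ε * (2 ^ (m + n) * (1 + (n : ℝ) / 2) * ((v - u) * Real.log X / Real.pi))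

end

end Pool.Agent.N351.EV
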