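import Pool.Agent.H382R2.Digamma

set_option autoImplicit false

/-! Project EV (helper351): a bound for the digamma function. -/

namespace Pool.Agent.N351.EV

open Complex

theorem dig : ∃ C : ℝ, 0 < C ∧ ∀ w : ℂ, 1 ≤ w.re → w.re ≤ 10 →
    ‖logDeriv Complex.Gamma w‖ ≤ C + Real.log (2 + |w.im|) := by
  obtain ⟨C1, hC1, h1⟩ := SG.digamma_bound
  have hK : IsCompact (Set.Icc (1 : ℝ) 10 ×ℂ Set.Icc (-10 : ℝ) 10) :=
    isCompact_Icc.reProdIm isCompact_Icc
  have hcont : ContinuousOn (fun w => ‖logDeriv Complex.Gamma w‖)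
      (Set.Icc (1 : ℝ) 10 ×ℂ Set.Icc (-10 : ℝ) 10) := by
    intro w hw
    have hre : 0 < w.re := by
      have := (Complex.mem_reProdIm.1 hw).1.1
      linarith
    have hop : IsOpen {z : ℂ | 0 < z.re} := isOpen_lt continuous_const Complex.continuous_re
    have hd : DifferentiableOn ℂ Complex.Gamma {z : ℂ | 0 < z.re} := fun z hz =>
      (Complex.differentiableAt_Gamma z (fun m h => by
        have h0 : 0 < z.re := hz
        rw [h] at h0
        simp at h0
        linarith [Nat.cast_nonneg (α := ℝ) m])).differentiableWithinAt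
    have ha : AnalyticAt ℂ Complex.Gamma w := hd.analyticAt (hop.mem_nhds hre)
    have h2 : ContinuousAt (logDeriv Complex.Gamma) w :=
      (ha.deriv.continuousAt).div ha.continuousAt (Complex.Gamma_ne_zero_of_re_pos hre)
    exact h2.norm.continuousWithinAt
  obtain ⟨C2, hC2⟩ := (hK.bddAbove_image hcont)
  refine ⟨C1 + |C2|, by positivity, fun w hw1 hw2 => ?_⟩
  have hlog : 0 ≤ Real.log (2 + |w.im|) := Real.log_nonneg (by
    have := abs_nonneg w.im
    linarith)
  by_cases h : 10 ≤ |w.im|
  · have h3 := h1 w (by linarith) (by rw [abs_of_nonneg (by linarith)]; linarith)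
    have h4 : Real.log |w.im| ≤ Real.log (2 + |w.im|) :=
      Real.log_le_log (by linarith) (by linarith)
    have h5 : 0 ≤ Real.log |w.im| := Real.log_nonneg (by linarith)
    have h6 : ‖((Real.log |w.im| : ℝ) : ℂ)‖ = Real.log |w.im| := by
      rw [Complex.norm_real, Real.norm_of_nonneg h5]
    calc ‖logDeriv Complex.Gamma w‖ = ‖(logDeriv Complex.Gamma w - Real.log |w.im|) +
          ((Real.log |w.im| : ℝ) : ℂ)‖ := by ring_nf
      _ ≤ C1 + Real.log |w.im| := by
          refine (norm_add_le _ _).trans ?_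
          rw [h6]
          linarith
      _ ≤ _ := by
          have := abs_nonneg C2
          linarith
  · push Not at h
    obtain ⟨h7, h8⟩ := abs_lt.1 h
    have h9 := hC2 (Set.mem_image_of_mem _ (show w ∈ Set.Icc (1 : ℝ) 10 ×ℂ Set.Icc (-10 : ℝ) 10 from
      Complex.mem_reProdIm.2 ⟨⟨hw1, hw2⟩, ⟨h7.le, h8.le⟩⟩))
    have h10 := le_abs_self C2
    linarith

end Pool.Agent.N351.EV
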