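import Pool.Agent.N351.EV.Bad
import Pool.Agent.N351.EV.Def
import Pool.Agent.Y203.QTZ5

set_option autoImplicit false

/-! Project EV (helper351): from the completed functions to the `L`-functions of the twists. -/

namespace Pool.Agent.N351.EV

open Complex MeasureTheory Filter Topology Set
open Pool.Agent.Y19.QT
open Pool.Agent.Y703.QT8 (ell_diff)
open scoped ENNReal

noncomputable section

variable {Q : ℕ} {lam : ℕ → ℝ}

theorem zwin_alt {F : ℂ → ℂ} (hF : Differentiable ℂ F) (u v : ℝ) : zwin F u v =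
    ∑' ρ : ℂ, if 3 / 4 < ρ.re ∧ u ≤ ρ.im ∧ ρ.im ≤ v then
      ((analyticOrderAt F ρ : ℕ∞) : ℝ≥0∞) else 0 := by
  unfold zwin
  refine tsum_congr fun ρ => ?_
  by_cases h0 : F ρ = 0
  · simp only [h0, true_and]
  · have h1 : analyticOrderAt F ρ = 0 := (hF.analyticAt ρ).analyticOrderAt_eq_zero.2 h0
    simp only [h0, h1, false_and, if_false]
    split_ifs <;> simp

theorem zwin_sum {ι : Type} [Fintype ι] {F : ℂ → ℂ} {G : ι → ℂ → ℂ} (hF : Differentiable ℂ F)
    (hG : ∀ i, Differentiable ℂ (G i)) (u v : ℝ)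
    (h : ∀ w : ℂ, 3 / 4 < w.re → analyticOrderAt F w = ∑ i, analyticOrderAt (G i) w) :
    zwin F u v = ∑ i, zwin (G i) u v := by
  have toE : ∀ (S : Finset ι) (f : ι → ℕ∞),
      ((∑ i ∈ S, f i : ℕ∞) : ℝ≥0∞) = ∑ i ∈ S, ((f i : ℕ∞) : ℝ≥0∞) := fun S f =>
    map_sum ENat.toENNRealRingHom f S
  rw [zwin_alt hF]
  simp only [fun i => zwin_alt (hG i) u v]
  rw [← Summable.tsum_finsetSum (fun _ _ => ENNReal.summable)]
  refine tsum_congr fun ρ => ?_
  by_cases hρ : 3 / 4 < ρ.re ∧ u ≤ ρ.im ∧ ρ.im ≤ v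
  · simp only [if_pos hρ]
    rw [h ρ hρ.1, toE]
  · simp only [if_neg hρ, Finset.sum_const_zero]

/-- the order of vanishing of the completed function -/
theorem order_fd (T : Twists Q lam) {d : ℤ} (hd : Squarefree d) {s : ℂ} (hs : -1 / 4 < s.re) :
    analyticOrderAt (fd T d) s = analyticOrderAt (T.Lq d) (1 / 2 + s) := by
  obtain ⟨hG1, hG2, -⟩ := Gd_an T hd (s := s) (by linarith)
  have hell : Differentiable ℂ (T.ell d) := (Pool.Agent.Y703.QT8.T8a T d hd).1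
  have hcomp : Differentiable ℂ (fun z => T.ell d (1 / 2 + z)) := hell.comp (by fun_prop)
  have e1 : fd T d =ᶠ[𝓝 s] Gd T d * fun z => T.ell d (1 / 2 + z) := by
    have hmem : {z : ℂ | -1 < z.re} ∈ 𝓝 s :=
      (isOpen_lt continuous_const continuous_re).mem_nhds (by show (-1 : ℝ) < s.re; linarith)
    filter_upwards [hmem] with z hz
    exact fd_eq T hd hz
  rw [analyticOrderAt_congr e1, analyticOrderAt_mul hG1 (hcomp.analyticAt s),
    hG1.analyticOrderAt_eq_zero.2 hG2, zero_add]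
  have e2 : analyticOrderAt (fun z => T.ell d (1 / 2 + z)) s =
      analyticOrderAt (T.ell d) (1 / 2 + s) := by
    have h := analyticOrderAt_comp_of_deriv_ne_zero (f := T.ell d) (g := fun z : ℂ => 1 / 2 + z)
      (z₀ := s) (by fun_prop) (by
        have h3 : HasDerivAt (fun z : ℂ => 1 / 2 + z) 1 s := (hasDerivAt_id s).const_add _
        rw [h3.deriv]
        exact one_ne_zero)
    exact h
  rw [e2]
  have hre : (1 / 4 : ℝ) < (1 / 2 + s).re := by
    have : (1 / 2 + s).re = 1 / 2 + s.re := by simp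
    rw [this]; linarith
  have hE1 : AnalyticAt ℂ (Pool.Agent.Y180.QT12b2.Ep T d) (1 / 2 + s) := by
    have hmem : {z : ℂ | 1 / 4 < z.re} ∈ 𝓝 (1 / 2 + s) :=
      (isOpen_lt continuous_const continuous_re).mem_nhds hre
    exact (Pool.Agent.Y180.QT12b2.Ep_diff T hd).analyticAt hmem
  have e3 : T.Lq d = T.ell d * Pool.Agent.Y180.QT12b2.Ep T d := rfl
  rw [e3, analyticOrderAt_mul (hell.analyticAt _) hE1,
    hE1.analyticOrderAt_eq_zero.2 (Ep_ne0 T hd hre.le), add_zero]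

/-- the number of zeros of the `L`-function of a twist which is not exceptional -/
theorem zwin_good (a b : ℤ) (hab : 4 * a ^ 3 + 27 * b ^ 2 ≠ 0) (T : Twists Q lam)
    (hQ : ∀ p : ℕ, p.Prime → (p : ℤ) ∣ 2 * (4 * a ^ 3 + 27 * b ^ 2) → p ∣ Q)
    (hlam : ∀ p : ℕ, p.Prime → ¬ p ∣ Q → lam p = ap a b p / Real.sqrt p)
    (d : ℤ) (hd : Squarefree d) (F : ℂ → ℂ) (hF : IsLFun (a * d ^ 2) (b * d ^ 3) F)
    {u v l ε : ℝ} (hg : Good (fd T d) u v l ε) :
    zwin F u v ≠ ⊤ ∧ |Real.pi * (zwin F u v).toReal - (v - u) * l| ≤ ε * ((v - u) * l) := by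
  classical
  obtain ⟨s, h1, h2, h3⟩ := hg
  have hord : ∀ ρ : ℂ, -1 / 4 < ρ.re →
      analyticOrderAt F (ρ + 1) = analyticOrderAt (fd T d) ρ := by
    intro ρ hρ
    have h4 := Pool.Agent.Y203.QTZ5.Z5 a b hab Q lam T hQ hlam d hd F hF (ρ + 1 / 2) (by
      have : (ρ + 1 / 2).re = ρ.re + 1 / 2 := by simp
      rw [this]; linarith)
    rw [order_fd T hd hρ]
    have e1 : ρ + 1 / 2 + 1 / 2 = ρ + 1 := by ring
    have e2 : 1 / 2 + ρ = ρ + 1 / 2 := by ring
    rw [e1] at h4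
    rw [e2, h4]
  have key : zwin F u v = ((Multiset.card s : ℕ) : ℝ≥0∞) := by
    rw [zwin_alt hF.1, ← (Equiv.addRight (1 : ℂ)).tsum_eq]
    have e1 : ∀ ρ : ℂ, (if 3 / 4 < ((Equiv.addRight (1 : ℂ)) ρ).re ∧
        u ≤ ((Equiv.addRight (1 : ℂ)) ρ).im ∧ ((Equiv.addRight (1 : ℂ)) ρ).im ≤ v then
        ((analyticOrderAt F ((Equiv.addRight (1 : ℂ)) ρ) : ℕ∞) : ℝ≥0∞) else 0) =
        ((s.count ρ : ℕ) : ℝ≥0∞) := by
      intro ρ
      have e2 : (Equiv.addRight (1 : ℂ)) ρ = ρ + 1 := rfl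
      have hre : (ρ + 1).re = ρ.re + 1 := by simp
      have him : (ρ + 1).im = ρ.im := by simp
      rw [e2, hre, him]
      by_cases hρ : 3 / 4 < ρ.re + 1 ∧ u ≤ ρ.im ∧ ρ.im ≤ v
      · rw [if_pos hρ, hord ρ (by linarith [hρ.1])]
        have h5 := h1 ρ
        rw [if_pos hρ.2] at h5
        rw [← h5]
        simp
      · rw [if_neg hρ]
        have h5 : s.count ρ = 0 := by
          rw [Multiset.count_eq_zero]
          intro hmem
          apply hρ
          have h6 := (abs_le.1 (h3 ρ hmem)).1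
          refine ⟨by linarith, ?_⟩
          by_contra h7
          have h8 := h1 ρ
          rw [if_neg h7] at h8
          have h9 : s.count ρ = 0 := by exact_mod_cast h8
          exact (Multiset.count_eq_zero.1 h9) hmem
        rw [h5]
        simp
    simp only [e1]
    rw [tsum_eq_sum (s := s.toFinset) (fun ρ hρ => by
      rw [Multiset.mem_toFinset] at hρ
      rw [Multiset.count_eq_zero.2 hρ]
      simp)]
    rw [← Nat.cast_sum, Multiset.toFinset_sum_count_eq]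
  rw [key]
  refine ⟨ENNReal.natCast_ne_top _, ?_⟩
  simpa using h2

/-- `Good` for a family of twists gives the zeros near the line -/
theorem good_near (a b : ℤ) (hab : 4 * a ^ 3 + 27 * b ^ 2 ≠ 0) (T : Twists Q lam)
    (hQ : ∀ p : ℕ, p.Prime → (p : ℤ) ∣ 2 * (4 * a ^ 3 + 27 * b ^ 2) → p ∣ Q)
    (hlam : ∀ p : ℕ, p.Prime → ¬ p ∣ Q → lam p = ap a b p / Real.sqrt p)
    (d : ℤ) (hd : Squarefree d) (F : ℂ → ℂ) (hF : IsLFun (a * d ^ 2) (b * d ^ 3) F)
    {u v l ε : ℝ} (hg : Good (fd T d) u v l ε) (ρ : ℂ) (h0 : analyticOrderAt F ρ ≠ 0)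
    (h1 : 3 / 4 < ρ.re) (h2 : u ≤ ρ.im) (h3 : ρ.im ≤ v) : |ρ.re - 1| ≤ 1 / 40 := by
  obtain ⟨s, h4, -, h5⟩ := hg
  have hre : (ρ - 1).re = ρ.re - 1 := by simp
  have him : (ρ - 1).im = ρ.im := by simp
  have h6 := Pool.Agent.Y203.QTZ5.Z5 a b hab Q lam T hQ hlam d hd F hF (ρ - 1 / 2) (by
      have : (ρ - 1 / 2).re = ρ.re - 1 / 2 := by simp
      rw [this]; linarith)
  rw [sub_add_cancel] at h6
  have h7 := order_fd T hd (s := ρ - 1) (by rw [hre]; linarith)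
  have e2 : 1 / 2 + (ρ - 1) = ρ - 1 / 2 := by ring
  rw [e2, ← h6] at h7
  have h8 := h4 (ρ - 1)
  rw [him, if_pos ⟨h2, h3⟩, h7] at h8
  have h9 : ρ - 1 ∈ s := by
    rw [← Multiset.count_ne_zero]
    intro h10
    rw [h10] at h8
    exact h0 (by rw [← h8]; rfl)
  have := h5 _ h9
  rwa [hre] at this

end

end Pool.Agent.N351.EV
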