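import Pool.Agent.N351.EV.Tw
import Pool.Agent.Y19.QT.MA

set_option autoImplicit false

/-! Project EV (helper351): the sizes of the squarefree parts of almost all products. -/

namespace Pool.Agent.N351.EV

open Pool.Agent.Y19.QT

noncomputable section

theorem gcd_prod_dvd {ι : Type} (x μ : ℕ) (D : ι → ℕ) (W : Finset ι) :
    Nat.gcd x (μ * ∏ i ∈ W, D i) ∣ μ * ∏ i ∈ W, Nat.gcd x (D i) := by
  classical
  induction W using Finset.induction_on with
  | empty => simpa using Nat.gcd_dvd_right x μ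
  | insert j W hj ih =>
    rw [Finset.prod_insert hj, Finset.prod_insert hj]
    have h1 : Nat.gcd x (μ * (D j * ∏ i ∈ W, D i)) ∣
        Nat.gcd x (D j) * Nat.gcd x (μ * ∏ i ∈ W, D i) := by
      have e : μ * (D j * ∏ i ∈ W, D i) = D j * (μ * ∏ i ∈ W, D i) := by ring
      rw [e]
      exact Nat.gcd_mul_right_dvd_mul_gcd x _ _
    refine h1.trans ?_
    have e : μ * (Nat.gcd x (D j) * ∏ i ∈ W, Nat.gcd x (D i)) =
        Nat.gcd x (D j) * (μ * ∏ i ∈ W, Nat.gcd x (D i)) := by ring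
    rw [e]
    exact Nat.mul_dvd_mul_left _ ih

/-- a square dividing a product of squarefree numbers with small common divisors is small -/
theorem sq_dvd_le {ι : Type} (μ : ℕ) (hμ : 0 < μ) (D : ι → ℕ) (G : ℝ) (hG : 1 ≤ G)
    (W : Finset ι) (hD : ∀ i ∈ W, Squarefree (D i))
    (hg : ∀ i ∈ W, ∀ j ∈ W, i ≠ j → (Nat.gcd (D i) (D j) : ℝ) ≤ G) :
    ∀ k : ℕ, k ^ 2 ∣ μ * ∏ i ∈ W, D i → (k : ℝ) ≤ (μ : ℝ) ^ (W.card + 1) * G ^ (W.card ^ 2) := by
  classical
  have hμ1 : (1 : ℝ) ≤ μ := by exact_mod_cast hμ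
  induction W using Finset.induction_on with
  | empty =>
    intro k hk
    rw [Finset.prod_empty, mul_one] at hk
    have h1 := Nat.le_of_dvd hμ hk
    have h2 : k ≤ μ := by nlinarith
    simpa using (by exact_mod_cast h2 : (k : ℝ) ≤ μ)
  | insert j W hj ih =>
    intro k hk
    have ih' := ih (fun i hi => hD i (Finset.mem_insert_of_mem hi))
      (fun i hi l hl => hg i (Finset.mem_insert_of_mem hi) l (Finset.mem_insert_of_mem hl))
    rw [Finset.prod_insert hj] at hk
    have hx : Squarefree (D j) := hD j (Finset.mem_insert_self _ _)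
    have hx0 : 0 < D j := Nat.pos_of_ne_zero hx.ne_zero
    obtain ⟨g, k1, x1, hg0, hcop, rfl, hxe⟩ := Nat.exists_coprime'
      (Nat.gcd_pos_of_pos_right k hx0)
    set P := μ * ∏ i ∈ W, D i with hP
    have hP0 : 0 < P := by
      rw [hP]
      exact Nat.mul_pos hμ (Finset.prod_pos fun i hi =>
        Nat.pos_of_ne_zero (hD i (Finset.mem_insert_of_mem hi)).ne_zero)
    have h1 : g * (g * k1 ^ 2) ∣ g * (P * x1) := by
      have e1 : g * (g * k1 ^ 2) = (k1 * g) ^ 2 := by ring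
      have e2 : g * (P * x1) = μ * (D j * ∏ i ∈ W, D i) := by rw [hxe, hP]; ring
      rw [e1, e2]
      exact hk
    have h2 : g * k1 ^ 2 ∣ P * x1 := Nat.dvd_of_mul_dvd_mul_left hg0 h1
    have h3 : k1 ^ 2 ∣ P :=
      (Nat.Coprime.pow_left 2 hcop).dvd_of_dvd_mul_right (dvd_trans (Dvd.intro_left g rfl) h2)
    have hcop2 : Nat.Coprime g x1 := by
      have h4 : Squarefree (x1 * g) := by rw [← hxe]; exact hx
      exact (Nat.coprime_of_squarefree_mul h4).symm
    have h4 : g ∣ P := hcop2.dvd_of_dvd_mul_right (dvd_trans (Dvd.intro _ rfl) h2)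
    have h5 : g ∣ D j := by rw [hxe]; exact Dvd.intro_left _ rfl
    have h6 : g ∣ μ * ∏ i ∈ W, Nat.gcd (D j) (D i) :=
      (Nat.dvd_gcd h5 h4).trans (gcd_prod_dvd (D j) μ D W)
    have h7 : (g : ℝ) ≤ μ * ∏ i ∈ W, (Nat.gcd (D j) (D i) : ℝ) := by
      have h8 := Nat.le_of_dvd (Nat.mul_pos hμ (Finset.prod_pos fun i hi =>
        Nat.gcd_pos_of_pos_left _ hx0)) h6
      exact_mod_cast h8
    have h8 : ∏ i ∈ W, (Nat.gcd (D j) (D i) : ℝ) ≤ G ^ W.card := by
      rw [← Finset.prod_const]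
      refine Finset.prod_le_prod (fun i _ => Nat.cast_nonneg _) fun i hi => ?_
      refine hg j (Finset.mem_insert_self _ _) i (Finset.mem_insert_of_mem hi) ?_
      rintro rfl
      exact hj hi
    have h9 := ih' k1 h3
    rw [Finset.card_insert_of_notMem hj]
    push_cast
    calc (k1 : ℝ) * g ≤ ((μ : ℝ) ^ (W.card + 1) * G ^ (W.card ^ 2)) * (μ * G ^ W.card) := by
          refine mul_le_mul h9 (h7.trans ?_) (Nat.cast_nonneg _) (by positivity)
          exact mul_le_mul_of_nonneg_left h8 (Nat.cast_nonneg _)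
      _ = (μ : ℝ) ^ (W.card + 1 + 1) * G ^ (W.card ^ 2 + W.card) := by ring
      _ ≤ (μ : ℝ) ^ (W.card + 1 + 1) * G ^ ((W.card + 1) ^ 2) := by
          apply mul_le_mul_of_nonneg_left _ (by positivity)
          apply pow_le_pow_right₀ hG
          nlinarith

/-- the tuples with a small entry or with a large common divisor -/
def Ex {N : ℕ} (X : ℕ) (G : ℝ) (D : Fin N → ℤ) : Prop :=
  (∃ i, |(D i : ℝ)| ≤ X / G) ∨ ∃ i j, i ≠ j ∧ G < (Int.gcd (D i) (D j) : ℝ)

/-- the size of the squarefree part -/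
theorem size_sf {N : ℕ} (μ : ℤ) (hμ : μ ≠ 0) (W : Finset (Fin N)) : ∃ c : ℝ, 0 ≤ c ∧
    ∀ (X : ℕ) (G : ℝ) (D : Fin N → ℤ) (s k : ℤ), 3 ≤ X → 1 ≤ G → (∀ i, D i ∈ sqf X) →
      ¬ Ex X G D → μ * ∏ i ∈ W, D i = s * k ^ 2 →
      |Real.log |(s : ℝ)| - W.card * Real.log X| ≤ c * (1 + Real.log G) := by
  classical
  have hμa : (1 : ℝ) ≤ |(μ : ℝ)| := by exact_mod_cast Int.one_le_abs hμ
  have hlμ : 0 ≤ Real.log |(μ : ℝ)| := Real.log_nonneg hμa
  refine ⟨W.card + 2 * W.card ^ 2 + (2 * W.card + 2) * Real.log |(μ : ℝ)|, by positivity,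
    fun X G D s k hX hG hD hEx hsk => ?_⟩
  have hlG : 0 ≤ Real.log G := Real.log_nonneg hG
  have hX0 : (0 : ℝ) < X := by exact_mod_cast (by omega : 0 < X)
  unfold Ex at hEx
  push Not at hEx
  obtain ⟨hE1, hE2⟩ := hEx
  have hD0 : ∀ i, D i ≠ 0 := fun i => sqf_ne (hD i)
  have hP0 : μ * ∏ i ∈ W, D i ≠ 0 := mul_ne_zero hμ (Finset.prod_ne_zero_iff.2 fun i _ => hD0 i)
  have hs0 : s ≠ 0 := by rintro rfl; rw [zero_mul] at hsk; exact hP0 hsk
  have hk0 : k ≠ 0 := by rintro rfl; rw [hsk] at hP0; simp at hP0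
  have hsa : (0 : ℝ) < |(s : ℝ)| := by exact_mod_cast abs_pos.2 hs0
  have hka : (1 : ℝ) ≤ |(k : ℝ)| := by exact_mod_cast Int.one_le_abs hk0
  -- the square is small
  have hdiv : k.natAbs ^ 2 ∣ μ.natAbs * ∏ i ∈ W, (D i).natAbs := by
    have e1 : μ.natAbs * ∏ i ∈ W, (D i).natAbs = (μ * ∏ i ∈ W, D i).natAbs := by
      rw [Int.natAbs_mul]
      congr 1
      exact (map_prod Int.natAbsHom D W).symm
    rw [e1, hsk, Int.natAbs_mul, Int.natAbs_pow]
    exact Dvd.intro_left _ rfl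
  have h1 := sq_dvd_le μ.natAbs (Int.natAbs_pos.2 hμ) (fun i => (D i).natAbs) G hG W
    (fun i _ => Int.squarefree_natAbs.2 (mem_sqf.1 (hD i)).2)
    (fun i _ j _ hij => hE2 i j hij) k.natAbs hdiv
  have h2 : |(k : ℝ)| ≤ |(μ : ℝ)| ^ (W.card + 1) * G ^ (W.card ^ 2) := by
    rw [Nat.cast_natAbs, Nat.cast_natAbs] at h1
    push_cast at h1
    exact h1
  have h3 : Real.log |(k : ℝ)| ≤ (W.card + 1) * Real.log |(μ : ℝ)| + W.card ^ 2 * Real.log G := by
    have h4 := Real.log_le_log (by linarith) h2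
    rw [Real.log_mul (by positivity) (by positivity), Real.log_pow, Real.log_pow] at h4
    push_cast at h4
    exact h4
  have h4 : 0 ≤ Real.log |(k : ℝ)| := Real.log_nonneg hka
  -- the logarithm of the product
  have h5 : Real.log |(s : ℝ)| + 2 * Real.log |(k : ℝ)| =
      Real.log |(μ : ℝ)| + ∑ i ∈ W, Real.log |(D i : ℝ)| := by
    have e1 : |(μ : ℝ)| * ∏ i ∈ W, |(D i : ℝ)| = |(s : ℝ)| * |(k : ℝ)| ^ 2 := by
      rw [← Finset.abs_prod, ← abs_mul, ← abs_pow, ← abs_mul]
      congr 1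
      exact_mod_cast hsk
    have e2 := congrArg Real.log e1
    have hDi : ∀ i ∈ W, |(D i : ℝ)| ≠ 0 := fun i _ => by
      have := hD0 i
      simpa using this
    rw [Real.log_mul (by positivity) (Finset.prod_ne_zero_iff.2 hDi), Real.log_prod hDi,
      Real.log_mul hsa.ne' (by positivity), Real.log_pow] at e2
    push_cast at e2
    linarith
  have h6 : ∑ i ∈ W, Real.log |(D i : ℝ)| ≤ W.card * Real.log X := by
    rw [← nsmul_eq_mul]
    refine Finset.sum_le_card_nsmul _ _ _ fun i _ => ?_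
    have h7 : (1 : ℝ) ≤ |(D i : ℝ)| := by exact_mod_cast Int.one_le_abs (hD0 i)
    have h8 : |(D i : ℝ)| ≤ X := by exact_mod_cast (mem_sqf.1 (hD i)).1
    exact Real.log_le_log (by linarith) h8
  have h7 : W.card * (Real.log X - Real.log G) ≤ ∑ i ∈ W, Real.log |(D i : ℝ)| := by
    rw [← nsmul_eq_mul]
    refine Finset.card_nsmul_le_sum _ _ _ fun i _ => ?_
    rw [← Real.log_div hX0.ne' (by positivity)]
    exact Real.log_le_log (by positivity) (hE1 i).le
  have hc0 : (0 : ℝ) ≤ W.card := Nat.cast_nonneg _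
  have hm1 : 0 ≤ (W.card : ℝ) * Real.log G := by positivity
  have hm2 : 0 ≤ (W.card : ℝ) ^ 2 * Real.log G := by positivity
  have hm3 : 0 ≤ (W.card : ℝ) * Real.log |(μ : ℝ)| := by positivity
  have hm4 : 0 ≤ Real.log |(μ : ℝ)| * Real.log G := by positivity
  have hm5 : 0 ≤ (W.card : ℝ) * Real.log |(μ : ℝ)| * Real.log G := by positivity
  rw [abs_le]
  constructor
  · nlinarith
  · nlinarith

theorem card_mult (X g : ℕ) (hg : 0 < g) :
    (((sqf X).filter fun x => (g : ℤ) ∣ x).card : ℝ) ≤ 2 * X / g := by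
  classical
  have h1 : ((sqf X).filter fun x => (g : ℤ) ∣ x).card ≤
      ((Finset.Icc (-((X / g : ℕ) : ℤ)) ((X / g : ℕ) : ℤ)).erase 0).card := by
    refine Finset.card_le_card_of_injOn (fun x => x / (g : ℤ)) ?_ ?_
    · intro x hx
      obtain ⟨h2, y, hy⟩ := Finset.mem_filter.1 hx
      have h3 := mem_sqf.1 h2
      have hg0 : (g : ℤ) ≠ 0 := by exact_mod_cast hg.ne'
      have h4 : x / (g : ℤ) = y := by rw [hy]; exact Int.mul_ediv_cancel_left _ hg0
      have h5 : y ≠ 0 := by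
        rintro rfl
        rw [mul_zero] at hy
        exact h3.2.ne_zero hy
      have h6 : y.natAbs ≤ X / g := by
        rw [Nat.le_div_iff_mul_le hg]
        have h7 : x.natAbs ≤ X := by
          have := h3.1
          rw [Int.abs_eq_natAbs] at this
          exact_mod_cast this
        rw [hy, Int.natAbs_mul, Int.natAbs_natCast, mul_comm] at h7
        exact h7
      simp only [Finset.coe_erase, Finset.coe_Icc, Set.mem_sdiff, Set.mem_singleton_iff, Set.mem_Icc]
      rw [h4]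
      refine ⟨?_, h5⟩
      omega
    · intro x hx y hy hxy
      obtain ⟨-, x', hx'⟩ := Finset.mem_filter.1 hx
      obtain ⟨-, y', hy'⟩ := Finset.mem_filter.1 hy
      have hg0 : (g : ℤ) ≠ 0 := by exact_mod_cast hg.ne'
      have h4 : x / (g : ℤ) = x' := by rw [hx']; exact Int.mul_ediv_cancel_left _ hg0
      have h5 : y / (g : ℤ) = y' := by rw [hy']; exact Int.mul_ediv_cancel_left _ hg0
      have hxy' : x / (g : ℤ) = y / (g : ℤ) := hxy
      rw [h4, h5] at hxy'
      rw [hx', hy', hxy']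
  have hq0 : (0 : ℤ) ≤ ((X / g : ℕ) : ℤ) := Int.natCast_nonneg _
  rw [Finset.card_erase_of_mem (Finset.mem_Icc.2 ⟨by linarith, hq0⟩), Int.card_Icc] at h1
  have h2 : ((sqf X).filter fun x => (g : ℤ) ∣ x).card ≤ 2 * (X / g) := by
    generalize X / g = q at h1 ⊢
    omega
  calc (((sqf X).filter fun x => (g : ℤ) ∣ x).card : ℝ) ≤ ((2 * (X / g) : ℕ) : ℝ) := by
        exact_mod_cast h2
    _ = 2 * ((X / g : ℕ) : ℝ) := by push_cast; ring
    _ ≤ 2 * ((X : ℝ) / g) := by
        have := Nat.cast_div_le (α := ℝ) (m := X) (n := g)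
        linarith
    _ = _ := by ring

theorem sum_inv_sq_le (M X : ℕ) (hM : 0 < M) :
    ∑ g ∈ Finset.Ioc M X, 1 / (g : ℝ) ^ 2 ≤ 1 / (M : ℝ) := by
  have h : ∀ n : ℕ, ∑ g ∈ Finset.Ioc M (M + n), 1 / (g : ℝ) ^ 2 ≤ 1 / (M : ℝ) - 1 / ((M + n : ℕ) : ℝ) := by
    intro n
    induction n with
    | zero => simp
    | succ n ih =>
      rw [← Nat.add_assoc, Finset.sum_Ioc_succ_top (by omega)]
      have hM0 : (0 : ℝ) < (M + n : ℕ) := by exact_mod_cast (by omega : 0 < M + n)
      have h1 : 1 / (((M + n + 1 : ℕ) : ℝ)) ^ 2 ≤ 1 / ((M + n : ℕ) : ℝ) - 1 / ((M + n + 1 : ℕ) : ℝ) := by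
        push_cast at hM0 ⊢
        rw [div_sub_div _ _ hM0.ne' (by positivity), div_le_div_iff₀ (by positivity) (by positivity)]
        nlinarith
      linarith
  rcases le_or_gt M X with hMX | hMX
  · obtain ⟨n, rfl⟩ := Nat.exists_eq_add_of_le hMX
    have h1 := h n
    have h2 : (0 : ℝ) ≤ 1 / ((M + n : ℕ) : ℝ) := by positivity
    linarith
  · rw [Finset.Ioc_eq_empty (by omega), Finset.sum_empty]
    positivity

theorem ex_count (N : ℕ) (X : ℕ) (G : ℝ) (hX : 3 ≤ X) (hG : 1 ≤ G)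
    (S : Finset (Fin N → ℤ)) (hS : S ⊆ Fintype.piFinset fun _ : Fin N => sqf X)
    (h : ∀ D ∈ S, Ex X G D) :
    (S.card : ℝ) ≤ (N + 2 * N ^ 2) * 3 ^ N * (X : ℝ) ^ N / G := by
  classical
  have hX0 : (0 : ℝ) < X := by exact_mod_cast (by omega : 0 < X)
  have hG0 : (0 : ℝ) < G := by linarith
  have hcard := card_sqf_le hX
  -- tuples with a small entry
  set A1 : Fin N → Finset (Fin N → ℤ) := fun i =>
    Fintype.piFinset fun l => if l = i then (sqf X).filter (fun x : ℤ => |(x : ℝ)| ≤ X / G) else sqf X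
    with hA1
  have c1 : ∀ i, ((A1 i).card : ℝ) ≤ 3 ^ N * (X : ℝ) ^ N / G := by
    intro i
    rw [hA1, Fintype.card_piFinset]
    push_cast
    have h1 : ∀ l : Fin N, (((if l = i then (sqf X).filter (fun x : ℤ => |(x : ℝ)| ≤ X / G)
        else sqf X).card : ℕ) : ℝ) ≤ 3 * X * (if l ∈ ({i} : Finset (Fin N)) then 1 / G else 1) := by
      intro l
      by_cases hl : l = i
      · rw [if_pos hl, if_pos (Finset.mem_singleton.2 hl)]
        have := small_count X ((sqf X).filter (fun x : ℤ => |(x : ℝ)| ≤ X / G)) (X / G) (by positivity)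
          (Finset.filter_subset _ _) fun d hd => (Finset.mem_filter.1 hd).2
        refine this.trans (le_of_eq ?_)
        ring
      · rw [if_neg hl, if_neg (fun h => hl (Finset.mem_singleton.1 h)), mul_one]; exact hcard
    refine (Finset.prod_le_prod (fun _ _ => Nat.cast_nonneg _) fun l _ => h1 l).trans (le_of_eq ?_)
    rw [Finset.prod_mul_distrib, Finset.prod_const, Finset.card_univ, Fintype.card_fin,
      Finset.prod_ite_mem, Finset.univ_inter, Finset.prod_singleton, mul_pow]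
    ring
  -- tuples with a large common divisor
  set M : ℕ := ⌊G⌋₊ with hM
  have hM1 : 1 ≤ M := Nat.le_floor (by exact_mod_cast hG)
  have hMG : G ≤ 2 * M := by
    have h1 : G < M + 1 := Nat.lt_floor_add_one G
    have h2 : (1 : ℝ) ≤ M := by exact_mod_cast hM1
    linarith
  set A2 : Fin N × Fin N → ℕ → Finset (Fin N → ℤ) := fun p g =>
    Fintype.piFinset fun l => if l ∈ ({p.1, p.2} : Finset (Fin N)) then
      (sqf X).filter (fun x => (g : ℤ) ∣ x) else sqf X with hA2
  have c2 : ∀ (p : Fin N × Fin N) (g : ℕ), p.1 ≠ p.2 → 0 < g →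
      ((A2 p g).card : ℝ) ≤ 3 ^ N * (X : ℝ) ^ N * (1 / (g : ℝ) ^ 2) := by
    intro p g hp hg
    rw [hA2, Fintype.card_piFinset]
    push_cast
    have h1 : ∀ l : Fin N, (((if l ∈ ({p.1, p.2} : Finset (Fin N)) then
        (sqf X).filter (fun x => (g : ℤ) ∣ x) else sqf X).card : ℕ) : ℝ) ≤
        3 * X * (if l ∈ ({p.1, p.2} : Finset (Fin N)) then 1 / (g : ℝ) else 1) := by
      intro l
      split_ifs with hl
      · refine (card_mult X g hg).trans ?_
        have : 0 ≤ (X : ℝ) / g := by positivity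
        calc 2 * (X : ℝ) / g = 2 * ((X : ℝ) / g) := by ring
          _ ≤ 3 * ((X : ℝ) / g) := by linarith
          _ = _ := by ring
      · rw [mul_one]; exact hcard
    refine (Finset.prod_le_prod (fun _ _ => Nat.cast_nonneg _) fun l _ => h1 l).trans (le_of_eq ?_)
    rw [Finset.prod_mul_distrib, Finset.prod_const, Finset.card_univ, Fintype.card_fin,
      Finset.prod_ite_mem, Finset.univ_inter, Finset.prod_const, Finset.card_pair hp, mul_pow]
    ring
  have hsub : S ⊆ (Finset.univ.biUnion A1) ∪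
      ((Finset.univ.filter fun p : Fin N × Fin N => p.1 ≠ p.2).biUnion fun p =>
        (Finset.Ioc M X).biUnion (A2 p)) := by
    intro D hD
    have h1 := Fintype.mem_piFinset.1 (hS hD)
    rw [Finset.mem_union]
    rcases h D hD with ⟨i, hi⟩ | ⟨i, j, hij, hgt⟩
    · left
      rw [Finset.mem_biUnion]
      refine ⟨i, Finset.mem_univ _, ?_⟩
      rw [hA1, Fintype.mem_piFinset]
      intro l
      split_ifs with hl
      · rw [Finset.mem_filter]
        exact ⟨h1 l, by rw [hl]; exact hi⟩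
      · exact h1 l
    · right
      rw [Finset.mem_biUnion]
      refine ⟨(i, j), Finset.mem_filter.2 ⟨Finset.mem_univ _, hij⟩, ?_⟩
      rw [Finset.mem_biUnion]
      refine ⟨Int.gcd (D i) (D j), ?_, ?_⟩
      · rw [Finset.mem_Ioc]
        refine ⟨Nat.floor_lt' (by have := Int.gcd_pos_of_ne_zero_left (D j) (sqf_ne (h1 i)); omega)
          |>.2 hgt, ?_⟩
        have h2 : Int.gcd (D i) (D j) ≤ (D i).natAbs :=
          Nat.le_of_dvd (Int.natAbs_pos.2 (sqf_ne (h1 i))) (Int.gcd_dvd_natAbs_left _ _)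
        have h3 : (D i).natAbs ≤ X := by
          have := (mem_sqf.1 (h1 i)).1
          rw [Int.abs_eq_natAbs] at this
          exact_mod_cast this
        exact h2.trans h3
      · rw [hA2, Fintype.mem_piFinset]
        intro l
        split_ifs with hl
        · rw [Finset.mem_filter]
          refine ⟨h1 l, ?_⟩
          rw [Finset.mem_insert, Finset.mem_singleton] at hl
          rcases hl with rfl | rfl
          · exact Int.gcd_dvd_left ..
          · exact Int.gcd_dvd_right ..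
        · exact h1 l
  have h2 := (Finset.card_le_card hsub).trans (Finset.card_union_le _ _)
  have h3 : ((Finset.univ.biUnion A1).card : ℝ) ≤ N * (3 ^ N * (X : ℝ) ^ N / G) := by
    have h4 := Finset.card_biUnion_le (s := (Finset.univ : Finset (Fin N))) (t := A1)
    calc ((Finset.univ.biUnion A1).card : ℝ) ≤ ∑ i, ((A1 i).card : ℝ) := by exact_mod_cast h4
      _ ≤ ∑ _i : Fin N, (3 ^ N * (X : ℝ) ^ N / G) := Finset.sum_le_sum fun i _ => c1 i
      _ = _ := by rw [Finset.sum_const, Finset.card_univ, Fintype.card_fin, nsmul_eq_mul]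
  have h5 : ((((Finset.univ.filter fun p : Fin N × Fin N => p.1 ≠ p.2).biUnion fun p =>
      (Finset.Ioc M X).biUnion (A2 p))).card : ℝ) ≤ N ^ 2 * (3 ^ N * (X : ℝ) ^ N * (2 / G)) := by
    have h6 := Finset.card_biUnion_le
      (s := (Finset.univ.filter fun p : Fin N × Fin N => p.1 ≠ p.2))
      (t := fun p => (Finset.Ioc M X).biUnion (A2 p))
    have h7 : ∀ p ∈ (Finset.univ.filter fun p : Fin N × Fin N => p.1 ≠ p.2),
        (((Finset.Ioc M X).biUnion (A2 p)).card : ℝ) ≤ 3 ^ N * (X : ℝ) ^ N * (2 / G) := by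
      intro p hp
      have hp' := (Finset.mem_filter.1 hp).2
      have h8 := Finset.card_biUnion_le (s := Finset.Ioc M X) (t := A2 p)
      calc (((Finset.Ioc M X).biUnion (A2 p)).card : ℝ) ≤ ∑ g ∈ Finset.Ioc M X, ((A2 p g).card : ℝ) := by
            exact_mod_cast h8
        _ ≤ ∑ g ∈ Finset.Ioc M X, 3 ^ N * (X : ℝ) ^ N * (1 / (g : ℝ) ^ 2) :=
            Finset.sum_le_sum fun g hg => c2 p g hp' (by have := (Finset.mem_Ioc.1 hg).1; omega)
        _ = 3 ^ N * (X : ℝ) ^ N * ∑ g ∈ Finset.Ioc M X, 1 / (g : ℝ) ^ 2 := by rw [Finset.mul_sum]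
        _ ≤ 3 ^ N * (X : ℝ) ^ N * (1 / M) :=
            mul_le_mul_of_nonneg_left (sum_inv_sq_le M X (by omega)) (by positivity)
        _ ≤ 3 ^ N * (X : ℝ) ^ N * (2 / G) := by
            apply mul_le_mul_of_nonneg_left _ (by positivity)
            have hM0 : (0 : ℝ) < M := by exact_mod_cast (by omega : 0 < M)
            rw [div_le_div_iff₀ hM0 hG0]
            linarith
    calc ((((Finset.univ.filter fun p : Fin N × Fin N => p.1 ≠ p.2).biUnion fun p =>
          (Finset.Ioc M X).biUnion (A2 p))).card : ℝ) ≤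
          ∑ p ∈ (Finset.univ.filter fun p : Fin N × Fin N => p.1 ≠ p.2),
            (((Finset.Ioc M X).biUnion (A2 p)).card : ℝ) := by exact_mod_cast h6
      _ ≤ ∑ _p ∈ (Finset.univ.filter fun p : Fin N × Fin N => p.1 ≠ p.2),
            (3 ^ N * (X : ℝ) ^ N * (2 / G)) := Finset.sum_le_sum h7
      _ = ((Finset.univ.filter fun p : Fin N × Fin N => p.1 ≠ p.2).card : ℝ) *
            (3 ^ N * (X : ℝ) ^ N * (2 / G)) := by rw [Finset.sum_const, nsmul_eq_mul]
      _ ≤ N ^ 2 * (3 ^ N * (X : ℝ) ^ N * (2 / G)) := by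
          apply mul_le_mul_of_nonneg_right _ (by positivity)
          have h9 : (Finset.univ.filter fun p : Fin N × Fin N => p.1 ≠ p.2).card ≤ N ^ 2 := by
            refine (Finset.card_le_card (Finset.filter_subset _ _)).trans ?_
            rw [Finset.card_univ, Fintype.card_prod, Fintype.card_fin, sq]
          exact_mod_cast h9
  calc (S.card : ℝ) ≤ ((Finset.univ.biUnion A1).card : ℝ) +
        ((((Finset.univ.filter fun p : Fin N × Fin N => p.1 ≠ p.2).biUnion fun p =>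
          (Finset.Ioc M X).biUnion (A2 p))).card : ℝ) := by exact_mod_cast h2
    _ ≤ N * (3 ^ N * (X : ℝ) ^ N / G) + N ^ 2 * (3 ^ N * (X : ℝ) ^ N * (2 / G)) := add_le_add h3 h5
    _ = _ := by ring

end

end Pool.Agent.N351.EV
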