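import Pool.Agent.N351.EV.El
import Pool.Agent.N351.EV.Nt
import Pool.Agent.Y19.QT.MD

set_option autoImplicit false

/-! Project EV (helper351): multiquadratic fields. -/

namespace Pool.Agent.N351.EV

open Complex MeasureTheory Filter Topology Set
open Pool.Agent.Y19.QT
open scoped ENNReal

noncomputable section

variable {Q : ℕ} {lam : ℕ → ℝ}

/-- the tuples whose product has an exceptional squarefree part -/
theorem bad_tuples (h3 : S_MQ3b) (T : Twists Q lam) (μ : ℤ) (hμ : μ ≠ 0) (N : ℕ)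
    (W : Finset (Fin N)) (hW : W.Nonempty) (k : ℕ) (ε : ℝ) (hε : 0 < ε) :
    ∃ C A : ℝ, 0 ≤ C ∧ 0 < A ∧ ∀ (X : ℕ) (S : Finset (Fin N → ℤ)), 3 ≤ X →
      S ⊆ Fintype.piFinset (fun _ : Fin N => sqf X) →
      (∀ D ∈ S, 3 ≤ |(sfd (μ * ∏ i ∈ W, D i) : ℝ)| ∧
        Real.log X ≤ 2 * Real.log |(sfd (μ * ∏ i ∈ W, D i) : ℝ)| ∧
        Bad T A ε (sfd (μ * ∏ i ∈ W, D i))) →
      (S.card : ℝ) ≤ C * (X : ℝ) ^ N / Real.log X ^ k := by
  classical
  obtain ⟨C3, A3, h⟩ := h3 μ hμ N W hW 0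
  obtain ⟨C, A, hC, hA, hb⟩ := bad_count T (2 * (A3 + k)) ε hε
  set g : ℤ → ℝ := fun s => if 3 ≤ |(s : ℝ)| ∧ Bad T A ε s then Real.log |(s : ℝ)| ^ (A3 + k) else 0
    with hg
  have hgs : ∀ s : ℤ, g s = if 3 ≤ |(s : ℝ)| ∧ Bad T A ε s then
      Real.log |(s : ℝ)| ^ (A3 + k) else 0 := fun s => rfl
  have hg0 : ∀ s, 0 ≤ g s := by
    intro s
    rw [hgs]
    split_ifs with hs
    · exact pow_nonneg (Real.log_nonneg (by linarith [hs.1])) _
    · exact le_rfl
  have hgsum : ∀ Y : ℕ, 3 ≤ Y → ∑ s ∈ sqf Y, g s ^ 2 ≤ C * (Y : ℝ) ^ (1 - (0 : ℝ)) *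
      Real.log Y ^ 0 := by
    intro Y hY
    have hl : 1 ≤ Real.log Y := one_le_log hY
    set B := (sqf Y).filter fun s : ℤ => 3 ≤ |(s : ℝ)| ∧ Bad T A ε s with hB
    have h1 := hb Y B hY (Finset.filter_subset _ _) fun s hs => (Finset.mem_filter.1 hs).2
    have h2 : ∑ s ∈ sqf Y, g s ^ 2 = ∑ s ∈ B, (Real.log |(s : ℝ)| ^ (A3 + k)) ^ 2 := by
      rw [hB, Finset.sum_filter]
      refine Finset.sum_congr rfl fun s _ => ?_
      rw [hgs]
      split_ifs with hs
      · rfl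
      · norm_num
    rw [h2, sub_zero, Real.rpow_one, pow_zero, mul_one]
    calc ∑ s ∈ B, (Real.log |(s : ℝ)| ^ (A3 + k)) ^ 2 ≤ ∑ _s ∈ B, Real.log Y ^ (2 * (A3 + k)) := by
          refine Finset.sum_le_sum fun s hs => ?_
          obtain ⟨hs1, hs2, -⟩ := Finset.mem_filter.1 hs
          have h3 : |(s : ℝ)| ≤ Y := by exact_mod_cast (mem_sqf.1 hs1).1
          have h4 : 0 ≤ Real.log |(s : ℝ)| := Real.log_nonneg (by linarith)
          rw [← pow_mul, mul_comm (A3 + k) 2]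
          exact pow_le_pow_left₀ h4 (Real.log_le_log (by linarith) h3) _
      _ = B.card * Real.log Y ^ (2 * (A3 + k)) := by rw [Finset.sum_const, nsmul_eq_mul]
      _ ≤ (C * Y / Real.log Y ^ (2 * (A3 + k))) * Real.log Y ^ (2 * (A3 + k)) := by
          gcongr
      _ = C * Y := by field_simp
  refine ⟨2 ^ (A3 + k) * (max C3 0 * Real.sqrt C), A, by positivity, hA, fun X S hX hS hD => ?_⟩
  have hl : 1 ≤ Real.log X := one_le_log hX
  have hl0 : 0 < Real.log X := by linarith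
  have h1 := h C 0 hC.le le_rfl (by norm_num) g hg0 hgsum
    (fun D => sfd (μ * ∏ i ∈ W, D i)) (fun D _ => sfd_spec _) X hX
  have h2 : (S.card : ℝ) * (Real.log X / 2) ^ (A3 + k) ≤
      ∑ D ∈ Fintype.piFinset (fun _ : Fin N => sqf X), g (sfd (μ * ∏ i ∈ W, D i)) := by
    rw [← nsmul_eq_mul]
    refine le_trans (Finset.card_nsmul_le_sum S (fun D => g (sfd (μ * ∏ i ∈ W, D i))) _
      fun D hDS => ?_) (Finset.sum_le_sum_of_subset_of_nonneg hS fun _ _ _ => hg0 _)
    obtain ⟨h4, h5, h6⟩ := hD D hDS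
    have e : g (sfd (μ * ∏ i ∈ W, D i)) =
        Real.log |(sfd (μ * ∏ i ∈ W, D i) : ℝ)| ^ (A3 + k) := if_pos ⟨h4, h6⟩
    rw [e]
    exact pow_le_pow_left₀ (by positivity) (by linarith) _
  have h3 := h2.trans h1
  have e1 : ((N : ℝ) - 0 / 2) = (N : ℝ) := by ring
  rw [e1, Real.rpow_natCast, div_pow] at h3
  rw [le_div_iff₀ (by positivity)]
  have h4 : (S.card : ℝ) * Real.log X ^ (A3 + k) ≤
      2 ^ (A3 + k) * (C3 * Real.sqrt C * (X : ℝ) ^ N * Real.log X ^ A3) := by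
    have h5 : (0 : ℝ) < 2 ^ (A3 + k) := by positivity
    rw [← mul_div_assoc, div_le_iff₀ h5] at h3
    linarith
  have h5 : (S.card : ℝ) * Real.log X ^ k * Real.log X ^ A3 ≤
      2 ^ (A3 + k) * (max C3 0 * Real.sqrt C) * (X : ℝ) ^ N * Real.log X ^ A3 := by
    calc (S.card : ℝ) * Real.log X ^ k * Real.log X ^ A3 =
          (S.card : ℝ) * Real.log X ^ (A3 + k) := by ring
      _ ≤ 2 ^ (A3 + k) * (C3 * Real.sqrt C * (X : ℝ) ^ N * Real.log X ^ A3) := h4
      _ ≤ 2 ^ (A3 + k) * (max C3 0 * Real.sqrt C * (X : ℝ) ^ N * Real.log X ^ A3) := by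
          gcongr
          exact le_max_left _ _
      _ = _ := by ring
  exact le_of_mul_le_mul_right h5 (by positivity)

/-- the average of the number of elements of a set of indices -/
theorem sum_card_nat (m n : ℕ) : 2 * ∑ R : Finset (Fin (m + n)),
    (Finset.univ.filter (fun i : Fin n => Fin.natAdd m i ∈ R)).card = n * 2 ^ (m + n) := by
  classical
  set f : Finset (Fin (m + n)) → ℕ := fun R =>
    (Finset.univ.filter (fun i : Fin n => Fin.natAdd m i ∈ R)).card with hf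
  have h1 : ∑ R : Finset (Fin (m + n)), f Rᶜ = ∑ R : Finset (Fin (m + n)), f R :=
    Equiv.sum_comp (Function.Involutive.toPerm _ (compl_involutive (α := Finset (Fin (m + n))))) f
  have h2 : ∀ R : Finset (Fin (m + n)), f R + f Rᶜ = n := by
    intro R
    rw [hf]
    show (Finset.univ.filter (fun i : Fin n => Fin.natAdd m i ∈ R)).card +
      (Finset.univ.filter (fun i : Fin n => Fin.natAdd m i ∈ Rᶜ)).card = n
    have h3 : (Finset.univ.filter (fun i : Fin n => Fin.natAdd m i ∈ Rᶜ)) =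
        Finset.univ.filter (fun i : Fin n => ¬ Fin.natAdd m i ∈ R) := by
      ext i; simp
    rw [h3, Finset.card_filter_add_card_filter_not, Finset.card_univ, Fintype.card_fin]
  calc 2 * ∑ R : Finset (Fin (m + n)), f R = ∑ R, f R + ∑ R, f Rᶜ := by rw [h1]; ring
    _ = ∑ R : Finset (Fin (m + n)), n := by
        rw [← Finset.sum_add_distrib]; exact Finset.sum_congr rfl fun R _ => h2 R
    _ = n * 2 ^ (m + n) := by
        rw [Finset.sum_const, Finset.card_univ, Fintype.card_finset, Fintype.card_fin, smul_eq_mul,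
          mul_comm]

end

end Pool.Agent.N351.EV
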