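import Pool.Agent.N351.EV.Stm
import Pool.Agent.H370R2.Local

set_option autoImplicit false

namespace Pool.Agent.N351.EV
namespace Lan

open Complex MeasureTheory Metric Filter Topology H370.Loc

lemma order_eq_count {f g : ℂ → ℂ} {s : Multiset ℂ} {ρ : ℂ} (hf : AnalyticAt ℂ f ρ)
    (hg : AnalyticAt ℂ g ρ) (hg0 : g ρ ≠ 0) (h : ∀ z, f z = Pf s z * g z) :
    (s.count ρ : ℕ∞) = analyticOrderAt f ρ := by
  have h1 : s = Multiset.replicate (s.count ρ) ρ + s.filter (fun x => ¬ (ρ = x)) := by
    rw [← Multiset.filter_eq]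
    exact (Multiset.filter_add_not _ s).symm
  have h2 : ∀ z, Pf s z = (z - ρ) ^ (s.count ρ) * Pf (s.filter (fun x => ¬ (ρ = x))) z := by
    intro z
    conv_lhs => rw [h1]
    unfold Pf
    rw [Multiset.map_add, Multiset.prod_add, Multiset.map_replicate, Multiset.prod_replicate]
  symm
  rw [hf.analyticOrderAt_eq_natCast]
  refine ⟨fun z => Pf (s.filter (fun x => ¬ (ρ = x))) z * g z, ?_, ?_, ?_⟩
  · exact ((Pf_diff _).analyticAt ρ).mul hg
  · refine mul_ne_zero (Pf_ne_zero fun x hx => ?_) hg0
    exact (Multiset.mem_filter.1 hx).2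
  · filter_upwards with z
    rw [h z, h2 z, smul_eq_mul, mul_assoc]

lemma logDeriv_Pf {s : Multiset ℂ} {z : ℂ} (h : ∀ ρ ∈ s, z ≠ ρ) :
    logDeriv (Pf s) z = (s.map fun ρ => 1 / (z - ρ)).sum := by
  induction s using Multiset.induction_on with
  | empty =>
    have : Pf 0 = fun _ => (1 : ℂ) := funext Pf_zero
    rw [this]
    simp [logDeriv]
  | cons ρ s ih =>
    have : Pf (ρ ::ₘ s) = fun z => (z - ρ) * Pf s z := funext (Pf_cons ρ s)
    have hz : z - ρ ≠ 0 := sub_ne_zero.2 (h ρ (Multiset.mem_cons_self ρ s))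
    have hP : Pf s z ≠ 0 := Pf_ne_zero fun ρ' h' => h ρ' (Multiset.mem_cons_of_mem h')
    have e1 : logDeriv (fun z => (z - ρ) * Pf s z) z =
        logDeriv (fun z => z - ρ) z + logDeriv (Pf s) z :=
      logDeriv_mul z hz hP (differentiableAt_id.sub_const ρ) (Pf_diff s z)
    have e2 : logDeriv (fun z => z - ρ) z = 1 / (z - ρ) := by
      rw [logDeriv_apply]
      congr 1
      simp
    rw [this, e1, e2, ih fun ρ' h' => h ρ' (Multiset.mem_cons_of_mem h'), Multiset.map_cons,
      Multiset.sum_cons]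

lemma re_inv (a t : ℝ) (ρ : ℂ) :
    (1 / (((a : ℂ) + t * I) - ρ)).re = (a - ρ.re) / ((a - ρ.re) ^ 2 + (t - ρ.im) ^ 2) := by
  rw [one_div, Complex.inv_re, Complex.normSq_apply]
  simp only [sub_re, add_re, ofReal_re, mul_re, I_re, mul_zero, ofReal_im, I_im, mul_one,
    sub_im, add_im, mul_im, zero_add, add_zero, sub_zero]
  ring_nf

lemma QS_eq (s : Multiset ℂ) (y t : ℝ) :
    2 * QS s y t = ((s.map fun ρ => 1 / (((y : ℂ) + t * I) - ρ)).sum -
      (s.map fun ρ => 1 / ((((-y : ℝ) : ℂ) + t * I) - ρ)).sum).re := by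
  induction s using Multiset.induction_on with
  | empty => simp [QS]
  | cons ρ s ih =>
    have e : QS (ρ ::ₘ s) y t = Qk y ρ t + QS s y t := by
      unfold QS
      rw [Multiset.map_cons, Multiset.sum_cons]
    rw [e, mul_add, ih, Multiset.map_cons, Multiset.sum_cons, Multiset.map_cons, Multiset.sum_cons]
    have e2 : 2 * Qk y ρ t = (1 / (((y : ℂ) + t * I) - ρ)).re -
        (1 / ((((-y : ℝ) : ℂ) + t * I) - ρ)).re := by
      rw [re_inv, re_inv]
      unfold Qk
      have e3 : (-y - ρ.re) / ((-y - ρ.re) ^ 2 + (t - ρ.im) ^ 2) =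
          -((y + ρ.re) / ((y + ρ.re) ^ 2 + (t - ρ.im) ^ 2)) := by
        rw [← neg_div]
        congr 1 <;> ring
      rw [e3]
      ring
    rw [e2]
    simp only [sub_re, add_re]
    ring

lemma logDeriv_neg {f : ℂ → ℂ} {w : ℂ} (hf : Differentiable ℂ f) (hw : w ≠ 0)
    (h : ∀ s, f (-s) = w * f s) (s : ℂ) : logDeriv f (-s) = -logDeriv f s := by
  have h1 : (fun s => f (-s)) = fun s => w * f s := funext h
  have h2 : deriv (fun s => f (-s)) s = -deriv f (-s) := deriv_comp_neg f s
  have h3 : deriv (fun s => w * f s) s = w * deriv f s := by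
    rw [deriv_const_mul]
    exact hf s
  rw [h1, h3] at h2
  rw [logDeriv_apply, logDeriv_apply, h s]
  have h4 : deriv f (-s) = -(w * deriv f s) := by rw [h2, neg_neg]
  rw [h4, neg_div, mul_div_mul_left _ _ hw]

lemma logDeriv_conj {f : ℂ → ℂ} (hf : Differentiable ℂ f)
    (h : ∀ s, f ((starRingEnd ℂ) s) = (starRingEnd ℂ) (f s)) (s : ℂ) :
    logDeriv f ((starRingEnd ℂ) s) = (starRingEnd ℂ) (logDeriv f s) := by
  have h1 : (starRingEnd ℂ) ∘ f ∘ (starRingEnd ℂ) = f := by
    funext z
    simp only [Function.comp_apply]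
    rw [h z, Complex.conj_conj]
  have h2 : deriv f ((starRingEnd ℂ) s) = (starRingEnd ℂ) (deriv f s) := by
    have h3 : HasDerivAt f (deriv f s) s := (hf s).hasDerivAt
    have h4 := h3.conj_conj
    rw [h1] at h4
    exact h4.deriv
  rw [logDeriv_apply, logDeriv_apply, h s, h2, map_div₀]

end Lan

open Complex MeasureTheory Metric Filter Topology H370.Loc Lan

theorem lan : S_LAN := by
  refine ⟨727, by norm_num, ?_⟩
  intro f w t0 B hf hB hw hneg hconj hc hb
  set c : ℂ := 1 + t0 * I with hcdef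
  have hfc : 0 < ‖f c‖ := norm_pos_iff.2 hc
  -- normalised function
  set F : ℂ → ℂ := fun z => f z / f c with hF
  have hFd : Differentiable ℂ F := hf.div_const _
  have hFan : AnalyticOnNhd ℂ F (closedBall c 6) := fun z _ => hFd.analyticAt z
  have hFc : F c = 1 := div_self hc
  have hFb : ∀ z ∈ closedBall c 6, ‖F z‖ ≤ Real.exp B := by
    intro z hz
    rw [hF]
    simp only
    rw [norm_div, div_le_iff₀ hfc]
    exact hb z hz
  obtain ⟨s, g, hs, hg, hfg, hg0, hcard⟩ := extract (f := F) (c := c) (r := 3) (R := 6)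
    (M := Real.exp B) (by norm_num) (by norm_num) (Real.one_le_exp hB) hFan
    (by rw [hFc]; exact one_ne_zero) hFb
  have hfF : ∀ z, f z = f c * F z := by
    intro z
    rw [hF]
    simp only
    field_simp
  have hfFun : f = fun z => f c * F z := funext hfF
  refine ⟨s, ?_, ?_, ?_, ?_⟩
  · intro ρ hρ
    refine ⟨(hs ρ hρ).1, ?_⟩
    rw [hfF, (hs ρ hρ).2, mul_zero]
  · intro ρ hρ
    have hρ6 : ρ ∈ closedBall c 6 := closedBall_subset_closedBall (by norm_num) hρ
    refine order_eq_count (g := fun z => f c * g z) (hf.analyticAt ρ)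
      (analyticAt_const.mul (hg ρ hρ6)) (mul_ne_zero hc (hg0 ρ hρ)) ?_
    intro z
    rw [hfF, hfg]
    ring
  · have h1 : Real.log (Real.exp B / ‖F c‖) = B := by
      rw [hFc, norm_one, div_one, Real.log_exp]
    have h2 : Real.log ((6 : ℝ) / 3) = Real.log 2 := by norm_num
    rw [h1, h2] at hcard
    have h3 : (1 / 2 : ℝ) ≤ Real.log 2 := by
      have := Real.log_two_gt_d9
      linarith
    refine hcard.trans ?_
    rw [div_le_iff₀ (by linarith)]
    nlinarith
  · intro y t hy hy4 ht hne
    set n := Multiset.card s with hn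
    -- bound for g
    have hgsphere : ∀ w ∈ sphere c 6, ‖g w‖ ≤ Real.exp B / 3 ^ n := by
      intro w hw
      have hwR := sphere_subset_closedBall hw
      have h1 : (3 : ℝ) ^ n ≤ ‖Pf s w‖ := Pf_norm_ge (by norm_num) fun ρ hρ => by
        have h2 := (hs ρ hρ).1
        rw [mem_closedBall, dist_eq_norm] at h2
        rw [mem_sphere, dist_eq_norm] at hw
        have h3 : ‖w - c‖ ≤ ‖w - ρ‖ + ‖ρ - c‖ := by
          calc ‖w - c‖ = ‖(w - ρ) + (ρ - c)‖ := by congr 1; ring
            _ ≤ _ := norm_add_le _ _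
        linarith
      rw [le_div_iff₀ (by positivity)]
      calc ‖g w‖ * 3 ^ n ≤ ‖g w‖ * ‖Pf s w‖ := mul_le_mul_of_nonneg_left h1 (norm_nonneg _)
        _ = ‖F w‖ := by rw [hfg w, norm_mul, mul_comm]
        _ ≤ Real.exp B := hFb w hwR
    have hgball : ∀ w ∈ closedBall c 6, ‖g w‖ ≤ Real.exp B / 3 ^ n := by
      intro w hw
      refine Complex.norm_le_of_forall_mem_frontier_norm_le (U := ball c 6) isBounded_ball ?_ ?_ ?_
      · apply DifferentiableOn.diffContOnCl
        rw [closure_ball c (by norm_num)]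
        exact fun x hx => (hg x hx).differentiableAt.differentiableWithinAt
      · intro x hx
        rw [frontier_ball c (by norm_num)] at hx
        exact hgsphere x hx
      · rwa [closure_ball c (by norm_num)]
    have hgc : 1 / 3 ^ n ≤ ‖g c‖ := by
      rw [div_le_iff₀ (by positivity)]
      have h1 : ‖Pf s c‖ ≤ (3 : ℝ) ^ n := Pf_norm_le fun ρ hρ => by
        have h2 := (hs ρ hρ).1
        rw [mem_closedBall, dist_eq_norm, norm_sub_rev] at h2
        exact h2
      calc (1 : ℝ) = ‖F c‖ := by rw [hFc, norm_one]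
        _ = ‖g c‖ * ‖Pf s c‖ := by rw [hfg c, norm_mul, mul_comm]
        _ ≤ ‖g c‖ * 3 ^ n := mul_le_mul_of_nonneg_left h1 (norm_nonneg _)
    have hgb : ∀ w ∈ closedBall c 3, ‖g w‖ ≤ Real.exp B * ‖g c‖ := by
      intro w hw
      refine (hgball w (closedBall_subset_closedBall (by norm_num) hw)).trans ?_
      calc Real.exp B / 3 ^ n = Real.exp B * (1 / 3 ^ n) := by ring
        _ ≤ _ := mul_le_mul_of_nonneg_left hgc (Real.exp_pos _).le
    have hg3 : AnalyticOnNhd ℂ g (closedBall c 3) := hg.mono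
      (closedBall_subset_closedBall (by norm_num))
    have hlg : ∀ z ∈ closedBall c 2.8, ‖logDeriv g z‖ ≤ 580 * (B + 1) := by
      intro z hz
      have := logDeriv_zero_free (r2 := 2.8) (r1 := 2.9) (r := 3) (by norm_num) (by norm_num)
        (by norm_num) hB hg3 hg0 hgb hz
      refine this.trans (le_of_eq ?_)
      norm_num
      ring
    have hhan : ∀ z ∈ closedBall c 3, AnalyticAt ℂ (logDeriv g) z := fun z hz =>
      (hg3 z hz).deriv.div (hg3 z hz) (hg0 z hz)
    have hderiv : ∀ z ∈ closedBall c 2, ‖deriv (logDeriv g) z‖ ≤ 725 * (B + 1) := by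
      intro z hz
      have hz1 : ‖z - c‖ ≤ 2 := by rwa [mem_closedBall, dist_eq_norm] at hz
      have hsub : closedBall z 0.8 ⊆ closedBall c 2.8 := by
        intro w hw
        rw [mem_closedBall, dist_eq_norm] at hw ⊢
        calc ‖w - c‖ = ‖(w - z) + (z - c)‖ := by congr 1; ring
          _ ≤ ‖w - z‖ + ‖z - c‖ := norm_add_le _ _
          _ ≤ 2.8 := by linarith
      have hdc : DiffContOnCl ℂ (logDeriv g) (ball z 0.8) := by
        apply DifferentiableOn.diffContOnCl
        intro w hw
        rw [closure_ball _ (by norm_num)] at hw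
        exact (hhan w (closedBall_subset_closedBall (by norm_num)
          (hsub hw))).differentiableAt.differentiableWithinAt
      have hcau := Complex.norm_deriv_le_of_forall_mem_sphere_norm_le (c := z) (R := 0.8)
        (C := 580 * (B + 1)) (f := logDeriv g) (by norm_num) hdc
        (fun w hw => hlg w (hsub (sphere_subset_closedBall hw)))
      refine hcau.trans (le_of_eq ?_)
      ring
    -- the two points
    set z1 : ℂ := (y : ℂ) + t * I with hz1
    set z2 : ℂ := ((-y : ℝ) : ℂ) + t * I with hz2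
    have hz12 : z2 = -((starRingEnd ℂ) z1) := by
      rw [hz1, hz2]
      apply Complex.ext <;> simp
    have ht1 : t - t0 ≤ 1 := (abs_le.1 ht).2
    have ht2 : -1 ≤ t - t0 := (abs_le.1 ht).1
    have hz1b : z1 ∈ closedBall c 2 := by
      rw [mem_closedBall, dist_eq_norm]
      apply (abs_le_of_sq_le_sq' _ (by norm_num)).2
      rw [← Complex.normSq_eq_norm_sq, Complex.normSq_apply, hz1, hcdef]
      simp
      nlinarith
    have hz2b : z2 ∈ closedBall c 2 := by
      rw [mem_closedBall, dist_eq_norm]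
      apply (abs_le_of_sq_le_sq' _ (by norm_num)).2
      rw [← Complex.normSq_eq_norm_sq, Complex.normSq_apply, hz2, hcdef]
      simp
      nlinarith
    have hne2 : f z2 ≠ 0 := by
      rw [hz12, hneg, hconj]
      exact mul_ne_zero hw (by rw [Ne, map_eq_zero]; exact hne)
    have hmv : ‖logDeriv g z1 - logDeriv g z2‖ ≤ 725 * (B + 1) * ‖z1 - z2‖ :=
      Convex.norm_image_sub_le_of_norm_deriv_le (s := closedBall c 2)
        (fun x hx => (hhan x (closedBall_subset_closedBall (by norm_num) hx)).differentiableAt)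
        hderiv (convex_closedBall c 2) hz2b hz1b
    have hzz : ‖z1 - z2‖ = 2 * y := by
      have : z1 - z2 = ((2 * y : ℝ) : ℂ) := by
        rw [hz1, hz2]; push_cast; ring
      rw [this, Complex.norm_real, Real.norm_eq_abs, abs_of_pos (by linarith)]
    -- log derivative formula
    have hform : ∀ z ∈ closedBall c 2, f z ≠ 0 →
        logDeriv f z = (s.map fun ρ => 1 / (z - ρ)).sum + logDeriv g z := by
      intro z hz hfz
      have hz3 : z ∈ closedBall c 3 := closedBall_subset_closedBall (by norm_num) hz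
      have hFz : F z ≠ 0 := by
        intro h0
        apply hfz
        rw [hfF, h0, mul_zero]
      have hPz : Pf s z ≠ 0 := by
        intro h0
        apply hFz
        rw [hfg, h0, zero_mul]
      have hzs : ∀ ρ ∈ s, z ≠ ρ := by
        intro ρ hρ he
        apply hFz
        rw [he]
        exact (hs ρ hρ).2
      have e1 : logDeriv f z = logDeriv F z := by
        conv_lhs => rw [hfFun]
        rw [logDeriv_const_mul z (f c) hc]
      have e2 : F = fun z => Pf s z * g z := funext hfg
      have e3 : logDeriv F z = logDeriv (Pf s) z + logDeriv g z := by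
        rw [e2]
        exact logDeriv_mul z hPz (hg0 z hz3) (Pf_diff s z) (hg3 z hz3).differentiableAt
      rw [e1, e3, logDeriv_Pf hzs]
    have hsym : logDeriv f z2 = -((starRingEnd ℂ) (logDeriv f z1)) := by
      rw [hz12, logDeriv_neg hf hw hneg, logDeriv_conj hf hconj]
    have h1 := hform z1 hz1b hne
    have h2 := hform z2 hz2b hne2
    have h3 : 2 * (logDeriv f z1).re = (logDeriv f z1 - logDeriv f z2).re := by
      rw [hsym]
      simp
      ring
    have h4 : 2 * ((logDeriv f z1).re - QS s y t) = (logDeriv g z1 - logDeriv g z2).re := by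
      have h5 := QS_eq s y t
      rw [← hz1, ← hz2] at h5
      rw [mul_sub, h3, h5, h1, h2]
      simp only [sub_re, add_re]
      ring
    have h5 : |2 * ((logDeriv f z1).re - QS s y t)| ≤ 725 * (B + 1) * (2 * y) := by
      rw [h4, ← hzz]
      exact (Complex.abs_re_le_norm _).trans hmv
    rw [abs_mul, abs_of_pos (by norm_num : (0 : ℝ) < 2)] at h5
    have h6 : 0 ≤ y * (B + 1) := by positivity
    nlinarith

end Pool.Agent.N351.EV
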