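import Pool.Agent.N351.EV.Kl
import Pool.Agent.Y19.QT.ME

set_option autoImplicit false

/-! Project EV (helper351): equidistribution of the zeros of almost all quadratic twists over
multiquadratic fields (the proof). -/

namespace Pool.Agent.N351.EV

open Complex MeasureTheory Filter Topology Set
open Pool.Agent.Y19.QT
open scoped ENNReal

noncomputable section

theorem evenLaw_of (h1 : S_MQ1) (h3 : S_MQ3b) (h4 : S_MQ4) {a b : ℤ}
    (hab : 4 * a ^ 3 + 27 * b ^ 2 ≠ 0) (hT : HasTwists a b)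
    (hL : ∀ d : ℤ, Squarefree d → ∃ F : ℂ → ℂ, IsLFun (a * d ^ 2) (b * d ^ 3) F) :
    MultiEvenLaw a b := by
  classical
  choose! L hL using hL
  obtain ⟨Q, lam, ⟨T⟩, hQ, hlam⟩ := hT
  intro m e n
  have hex := fun (d₀ : ℤ) (d : Fin n → ℤ) (h0 : d₀ ≠ 0) (hd : Indep (Fin.append e d)) =>
    exists_FK' h1 h4 hab L hL (Fin.append e d) hd d₀ h0
  refine ⟨fun d₀ d h0 hd => ?_, fun F hF k ε hε => ?_⟩
  · obtain ⟨F, hF, -⟩ := hex d₀ d h0 hd
    exact ⟨F, hF, fun G hG => isLFunK_unique hG hF⟩
  have hord : ∀ (d₀ : ℤ) (d : Fin n → ℤ), d₀ ≠ 0 → Indep (Fin.append e d) → ∀ w : ℂ, 1 / 2 < w.re →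
      analyticOrderAt (F d₀ d) w = ∑ R : Finset (Fin (m + n)),
        analyticOrderAt (L (sfd (d₀ * ∏ i ∈ R, Fin.append e d i))) w := by
    intro d₀ d h0 hd w hw
    obtain ⟨F', hF', h5⟩ := hex d₀ d h0 hd
    rw [isLFunK_unique (hF d₀ d h0 hd) hF']
    exact h5 w hw
  by_cases he : ∀ i, e i ≠ 0
  swap
  · refine ⟨0, 0, fun X hX => ⟨∅, Finset.empty_subset _, by simp, fun p hp => ?_⟩⟩
    exfalso
    have h6 : Indep (Fin.append e p.2) := (Finset.mem_filter.1 (Finset.mem_product.1 hp).2).2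
    apply he
    intro i
    have h7 := h6.ne (Fin.castAdd n i)
    rwa [Fin.append_left] at h7
  -- the squarefree parts
  set μ : Finset (Fin (m + n)) → ℤ := fun R =>
    ∏ i ∈ Finset.univ.filter (fun i : Fin m => Fin.castAdd n i ∈ R), e i with hμdef
  set V : Finset (Fin (m + n)) → Finset (Fin n) := fun R =>
    Finset.univ.filter (fun i : Fin n => Fin.natAdd m i ∈ R) with hVdef
  set W : Finset (Fin (m + n)) → Finset (Fin (n + 1)) := fun R =>
    insert 0 ((V R).map (Fin.succEmb n)) with hWdef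
  have h0W : ∀ R, (0 : Fin (n + 1)) ∉ (V R).map (Fin.succEmb n) := by
    intro R
    simp [Fin.succ_ne_zero]
  have hprod : ∀ (R : Finset (Fin (m + n))) (D : Fin (n + 1) → ℤ),
      D 0 * ∏ i ∈ R, Fin.append e (fun i => D i.succ) i = μ R * ∏ i ∈ W R, D i := by
    intro R D
    rw [prod_append, hWdef]
    show D 0 * _ = μ R * ∏ i ∈ insert 0 ((V R).map (Fin.succEmb n)), D i
    rw [Finset.prod_insert (h0W R), Finset.prod_map]
    simp only [Fin.coe_succEmb]
    ring
  have hμ : ∀ R, μ R ≠ 0 := fun R => Finset.prod_ne_zero_iff.2 fun i _ => he i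
  have hWc : ∀ R, (W R).card = (V R).card + 1 := by
    intro R
    show (insert 0 ((V R).map (Fin.succEmb n))).card = _
    rw [Finset.card_insert_of_notMem (h0W R), Finset.card_map]
  have hVn : ∀ R, (V R).card ≤ n := by
    intro R
    refine (Finset.card_le_univ _).trans ?_
    rw [Fintype.card_fin]
  set cn : ℤ × (Fin n → ℤ) → Fin (n + 1) → ℤ := fun p => Fin.cons p.1 p.2 with hcn
  have cn0 : ∀ p, cn p 0 = p.1 := fun p => rfl
  have cns : ∀ p, (fun i : Fin n => cn p (Fin.succ i)) = p.2 := fun p => rfl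
  have hcmem : ∀ X : ℕ, ∀ p ∈ sqf X ×ˢ tup e n X,
      cn p ∈ Fintype.piFinset (fun _ : Fin (n + 1) => sqf X) := by
    intro X p hp
    obtain ⟨hp1, hp2⟩ := Finset.mem_product.1 hp
    have hp3 := Fintype.mem_piFinset.1 (Finset.mem_filter.1 hp2).1
    rw [Fintype.mem_piFinset]
    intro i
    refine Fin.cases ?_ (fun i => ?_) i
    · rw [cn0]; exact hp1
    · exact hp3 i
  have hinj : Function.Injective cn := by
    intro p q hpq
    have h5 := congrFun hpq 0
    have h6 : (fun i : Fin n => cn p (Fin.succ i)) = fun i : Fin n => cn q (Fin.succ i) := by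
      rw [hpq]
    rw [cn0, cn0] at h5
    rw [cns, cns] at h6
    exact Prod.ext h5 h6
  set sR : Finset (Fin (m + n)) → ℤ × (Fin n → ℤ) → ℤ := fun R p =>
    sfd (p.1 * ∏ i ∈ R, Fin.append e p.2 i) with hsR
  have hsR' : ∀ R p, sR R p = sfd (μ R * ∏ i ∈ W R, cn p i) := by
    intro R p
    rw [← hprod R (cn p)]
    rfl
  -- the constants
  set ε1 : ℝ := ε / (4 * (n + 2)) with hε1def
  have hε1 : 0 < ε1 := by positivity
  choose cR hcR hsize using fun R => size_sf (μ R) (hμ R) (W R)
  choose C1 A1 hC1 hA1 hbad using fun R => bad_tuples h3 T (μ R) (hμ R) (n + 1) (W R)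
    ⟨0, Finset.mem_insert_self _ _⟩ k ε1 hε1
  set c : ℝ := (1 + ∑ R, cR R) * (1 + k) with hcdef
  have hsc : 0 ≤ ∑ R, cR R := Finset.sum_nonneg fun R _ => hcR R
  have hc0 : 0 < c := by positivity
  set δ : ℝ := min (1 / 2) (ε / 8) with hδdef
  have hδ0 : 0 < δ := lt_min (by norm_num) (by positivity)
  set L0 : ℝ := 3 + (2 * c / δ) ^ 2 with hL0def
  set A : ℝ := ∑ R, 2 * (A1 R * (1 + 2 * Real.log (n + 2))) with hAdef
  have hln : 0 ≤ Real.log ((n : ℝ) + 2) := Real.log_nonneg (by linarith [Nat.cast_nonneg (α := ℝ) n])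
  have hAR : ∀ R, 2 * (A1 R * (1 + 2 * Real.log (n + 2))) ≤ A := fun R =>
    Finset.single_le_sum (f := fun R => 2 * (A1 R * (1 + 2 * Real.log (n + 2))))
      (fun R _ => by have := hA1 R; positivity) (Finset.mem_univ R)
  set N : ℝ := ((n + 1 : ℕ) : ℝ) with hNdef
  set C : ℝ := 3 ^ (n + 1) * L0 ^ k + (N + 2 * N ^ 2) * 3 ^ (n + 1) + ∑ R, C1 R with hCdef
  have hsC : 0 ≤ ∑ R, C1 R := Finset.sum_nonneg fun R _ => hC1 R
  refine ⟨C, A, fun X hX => ?_⟩
  have hl : 1 ≤ Real.log X := one_le_log hX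
  set l := Real.log X with hldef
  have hl0 : 0 < l := by linarith
  have hll : 0 ≤ Real.log l := Real.log_nonneg hl
  have hX0 : (0 : ℝ) < X := by exact_mod_cast (by omega : 0 < X)
  have hL00 : 0 < L0 := by positivity
  by_cases hlarge : 3 ≤ l ∧ c * (1 + Real.log l) ≤ δ * l
  swap
  · -- small `X`
    refine ⟨sqf X ×ˢ tup e n X, le_rfl, ?_, fun p hp hp' => absurd hp hp'⟩
    have hlL0 : l ≤ L0 := by
      by_contra hcon
      push Not at hcon
      apply hlarge
      have h5 : (0 : ℝ) ≤ (2 * c / δ) ^ 2 := by positivity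
      refine ⟨by linarith, ?_⟩
      have h6 : Real.log l ≤ Real.sqrt l := log_le_sqrt hl
      have h7 : Real.sqrt l ^ 2 = l := Real.sq_sqrt hl0.le
      have h8 : 1 ≤ Real.sqrt l := by rw [Real.one_le_sqrt]; exact hl
      have h9 : 2 * c / δ ≤ Real.sqrt l := by
        apply Real.le_sqrt_of_sq_le
        linarith
      rw [div_le_iff₀ hδ0] at h9
      calc c * (1 + Real.log l) ≤ c * (Real.sqrt l + Real.sqrt l) := by gcongr
        _ = 2 * c * Real.sqrt l := by ring
        _ ≤ Real.sqrt l * δ * Real.sqrt l := by gcongr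
        _ = δ * Real.sqrt l ^ 2 := by ring
        _ = δ * l := by rw [h7]
    have h5 : ((sqf X ×ˢ tup e n X).card : ℝ) ≤ 3 ^ (n + 1) * (X : ℝ) ^ (n + 1) := by
      have h6 : (sqf X ×ˢ tup e n X).card ≤
          (Fintype.piFinset (fun _ : Fin (n + 1) => sqf X)).card :=
        Finset.card_le_card_of_injOn cn (fun p hp => hcmem X p hp) (hinj.injOn)
      rw [Fintype.card_piFinset, Finset.prod_const, Finset.card_univ, Fintype.card_fin] at h6
      calc ((sqf X ×ˢ tup e n X).card : ℝ) ≤ ((sqf X).card : ℝ) ^ (n + 1) := by exact_mod_cast h6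
        _ ≤ (3 * X) ^ (n + 1) := pow_le_pow_left₀ (Nat.cast_nonneg _) (card_sqf_le hX) _
        _ = _ := by rw [mul_pow]
    rw [le_div_iff₀ (by positivity)]
    calc ((sqf X ×ˢ tup e n X).card : ℝ) * l ^ k ≤ (3 ^ (n + 1) * (X : ℝ) ^ (n + 1)) * L0 ^ k := by
          gcongr
      _ = (3 ^ (n + 1) * L0 ^ k) * (X : ℝ) ^ (n + 1) := by ring
      _ ≤ C * (X : ℝ) ^ (n + 1) := by
          apply mul_le_mul_of_nonneg_right _ (by positivity)
          have : 0 ≤ (N + 2 * N ^ 2) * 3 ^ (n + 1) := by positivity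
          rw [hCdef]
          linarith
  obtain ⟨hl3, hlc⟩ := hlarge
  set G : ℝ := l ^ k with hGdef
  have hG1 : 1 ≤ G := one_le_pow₀ hl
  have hlG : Real.log G = k * Real.log l := Real.log_pow l k
  set P : Finset (Fin (m + n)) → ℤ × (Fin n → ℤ) → Prop := fun R p =>
    3 ≤ |(sR R p : ℝ)| ∧ l ≤ 2 * Real.log |(sR R p : ℝ)| ∧ Bad T (A1 R) ε1 (sR R p) with hPdef
  set S : Finset (ℤ × (Fin n → ℤ)) := (sqf X ×ˢ tup e n X).filter fun p =>
    Ex X G (cn p) ∨ ∃ R, P R p with hSdef
  refine ⟨S, Finset.filter_subset _ _, ?_, ?_⟩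
  · -- the number of exceptions
    set S0 : Finset (ℤ × (Fin n → ℤ)) := (sqf X ×ˢ tup e n X).filter fun p => Ex X G (cn p) with hS0
    set S1 : Finset (Fin (m + n)) → Finset (ℤ × (Fin n → ℤ)) := fun R =>
      (sqf X ×ˢ tup e n X).filter fun p => P R p with hS1
    have hsub : S ⊆ S0 ∪ Finset.univ.biUnion S1 := by
      intro p hp
      obtain ⟨hp1, hp2⟩ := Finset.mem_filter.1 hp
      rw [Finset.mem_union, Finset.mem_biUnion]
      rcases hp2 with hp2 | ⟨R, hR⟩
      · exact Or.inl (Finset.mem_filter.2 ⟨hp1, hp2⟩)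
      · exact Or.inr ⟨R, Finset.mem_univ _, Finset.mem_filter.2 ⟨hp1, hR⟩⟩
    have c0 : (S0.card : ℝ) ≤ (N + 2 * N ^ 2) * 3 ^ (n + 1) * (X : ℝ) ^ (n + 1) / G := by
      have h5 := ex_count (n + 1) X G hX hG1 (S0.image cn) (by
          intro D hD
          obtain ⟨p, hp, rfl⟩ := Finset.mem_image.1 hD
          exact hcmem X p (Finset.mem_filter.1 hp).1) (by
          intro D hD
          obtain ⟨p, hp, rfl⟩ := Finset.mem_image.1 hD
          exact (Finset.mem_filter.1 hp).2)
      rw [Finset.card_image_of_injective _ hinj] at h5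
      exact h5
    have c1 : ∀ R, ((S1 R).card : ℝ) ≤ C1 R * (X : ℝ) ^ (n + 1) / l ^ k := by
      intro R
      have h5 := hbad R X ((S1 R).image cn) hX (by
          intro D hD
          obtain ⟨p, hp, rfl⟩ := Finset.mem_image.1 hD
          exact hcmem X p (Finset.mem_filter.1 hp).1) (by
          intro D hD
          obtain ⟨p, hp, rfl⟩ := Finset.mem_image.1 hD
          rw [← hsR' R p]
          exact (Finset.mem_filter.1 hp).2)
      rw [Finset.card_image_of_injective _ hinj] at h5
      exact h5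
    have h5 := (Finset.card_le_card hsub).trans (Finset.card_union_le _ _)
    have h6 := Finset.card_biUnion_le (s := Finset.univ) (t := S1)
    have h7 : ((Finset.univ.biUnion S1).card : ℝ) ≤ (∑ R, C1 R) * (X : ℝ) ^ (n + 1) / l ^ k := by
      calc ((Finset.univ.biUnion S1).card : ℝ) ≤ ∑ R, ((S1 R).card : ℝ) := by exact_mod_cast h6
        _ ≤ ∑ R, C1 R * (X : ℝ) ^ (n + 1) / l ^ k := Finset.sum_le_sum fun R _ => c1 R
        _ = _ := by rw [← Finset.sum_div, ← Finset.sum_mul]
    calc (S.card : ℝ) ≤ (S0.card : ℝ) + ((Finset.univ.biUnion S1).card : ℝ) := by exact_mod_cast h5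
      _ ≤ (N + 2 * N ^ 2) * 3 ^ (n + 1) * (X : ℝ) ^ (n + 1) / G +
          (∑ R, C1 R) * (X : ℝ) ^ (n + 1) / l ^ k := add_le_add c0 h7
      _ = ((N + 2 * N ^ 2) * 3 ^ (n + 1) + ∑ R, C1 R) * ((X : ℝ) ^ (n + 1) / l ^ k) := by
          rw [hGdef]; ring
      _ ≤ C * ((X : ℝ) ^ (n + 1) / l ^ k) := by
          apply mul_le_mul_of_nonneg_right _ (by positivity)
          have : 0 ≤ 3 ^ (n + 1) * L0 ^ k := by positivity
          rw [hCdef]
          linarith
      _ = _ := by ring
  · intro p hp hpS u v huv huv1 hwin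
    have hpS' : ¬ (Ex X G (cn p) ∨ ∃ R, P R p) := fun h => hpS (Finset.mem_filter.2 ⟨hp, h⟩)
    push Not at hpS'
    obtain ⟨hEx, hnP⟩ := hpS'
    obtain ⟨hp1, hp2⟩ := Finset.mem_product.1 hp
    have hi : Indep (Fin.append e p.2) := (Finset.mem_filter.1 hp2).2
    have hp0 : p.1 ≠ 0 := sqf_ne hp1
    have hD := Fintype.mem_piFinset.1 (hcmem X p hp)
    -- the sizes
    set Λ : Finset (Fin (m + n)) → ℝ := fun R => Real.log |(sR R p : ℝ)| with hΛ
    have hΛ1 : ∀ R, |Λ R - (W R).card * l| ≤ c * (1 + Real.log l) := by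
      intro R
      obtain ⟨-, t, ht⟩ := sfd_spec (μ R * ∏ i ∈ W R, cn p i)
      rw [← hsR' R p] at ht
      have h5 := hsize R X G (cn p) (sR R p) t hX hG1 hD hEx ht
      refine h5.trans ?_
      rw [hlG, hcdef]
      have h6 : cR R ≤ 1 + ∑ R, cR R := by
        have := Finset.single_le_sum (f := cR) (fun R _ => hcR R) (Finset.mem_univ R)
        linarith
      have h7 : 1 + (k : ℝ) * Real.log l ≤ (1 + k) * (1 + Real.log l) := by
        have : (0 : ℝ) ≤ k := Nat.cast_nonneg k
        nlinarith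
      have h8 : 0 ≤ 1 + (k : ℝ) * Real.log l := by positivity
      calc cR R * (1 + k * Real.log l) ≤ (1 + ∑ R, cR R) * ((1 + k) * (1 + Real.log l)) :=
            mul_le_mul h6 h7 h8 (by positivity)
        _ = _ := by ring
    have hΛ2 : ∀ R, |Λ R - (W R).card * l| ≤ δ * l := fun R => (hΛ1 R).trans hlc
    have hδ2 : δ ≤ 1 / 2 := min_le_left _ _
    have hδε : δ ≤ ε / 8 := min_le_right _ _
    have hΛlo : ∀ R, l / 2 ≤ Λ R := by
      intro R
      have h5 := (abs_le.1 (hΛ2 R)).1
      have h6 : (1 : ℝ) ≤ (W R).card := by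
        rw [hWc R]; push_cast
        linarith [Nat.cast_nonneg (α := ℝ) (V R).card]
      nlinarith
    have hΛhi : ∀ R, Λ R ≤ (n + 2) * l := by
      intro R
      have h5 := (abs_le.1 (hΛ2 R)).2
      have h6 : ((W R).card : ℝ) ≤ n + 1 := by
        rw [hWc R]; push_cast
        have : ((V R).card : ℝ) ≤ n := by exact_mod_cast hVn R
        linarith
      nlinarith
    have hs3 : ∀ R, 3 ≤ |(sR R p : ℝ)| := by
      intro R
      have h5 := hΛlo R
      have h6 : (3 / 2 : ℝ) ≤ Real.log |(sR R p : ℝ)| := by linarith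
      have hsne : sR R p ≠ 0 := (sfd_spec _).1.ne_zero
      have hspos : (0 : ℝ) < |(sR R p : ℝ)| := by
        have : (sR R p : ℝ) ≠ 0 := by exact_mod_cast hsne
        positivity
      have h7 := (Real.le_log_iff_exp_le hspos).1 h6
      refine le_trans ?_ h7
      have h8 := Real.add_one_le_exp (1 / 2 : ℝ)
      have h9 := Real.exp_one_gt_d9
      have e1 : Real.exp (3 / 2 : ℝ) = Real.exp 1 * Real.exp (1 / 2) := by
        rw [← Real.exp_add]; norm_num
      rw [e1]
      nlinarith
    have hD0 : 0 < v - u := by linarith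
    have hl2u : (0.69 : ℝ) ≤ Real.log (2 + |u|) := by
      have h5 := Real.log_two_gt_d9
      have h6 := Real.log_le_log (by norm_num : (0 : ℝ) < 2) (show (2 : ℝ) ≤ 2 + |u| by
        linarith [abs_nonneg u])
      linarith
    have hwin' : A * (Real.log l + Real.log (2 + |u|)) ≤ (v - u) * l := by
      rw [← mul_div_assoc, div_le_iff₀ hl0] at hwin
      exact hwin
    -- each factor
    have hone : ∀ R, zwin (L (sR R p)) u v ≠ ⊤ ∧
        |Real.pi * (zwin (L (sR R p)) u v).toReal - (v - u) * Λ R| ≤ ε1 * ((v - u) * Λ R) := by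
      intro R
      have hsf : Squarefree (sR R p) := (sfd_spec _).1
      refine zwin_good a b hab T hQ hlam (sR R p) hsf (L (sR R p)) (hL _ hsf) ?_
      by_contra hng
      apply hnP R
      refine ⟨hs3 R, by have := hΛlo R; linarith, u, v, huv, huv1, ?_, hng⟩
      show A1 R * (Real.log (Λ R) + Real.log (2 + |u|)) ≤ (v - u) * Λ R
      have hΛ0 : 0 < Λ R := by have := hΛlo R; linarith
      have h5 : Real.log (Λ R) ≤ Real.log (n + 2) + Real.log l := by
        rw [← Real.log_mul (by positivity) hl0.ne']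
        exact Real.log_le_log hΛ0 (hΛhi R)
      have h6 : Real.log (Λ R) + Real.log (2 + |u|) ≤
          (1 + 2 * Real.log (n + 2)) * (Real.log l + Real.log (2 + |u|)) := by
        nlinarith
      have h7 : 0 ≤ Real.log l + Real.log (2 + |u|) := by linarith
      calc A1 R * (Real.log (Λ R) + Real.log (2 + |u|)) ≤
            A1 R * ((1 + 2 * Real.log (n + 2)) * (Real.log l + Real.log (2 + |u|))) :=
            mul_le_mul_of_nonneg_left h6 (hA1 R).le
        _ = (2 * (A1 R * (1 + 2 * Real.log (n + 2)))) * (Real.log l + Real.log (2 + |u|)) / 2 := by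
            ring
        _ ≤ A * (Real.log l + Real.log (2 + |u|)) / 2 := by
            have := hAR R
            gcongr
        _ ≤ (v - u) * l / 2 := by linarith
        _ = (v - u) * (l / 2) := by ring
        _ ≤ (v - u) * Λ R := mul_le_mul_of_nonneg_left (hΛlo R) hD0.le
    -- the product
    have hsum : zwin (F p.1 p.2) u v = ∑ R, zwin (L (sR R p)) u v :=
      zwin_sum (hF p.1 p.2 hp0 hi).1 (fun R => (hL _ (sfd_spec _).1).1) u v
        fun w hw => hord p.1 p.2 hp0 hi w (by linarith)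
    rw [hsum]
    refine ⟨by
      rw [ne_eq, ENNReal.sum_eq_top]
      push Not
      exact fun R _ => (hone R).1, ?_⟩
    rw [ENNReal.toReal_sum fun R _ => (hone R).1]
    set Z : ℝ := ∑ R, (zwin (L (sR R p)) u v).toReal with hZ
    set M : ℝ := 2 ^ (m + n) with hM
    have hM0 : 0 < M := by positivity
    have hn0 : (0 : ℝ) ≤ n := Nat.cast_nonneg n
    have hpi := Real.pi_pos
    have hsumW : ∑ R, ((W R).card : ℝ) = M * (1 + (n : ℝ) / 2) := by
      have h5 := sum_card_nat m n
      have h6 : (2 : ℝ) * ∑ R : Finset (Fin (m + n)), ((V R).card : ℝ) = n * 2 ^ (m + n) := by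
        exact_mod_cast h5
      have h7 : ∑ R, ((W R).card : ℝ) = ∑ R : Finset (Fin (m + n)), ((V R).card : ℝ) + M := by
        rw [hM]
        calc ∑ R, ((W R).card : ℝ) = ∑ R : Finset (Fin (m + n)), (((V R).card : ℝ) + 1) := by
              refine Finset.sum_congr rfl fun R _ => ?_
              rw [hWc R]; push_cast; ring
          _ = _ := by
              rw [Finset.sum_add_distrib, Finset.sum_const, Finset.card_univ, Fintype.card_finset,
                Fintype.card_fin, nsmul_eq_mul, mul_one]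
              push_cast
              ring
      rw [h7]
      linarith
    have hcardR : (∑ _R : Finset (Fin (m + n)), (1 : ℝ)) = M := by
      rw [Finset.sum_const, Finset.card_univ, Fintype.card_finset, Fintype.card_fin, nsmul_eq_mul,
        mul_one, hM]
      push_cast
      ring
    have hmain : |Real.pi * Z - M * (1 + (n : ℝ) / 2) * ((v - u) * l)| ≤
        ε * (M * (1 + (n : ℝ) / 2) * ((v - u) * l)) := by
      have e1 : Real.pi * Z - M * (1 + (n : ℝ) / 2) * ((v - u) * l) =
          ∑ R, ((Real.pi * (zwin (L (sR R p)) u v).toReal - (v - u) * Λ R) +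
            (v - u) * (Λ R - (W R).card * l)) := by
        rw [← hsumW, Finset.sum_mul, hZ, Finset.mul_sum, ← Finset.sum_sub_distrib]
        refine Finset.sum_congr rfl fun R _ => ?_
        ring
      rw [e1]
      calc |∑ R, ((Real.pi * (zwin (L (sR R p)) u v).toReal - (v - u) * Λ R) +
            (v - u) * (Λ R - (W R).card * l))| ≤
            ∑ R, |(Real.pi * (zwin (L (sR R p)) u v).toReal - (v - u) * Λ R) +
            (v - u) * (Λ R - (W R).card * l)| := Finset.abs_sum_le_sum_abs _ _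
        _ ≤ ∑ _R : Finset (Fin (m + n)), (ε * ((v - u) * l)) * (1 : ℝ) := by
            refine Finset.sum_le_sum fun R _ => ?_
            refine (abs_add_le _ _).trans ?_
            rw [abs_mul, abs_of_pos hD0]
            have h5 := (hone R).2
            have h6 := hΛhi R
            have h7 := hΛ2 R
            have h8 : ε1 * ((v - u) * Λ R) ≤ ε / 4 * ((v - u) * l) := by
              calc ε1 * ((v - u) * Λ R) ≤ ε1 * ((v - u) * ((n + 2) * l)) := by gcongr
                _ = ε / 4 * ((v - u) * l) := by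
                    rw [hε1def]
                    field_simp
            have h9 : (v - u) * |Λ R - (W R).card * l| ≤ ε / 8 * ((v - u) * l) := by
              calc (v - u) * |Λ R - (W R).card * l| ≤ (v - u) * (δ * l) := by gcongr
                _ ≤ (v - u) * (ε / 8 * l) := by gcongr
                _ = _ := by ring
            have h10 : 0 < ε * ((v - u) * l) := by positivity
            linarith
        _ = (ε * ((v - u) * l)) * M := by rw [← Finset.mul_sum, hcardR]
        _ ≤ ε * (M * (1 + (n : ℝ) / 2) * ((v - u) * l)) := by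
            have h10 : 0 ≤ ε * ((v - u) * l) * M := by positivity
            calc ε * ((v - u) * l) * M ≤ ε * ((v - u) * l) * M * (1 + (n : ℝ) / 2) :=
                  le_mul_of_one_le_right h10 (by linarith)
              _ = _ := by ring
    have e2 : Z - M * (1 + (n : ℝ) / 2) * ((v - u) * l / Real.pi) =
        (Real.pi * Z - M * (1 + (n : ℝ) / 2) * ((v - u) * l)) / Real.pi := by
      field_simp
    have e3 : ε * (M * (1 + (n : ℝ) / 2) * ((v - u) * l / Real.pi)) =
        ε * (M * (1 + (n : ℝ) / 2) * ((v - u) * l)) / Real.pi := by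
      ring
    rw [e2, e3, abs_div, abs_of_pos hpi]
    exact div_le_div_of_nonneg_right hmain hpi.le

theorem evenLaw_fam {a b : ℤ} (h : Fam a b) : MultiEvenLaw a b :=
  evenLaw_of s_MQ1 s_MQ3b s_MQ4 h.disc h.data.1 h.data.2

theorem evenLaw_modular {a b : ℤ} (hab : 4 * a ^ 3 + 27 * b ^ 2 ≠ 0) (h : TwistsModular a b) :
    MultiEvenLaw a b :=
  evenLaw_of s_MQ1 s_MQ3b s_MQ4 hab (hasTwists_of a b hab h) (exists_LFun a b hab h)

end

end Pool.Agent.N351.EV
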