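import Pool.Agent.N351.EV.Stm
import Pool.Agent.H370R2.Local

set_option autoImplicit false

/-! Project EV (helper351): the zeros of one `L`-function in a short window. -/

namespace Pool.Agent.N351.EV

open Complex MeasureTheory Metric
open scoped ComplexConjugate

noncomputable section

/-- the number of zeros of `f` with `a ≤ Im ρ ≤ b` is `(1 ± ε) (b - a) L / π` -/
def Good (f : ℂ → ℂ) (a b L ε : ℝ) : Prop := ∃ s : Multiset ℂ,
  (∀ ρ : ℂ, (s.count ρ : ℕ∞) = if a ≤ ρ.im ∧ ρ.im ≤ b then analyticOrderAt f ρ else 0) ∧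
    |Real.pi * (Multiset.card s : ℝ) - (b - a) * L| ≤ ε * ((b - a) * L) ∧
    ∀ ρ ∈ s, |ρ.re| ≤ 1 / 40

/-- growth of a function with a bounded logarithmic derivative along a segment -/
theorem ratio_le {G : ℂ → ℂ} {z₀ z : ℂ} {K : ℝ} (hK : 0 ≤ K)
    (hd : ∀ τ : ℝ, τ ∈ Set.Icc (0 : ℝ) 1 → DifferentiableAt ℂ G (z₀ + τ * (z - z₀)))
    (hb : ∀ τ : ℝ, τ ∈ Set.Icc (0 : ℝ) 1 → G (z₀ + τ * (z - z₀)) ≠ 0 ∧
      ‖logDeriv G (z₀ + τ * (z - z₀))‖ ≤ K) :
    ‖G z‖ ≤ Real.exp (K * ‖z - z₀‖) * ‖G z₀‖ := by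
  have hder : ∀ τ ∈ Set.Icc (0 : ℝ) 1, HasDerivAt (fun τ : ℝ => G (z₀ + τ * (z - z₀)))
      (deriv G (z₀ + τ * (z - z₀)) * (z - z₀)) τ := by
    intro τ hτ
    have h1 : HasDerivAt (fun τ : ℝ => z₀ + (τ : ℂ) * (z - z₀)) (z - z₀) τ := by
      have h2 : HasDerivAt (fun τ : ℝ => (τ : ℂ)) 1 τ := Complex.ofRealCLM.hasDerivAt
      have h3 := (h2.mul_const (z - z₀)).const_add z₀
      simpa using h3
    exact (hd τ hτ).hasDerivAt.comp τ h1
  have h := norm_le_gronwallBound_of_norm_deriv_right_le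
    (f := fun τ : ℝ => G (z₀ + τ * (z - z₀)))
    (f' := fun τ : ℝ => deriv G (z₀ + τ * (z - z₀)) * (z - z₀))
    (δ := ‖G z₀‖) (K := K * ‖z - z₀‖) (ε := 0) (a := 0) (b := 1)
    (fun τ hτ => (hder τ hτ).continuousAt.continuousWithinAt)
    (fun τ hτ => (hder τ ⟨hτ.1, hτ.2.le⟩).hasDerivWithinAt)
    (by simp) (fun τ hτ => by
      obtain ⟨h1, h2⟩ := hb τ ⟨hτ.1, hτ.2.le⟩
      rw [logDeriv_apply, norm_div, div_le_iff₀ (norm_pos_iff.2 h1)] at h2
      rw [norm_mul, add_zero]
      calc _ ≤ K * ‖G (z₀ + τ * (z - z₀))‖ * ‖z - z₀‖ := by gcongr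
        _ = _ := by ring) 1 (by simp)
  rw [gronwallBound_ε0] at h
  simp only [ofReal_one, one_mul, add_sub_cancel, sub_zero, mul_one] at h
  rw [mul_comm]
  exact h

/-- the logarithmic derivative of a function of moderate size without zeros in a disc -/
theorem logDeriv_le {E : ℂ → ℂ} (hE : Differentiable ℂ E) {c : ℂ} {y K : ℝ} (hy : 0 < y) (hK : 0 ≤ K)
    (h1 : ∀ z ∈ closedBall c (y / 2), Real.exp (-K) ≤ ‖E z‖)
    (h2 : ∀ z ∈ closedBall c (y / 2), ‖E z‖ ≤ Real.exp K) :
    ‖logDeriv E c‖ ≤ 16 * (2 * K + 1) / y := by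
  have hc : c ∈ closedBall c (y / 2) := mem_closedBall_self (by positivity)
  have h := H370.Loc.logDeriv_zero_free (g := E) (c := c) (r := y / 2) (r1 := y / 4) (r2 := y / 8)
    (B := 2 * K) (by positivity) (by linarith) (by linarith) (by positivity)
    (fun z _ => hE.analyticAt z)
    (fun z hz h0 => by
      have := h1 z hz
      rw [h0, norm_zero] at this
      exact absurd (Real.exp_pos (-K)) (not_lt.2 this))
    (fun z hz => by
      refine (h2 z hz).trans ?_
      have h3 := h1 c hc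
      calc Real.exp K = Real.exp (2 * K) * Real.exp (-K) := by rw [← Real.exp_add]; ring_nf
        _ ≤ _ := by gcongr) (z := c) (mem_closedBall_self (by positivity))
  refine h.trans (le_of_eq ?_)
  field_simp
  ring

theorem one (hLAN : S_LAN) (hCNT : S_CNT) (B ε : ℝ) (hB : 0 < B) (hε : 0 < ε) :
    ∃ A : ℝ, 0 < A ∧ ∀ (f G E : ℂ → ℂ) (w : ℂ) (L l a b : ℝ),
      Differentiable ℂ f → Differentiable ℂ E → w ≠ 0 → (∀ s, f (-s) = w * f s) →
      (∀ s, f (conj s) = conj (f s)) →
      (∀ z : ℂ, 0 ≤ z.re → AnalyticAt ℂ G z ∧ G z ≠ 0 ∧ f z = G z * E z) →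
      1 ≤ l → a < b → b ≤ a + 1 → A * l ≤ (b - a) * L →
      (∀ z : ℂ, 0 ≤ z.re → z.re ≤ 7 → |z.im - (a + b) / 2| ≤ 7 → ‖logDeriv G z - L‖ ≤ B * l) →
      (∀ z : ℂ, 0 ≤ z.re → z.re ≤ 7 → |z.im - (a + b) / 2| ≤ 7 → ‖E z‖ ≤ Real.exp (B * l)) →
      (∀ z : ℂ, B * l / L ≤ z.re → z.re ≤ 7 → |z.im - (a + b) / 2| ≤ 7 →
        Real.exp (-(B * l)) ≤ ‖E z‖) →
      (∀ z : ℂ, 1 / 2 < z.re → f z ≠ 0) → Good f a b L ε := by
  obtain ⟨C, hC, hlan⟩ := hLAN
  set e : ℝ := min (ε / 20) (1 / 20) with he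
  have he0 : 0 < e := by rw [he]; positivity
  have he1 : e ≤ 1 / 20 := min_le_right _ _
  have heε : 20 * e ≤ ε := by
    have : e ≤ ε / 20 := min_le_left _ _
    linarith
  set κ : ℝ := 1 / (24 * C + 1) with hκ
  have hκ0 : 0 < κ := by rw [hκ]; positivity
  have hκ1 : κ ≤ 1 := by
    rw [hκ, div_le_one (by positivity)]
    linarith
  have hκC : 24 * C * κ ≤ 1 := by
    rw [hκ, mul_one_div, div_le_one (by positivity)]
    linarith
  refine ⟨1 + 8 * B + 3 * B / e + 2 * B / (κ * e ^ 2) + 48 * (2 * B + 1) / (κ * e ^ 3), by positivity,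
    fun f G E w L l a b hf hE hw hfe hconj hG hl hab hab1 hA hGb hEu hEl hz => ?_⟩
  set A : ℝ := 1 + 8 * B + 3 * B / e + 2 * B / (κ * e ^ 2) + 48 * (2 * B + 1) / (κ * e ^ 3) with hAdef
  have hA1 : 1 + 8 * B ≤ A := by
    have : 0 ≤ 3 * B / e + 2 * B / (κ * e ^ 2) + 48 * (2 * B + 1) / (κ * e ^ 3) := by positivity
    rw [hAdef]; linarith
  have hA2 : 3 * B ≤ A * e := by
    have h1 : 3 * B / e ≤ A := by
      have : 0 ≤ 1 + 8 * B + 2 * B / (κ * e ^ 2) + 48 * (2 * B + 1) / (κ * e ^ 3) := by positivity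
      rw [hAdef]; linarith
    rwa [div_le_iff₀ he0] at h1
  have hA3 : 2 * B ≤ A * (κ * e ^ 2) := by
    have h1 : 2 * B / (κ * e ^ 2) ≤ A := by
      have : 0 ≤ 1 + 8 * B + 3 * B / e + 48 * (2 * B + 1) / (κ * e ^ 3) := by positivity
      rw [hAdef]; linarith
    rwa [div_le_iff₀ (by positivity)] at h1
  have hA4 : 48 * (2 * B + 1) ≤ A * (κ * e ^ 3) := by
    have h1 : 48 * (2 * B + 1) / (κ * e ^ 3) ≤ A := by
      have : 0 ≤ 1 + 8 * B + 3 * B / e + 2 * B / (κ * e ^ 2) := by positivity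
      rw [hAdef]; linarith
    rwa [div_le_iff₀ (by positivity)] at h1
  clear_value A
  have hA0 : 0 < A := by linarith
  set t0 : ℝ := (a + b) / 2 with ht0
  set D : ℝ := b - a with hD
  have hD0 : 0 < D := by rw [hD]; linarith
  have hD1 : D ≤ 1 := by rw [hD]; linarith
  have hl0 : 0 < l := by linarith
  have hL0 : 0 < L := by
    by_contra h
    push Not at h
    have h1 : 0 < A * l := by positivity
    have h2 : D * L ≤ 0 := mul_nonpos_of_nonneg_of_nonpos hD0.le h
    linarith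
  have hAL : A * l ≤ L := by nlinarith
  -- the parameters
  set W : ℝ := κ * e * D with hW
  set y : ℝ := e * W with hy
  have hW0 : 0 < W := by rw [hW]; positivity
  have hy0 : 0 < y := by rw [hy]; positivity
  have hWe : W ≤ e * D := by
    rw [hW]
    have : 0 < e * D := by positivity
    nlinarith
  have hW20 : W ≤ 1 / 20 := by nlinarith
  have hyW : y ≤ W := by rw [hy]; nlinarith
  have hδy : 2 * (B * l / L) ≤ y := by
    have h1 : 2 * B * l ≤ y * L := by
      calc 2 * B * l ≤ A * (κ * e ^ 2) * l := by gcongr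
        _ = (A * l) * (κ * e ^ 2) := by ring
        _ ≤ (D * L) * (κ * e ^ 2) := by gcongr
        _ = y * L := by rw [hy, hW]; ring
    have e1 : 2 * (B * l / L) = 2 * B * l / L := by ring
    rw [e1, div_le_iff₀ hL0]
    exact h1
  have hδ0 : 0 ≤ B * l / L := by positivity
  have hδ1 : B * l / L ≤ 1 / 40 := by linarith
  have hc're : (1 + t0 * I : ℂ).re = 1 := by simp
  have hc'im : (1 + t0 * I : ℂ).im = t0 := by simp
  have hww : ‖w‖ = 1 := by
    have h1 : f (1 + t0 * I) ≠ 0 := hz _ (by rw [hc're]; norm_num)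
    have h2 := hfe (-(1 + t0 * I))
    rw [neg_neg, hfe (1 + t0 * I), ← mul_assoc] at h2
    have h3 : (w * w - 1) * f (1 + t0 * I) = 0 := by rw [sub_mul, ← h2]; ring
    have h4 : w * w = 1 := by
      rcases mul_eq_zero.1 h3 with h | h
      · exact sub_eq_zero.1 h
      · exact absurd h h1
    have h5 : ‖w‖ * ‖w‖ = 1 := by rw [← norm_mul, h4, norm_one]
    nlinarith [norm_nonneg w]
  have hrefl : ∀ z : ℂ, ‖f (-conj z)‖ = ‖f z‖ := by
    intro z
    rw [hfe, hconj, norm_mul, hww, one_mul, Complex.norm_conj]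
  -- the size of `f` in the large disc, right half
  set K : ℝ := 6 * (L + B * l) + 2 * (B * l) with hK
  have hK0 : 0 ≤ K := by rw [hK]; positivity
  have hEc : Real.exp (-(B * l)) ≤ ‖E (1 + t0 * I)‖ :=
    hEl _ (by rw [hc're]; linarith) (by rw [hc're]; norm_num) (by rw [hc'im, sub_self]; norm_num)
  have hright : ∀ z ∈ closedBall (1 + t0 * I : ℂ) 6, 0 ≤ z.re →
      ‖f z‖ ≤ Real.exp K * ‖f (1 + t0 * I)‖ := by
    intro z hzb hzre
    have hzn : ‖z - (1 + t0 * I)‖ ≤ 6 := by rwa [mem_closedBall, dist_eq_norm] at hzb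
    have hre := (Complex.abs_re_le_norm (z - (1 + t0 * I))).trans hzn
    have him := (Complex.abs_im_le_norm (z - (1 + t0 * I))).trans hzn
    rw [Complex.sub_re, hc're] at hre
    rw [Complex.sub_im, hc'im] at him
    obtain ⟨hre1, hre2⟩ := abs_le.1 hre
    have hseg : ∀ τ : ℝ, τ ∈ Set.Icc (0 : ℝ) 1 →
        0 ≤ ((1 + t0 * I) + τ * (z - (1 + t0 * I)) : ℂ).re ∧
        ((1 + t0 * I) + τ * (z - (1 + t0 * I)) : ℂ).re ≤ 7 ∧
        |((1 + t0 * I) + τ * (z - (1 + t0 * I)) : ℂ).im - t0| ≤ 7 := by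
      intro τ ⟨hτ0, hτ1⟩
      have e1 : ((1 + t0 * I) + τ * (z - (1 + t0 * I)) : ℂ).re = 1 + τ * (z.re - 1) := by
        simp
      have e2 : ((1 + t0 * I) + τ * (z - (1 + t0 * I)) : ℂ).im - t0 = τ * (z.im - t0) := by
        simp
      rw [e1, e2, abs_mul, abs_of_nonneg hτ0]
      refine ⟨by nlinarith, by nlinarith, ?_⟩
      calc τ * |z.im - t0| ≤ 1 * 6 := by gcongr
        _ ≤ 7 := by norm_num
    have h1 : ‖G z‖ ≤ Real.exp ((L + B * l) * ‖z - (1 + t0 * I)‖) * ‖G (1 + t0 * I)‖ := by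
      refine ratio_le (by positivity) (fun τ hτ => ?_) (fun τ hτ => ?_)
      · exact (hG _ (hseg τ hτ).1).1.differentiableAt
      · obtain ⟨g1, g2, g3⟩ := hseg τ hτ
        refine ⟨(hG _ g1).2.1, ?_⟩
        have h2 := hGb _ g1 g2 g3
        have h3 : ‖(L : ℂ)‖ = L := by rw [Complex.norm_real, Real.norm_of_nonneg hL0.le]
        calc ‖logDeriv G ((1 + t0 * I) + τ * (z - (1 + t0 * I)))‖
            = ‖(logDeriv G ((1 + t0 * I) + τ * (z - (1 + t0 * I))) - L) + L‖ := by ring_nf
          _ ≤ _ := (norm_add_le _ _).trans (by rw [h3]; linarith)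
    have h2 := hEu z hzre (by linarith) (by linarith)
    have hG1 := (hG z hzre).2.2
    have hG2 := (hG (1 + t0 * I) (by rw [hc're]; norm_num)).2.2
    rw [hG1, hG2, norm_mul, norm_mul]
    calc ‖G z‖ * ‖E z‖ ≤ (Real.exp ((L + B * l) * 6) * ‖G (1 + t0 * I)‖) * Real.exp (B * l) := by
          refine mul_le_mul (h1.trans ?_) h2 (norm_nonneg _) (by positivity)
          gcongr
      _ = Real.exp K * (‖G (1 + t0 * I)‖ * Real.exp (-(B * l))) := by
          have : Real.exp K = Real.exp ((L + B * l) * 6) * Real.exp (B * l) * Real.exp (B * l) := by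
            rw [← Real.exp_add, ← Real.exp_add, hK]
            congr 1
            ring
          rw [this]
          have h3 : Real.exp (B * l) * Real.exp (-(B * l)) = 1 := by
            rw [← Real.exp_add, add_neg_cancel, Real.exp_zero]
          linear_combination -(Real.exp ((L + B * l) * 6) * ‖G (1 + t0 * I)‖ * Real.exp (B * l)) * h3
      _ ≤ _ := by gcongr
  have hball : ∀ z ∈ closedBall (1 + t0 * I : ℂ) 6, ‖f z‖ ≤ Real.exp K * ‖f (1 + t0 * I)‖ := by
    intro z hzb
    rcases le_or_gt 0 z.re with h | h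
    · exact hright z hzb h
    · rw [← hrefl z]
      refine hright _ ?_ (by simp; linarith)
      rw [mem_closedBall, dist_eq_norm] at hzb ⊢
      refine le_trans ?_ hzb
      have e1 : ‖-conj z - (1 + t0 * I)‖ ^ 2 = (z.re + 1) ^ 2 + (z.im - t0) ^ 2 := by
        rw [Complex.sq_norm, Complex.normSq_apply]
        simp
        ring
      have e2 : ‖z - (1 + t0 * I)‖ ^ 2 = (z.re - 1) ^ 2 + (z.im - t0) ^ 2 := by
        rw [Complex.sq_norm, Complex.normSq_apply]
        simp
        ring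
      have h3 : ‖-conj z - (1 + t0 * I)‖ ^ 2 ≤ ‖z - (1 + t0 * I)‖ ^ 2 := by
        rw [e1, e2]
        nlinarith
      exact (pow_le_pow_iff_left₀ (norm_nonneg _) (norm_nonneg _) (by norm_num)).1 h3
  have hfc : f (1 + t0 * I) ≠ 0 := hz _ (by rw [hc're]; norm_num)
  obtain ⟨s, hs1, hs2, -, hs3⟩ := hlan f w t0 K hf hK0 hw hfe hconj hfc hball
  -- zeros are near the line
  have hzim : ∀ ρ : ℂ, f ρ = 0 → |ρ.re| ≤ 1 / 2 := by
    intro ρ hρ
    rw [abs_le]
    constructor
    · by_contra h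
      push Not at h
      refine hz (-ρ) (by simp; linarith) ?_
      rw [hfe, hρ, mul_zero]
    · by_contra h
      push Not at h
      exact hz ρ h hρ
  have hzne : ∀ z : ℂ, B * l / L ≤ z.re → z.re ≤ 7 → |z.im - t0| ≤ 7 → f z ≠ 0 ∧ E z ≠ 0 := by
    intro z h1 h2 h3
    have h4 := hEl z h1 h2 h3
    have h5 : E z ≠ 0 := by
      intro h0
      rw [h0, norm_zero] at h4
      exact absurd (Real.exp_pos (-(B * l))) (not_lt.2 h4)
    have h6 := hG z (hδ0.trans h1)
    exact ⟨by rw [h6.2.2]; exact mul_ne_zero h6.2.1 h5, h5⟩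
  have hnear : ∀ ρ : ℂ, f ρ = 0 → |ρ.im - t0| ≤ 3 / 2 → |ρ.re| ≤ B * l / L := by
    intro ρ hρ hρ2
    have h7 := abs_le.1 (hzim ρ hρ)
    rw [abs_le]
    constructor
    · by_contra h
      push Not at h
      have h1 : f (-conj ρ) = 0 := by rw [hfe, hconj, hρ, map_zero, mul_zero]
      refine (hzne (-conj ρ) ?_ ?_ ?_).1 h1
      · simp; linarith
      · simp; linarith
      · simp only [Complex.neg_im, Complex.conj_im, neg_neg]
        linarith
    · by_contra h
      push Not at h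
      exact (hzne ρ h.le (by linarith) (by linarith)).1 hρ
  -- the Poisson sums
  have hQ : ∀ y' : ℝ, y ≤ y' → y' ≤ W → ∀ t : ℝ, |t - t0| ≤ 1 → |QS s y' t - L| ≤ e * L := by
    intro y' hy1 hy2 t ht
    have hy'0 : 0 < y' := hy0.trans_le hy1
    have hre : (y' + t * I : ℂ).re = y' := by simp
    have him : (y' + t * I : ℂ).im = t := by simp
    have hδy' : B * l / L ≤ y' / 2 := by linarith
    obtain ⟨hf0, hE0⟩ := hzne (y' + t * I) (by rw [hre]; linarith) (by rw [hre]; linarith)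
      (by rw [him]; linarith)
    have h1 := hs3 y' t hy'0 (by linarith) ht hf0
    have h2 : C * y' * (K + 1) ≤ e * L / 3 := by
      have h3 : K + 1 ≤ 8 * L := by
        rw [hK]
        have : (1 + 8 * B) * l ≤ L := by nlinarith
        nlinarith
      calc C * y' * (K + 1) ≤ C * (κ * e * D) * (8 * L) := by gcongr
        _ = (24 * C * κ) * (e * D * L) / 3 := by ring
        _ ≤ 1 * (e * 1 * L) / 3 := by gcongr
        _ = _ := by ring
    have h3 : logDeriv f (y' + t * I) = logDeriv G (y' + t * I) + logDeriv E (y' + t * I) := by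
      have hmem : {z : ℂ | 0 < z.re} ∈ nhds (y' + t * I : ℂ) :=
        (isOpen_lt continuous_const Complex.continuous_re).mem_nhds (by
          show 0 < (y' + t * I : ℂ).re
          rw [hre]; exact hy'0)
      have h4 : f =ᶠ[nhds (y' + t * I : ℂ)] fun z => G z * E z := by
        filter_upwards [hmem] with z hz'
        exact (hG z (le_of_lt hz')).2.2
      have h5 := hG (y' + t * I) (by rw [hre]; exact hy'0.le)
      rw [logDeriv_apply, h4.deriv_eq, h4.eq_of_nhds, ← logDeriv_apply]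
      exact logDeriv_mul (f := G) (g := E) _ h5.2.1 hE0 h5.1.differentiableAt (hE _)
    have h4 : ‖logDeriv E (y' + t * I)‖ ≤ e * L / 3 := by
      have h5 := logDeriv_le hE (c := y' + t * I) (y := y') (K := B * l) hy'0 (by positivity)
        (fun z hz' => by
          rw [mem_closedBall, dist_eq_norm] at hz'
          have g1 := abs_le.1 ((Complex.abs_re_le_norm _).trans hz')
          have g2 := (Complex.abs_im_le_norm _).trans hz'
          rw [Complex.sub_re, hre] at g1
          rw [Complex.sub_im, him] at g2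
          refine hEl z (by linarith) (by linarith) ?_
          calc |z.im - t0| = |(z.im - t) + (t - t0)| := by ring_nf
            _ ≤ |z.im - t| + |t - t0| := abs_add_le _ _
            _ ≤ 7 := by linarith)
        (fun z hz' => by
          rw [mem_closedBall, dist_eq_norm] at hz'
          have g1 := abs_le.1 ((Complex.abs_re_le_norm _).trans hz')
          have g2 := (Complex.abs_im_le_norm _).trans hz'
          rw [Complex.sub_re, hre] at g1
          rw [Complex.sub_im, him] at g2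
          refine hEu z (by linarith) (by linarith) ?_
          calc |z.im - t0| = |(z.im - t) + (t - t0)| := by ring_nf
            _ ≤ |z.im - t| + |t - t0| := abs_add_le _ _
            _ ≤ 7 := by linarith)
      refine h5.trans ?_
      rw [div_le_iff₀ hy'0]
      have h6 : 16 * (2 * (B * l) + 1) ≤ 16 * (2 * B + 1) * l := by nlinarith
      have h7 : 48 * (2 * B + 1) * l ≤ (κ * e ^ 3) * (D * L) := by
        calc 48 * (2 * B + 1) * l ≤ A * (κ * e ^ 3) * l := by gcongr
          _ = (κ * e ^ 3) * (A * l) := by ring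
          _ ≤ _ := by gcongr
      calc 16 * (2 * (B * l) + 1) ≤ 16 * (2 * B + 1) * l := h6
        _ ≤ (κ * e ^ 3) * (D * L) / 3 := by linarith
        _ = e * L / 3 * y := by rw [hy, hW]; ring
        _ ≤ e * L / 3 * y' := by gcongr
    have h5 : ‖logDeriv G (y' + t * I) - L‖ ≤ e * L / 3 := by
      have h6 := hGb (y' + t * I) (by rw [hre]; exact hy'0.le) (by rw [hre]; linarith)
        (by rw [him]; linarith)
      refine h6.trans ?_
      have h7 : 3 * B * l ≤ e * L := by
        calc 3 * B * l ≤ A * e * l := by gcongr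
          _ = e * (A * l) := by ring
          _ ≤ _ := by gcongr
      linarith
    have h6 : |(logDeriv f (y' + t * I)).re - L| ≤ e * L / 3 + e * L / 3 := by
      have h7 : (logDeriv f (y' + t * I)).re - L =
          ((logDeriv G (y' + t * I) - L) + logDeriv E (y' + t * I)).re := by
        rw [h3]; simp; ring
      rw [h7]
      exact (Complex.abs_re_le_norm _).trans ((norm_add_le _ _).trans (by linarith))
    calc |QS s y' t - L| = |-((logDeriv f (y' + t * I)).re - QS s y' t) +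
          ((logDeriv f (y' + t * I)).re - L)| := by ring_nf
      _ ≤ |(logDeriv f (y' + t * I)).re - QS s y' t| + |(logDeriv f (y' + t * I)).re - L| := by
          refine (abs_add_le _ _).trans ?_
          rw [abs_neg]
      _ ≤ e * L / 3 + (e * L / 3 + e * L / 3) := add_le_add (h1.trans h2) h6
      _ = e * L := by ring
  have hcnt := hCNT s a b L e (B * l / L) y W hL0 he0 he1 hab hab1 hδ0 hδy hy0 le_rfl hWe
    (fun ρ hρ => hzim ρ (hs1 ρ hρ).2) (fun ρ hρ hρ2 => hnear ρ (hs1 ρ hρ).2 hρ2)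
    (fun t ht => ⟨hQ y le_rfl hyW t ht, hQ W hyW le_rfl t ht⟩)
  refine ⟨s.filter fun ρ => a ≤ ρ.im ∧ ρ.im ≤ b, fun ρ => ?_, hcnt.trans ?_, fun ρ hρ => ?_⟩
  · rw [Multiset.count_filter]
    split_ifs with h
    · by_cases hb : ρ ∈ closedBall (1 + t0 * I : ℂ) 3
      · exact hs2 ρ hb
      · have h1 : s.count ρ = 0 := Multiset.count_eq_zero.2 fun hm => hb (hs1 ρ hm).1
        rw [h1, Nat.cast_zero]
        symm
        rw [(hf.analyticAt ρ).analyticOrderAt_eq_zero]
        intro h0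
        apply hb
        have h2 := abs_le.1 (hzim ρ h0)
        have h3 : |ρ.im - t0| ≤ 1 / 2 := by
          rw [abs_le, ht0]
          constructor <;> linarith [h.1, h.2]
        rw [mem_closedBall, dist_eq_norm]
        have h4 : ‖ρ - (1 + t0 * I)‖ ≤ |(ρ - (1 + t0 * I)).re| + |(ρ - (1 + t0 * I)).im| :=
          Complex.norm_le_abs_re_add_abs_im _
        rw [Complex.sub_re, hc're, Complex.sub_im, hc'im] at h4
        have h5 : |ρ.re - 1| ≤ 3 / 2 := by
          rw [abs_le]
          constructor <;> linarith [h2.1, h2.2]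
        linarith
    · simp
  · have : 0 ≤ D * L := by positivity
    gcongr
  · obtain ⟨h1, h2⟩ := Multiset.mem_filter.1 hρ
    refine (hnear ρ (hs1 ρ h1).2 ?_).trans hδ1
    rw [abs_le, ht0]
    constructor <;> linarith [h2.1, h2.2]

end

end Pool.Agent.N351.EV
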