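import Mathlib

set_option autoImplicit false

/-! Project EV (helper351): equidistribution of the zeros of almost all twists near the critical line.
Statements of the two complex-analytic parts. -/

namespace Pool.Agent.N351.EV

open Complex MeasureTheory Metric

noncomputable section

/-- half the sum of the Poisson kernels `Re 1/(y + i t - ρ)` and `Re 1/(y + i t + conj ρ)` -/
def Qk (y : ℝ) (ρ : ℂ) (t : ℝ) : ℝ :=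
  ((y - ρ.re) / ((y - ρ.re) ^ 2 + (t - ρ.im) ^ 2) +
    (y + ρ.re) / ((y + ρ.re) ^ 2 + (t - ρ.im) ^ 2)) / 2

/-- `∑_{ρ ∈ s} Qk y ρ t` -/
def QS (s : Multiset ℂ) (y t : ℝ) : ℝ := (s.map fun ρ => Qk y ρ t).sum

/-- LAN: Landau's formula, symmetrised by the functional equation -/
def S_LAN : Prop := ∃ C : ℝ, 0 < C ∧ ∀ (f : ℂ → ℂ) (w : ℂ) (t0 B : ℝ), Differentiable ℂ f → 0 ≤ B →
  w ≠ 0 → (∀ s, f (-s) = w * f s) → (∀ s, f ((starRingEnd ℂ) s) = (starRingEnd ℂ) (f s)) →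
  f (1 + t0 * I) ≠ 0 →
  (∀ z ∈ closedBall (1 + t0 * I : ℂ) 6, ‖f z‖ ≤ Real.exp B * ‖f (1 + t0 * I)‖) →
  ∃ s : Multiset ℂ, (∀ ρ ∈ s, ρ ∈ closedBall (1 + t0 * I : ℂ) 3 ∧ f ρ = 0) ∧
    (∀ ρ ∈ closedBall (1 + t0 * I : ℂ) 3, (s.count ρ : ℕ∞) = analyticOrderAt f ρ) ∧
    (Multiset.card s : ℝ) ≤ C * (B + 1) ∧
    ∀ y t : ℝ, 0 < y → y ≤ 1 / 4 → |t - t0| ≤ 1 → f (y + t * I) ≠ 0 →
      |(logDeriv f (y + t * I)).re - QS s y t| ≤ C * y * (B + 1)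

/-- CNT: counting the points of a multiset by means of the Poisson sums at two heights `y < W` -/
def S_CNT : Prop := ∀ (s : Multiset ℂ) (a b L ε δ y W : ℝ), 0 < L → 0 < ε → ε ≤ 1 / 20 →
  a < b → b ≤ a + 1 → 0 ≤ δ → 2 * δ ≤ y → 0 < y → y ≤ ε * W → W ≤ ε * (b - a) →
  (∀ ρ ∈ s, |ρ.re| ≤ 1 / 2) → (∀ ρ ∈ s, |ρ.im - (a + b) / 2| ≤ 3 / 2 → |ρ.re| ≤ δ) →
  (∀ t : ℝ, |t - (a + b) / 2| ≤ 1 → |QS s y t - L| ≤ ε * L ∧ |QS s W t - L| ≤ ε * L) →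
  |Real.pi * (Multiset.card (s.filter fun ρ => a ≤ ρ.im ∧ ρ.im ≤ b) : ℝ) - (b - a) * L| ≤
    20 * ε * ((b - a) * L)

end

end Pool.Agent.N351.EV
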