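import Pool.Agent.Y19.QT.ZD
import Pool.Agent.Y19.QT.Lin

set_option autoImplicit false

/-! Project EV (helper351): bounds at every point, for almost all twists. -/

namespace Pool.Agent.N351.EV

open Complex MeasureTheory Filter Topology
open Pool.Agent.Y19.QT
open Pool.Agent.Y474.QTZ6 (YY Box mem_Box Box_compact Box_vol ff ff_diff)

noncomputable section

/-- points with large values, counted by an area mean value -/
theorem area_count (S : Finset ℤ) (G : ℤ → ℂ → ℂ) (σ₁ σ₂ U r κ R : ℝ) (hr : 0 < r) (hr8 : r ≤ 1 / 8)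
    (hU : 0 ≤ U) (hR0 : 0 ≤ R) (hσ₁ : 1 / 2 ≤ σ₁) (hσ₂ : σ₂ ≤ 2)
    (hG : ∀ d ∈ S, DifferentiableOn ℂ (G d) {s : ℂ | 1 / 4 < s.re})
    (h : ∀ d ∈ S, ∃ s : ℂ, σ₁ + r ≤ s.re ∧ s.re + r ≤ σ₂ ∧ |s.im| ≤ U ∧ κ ≤ ‖G d s‖)
    (hR : ∀ s : ℂ, σ₁ ≤ s.re → s.re ≤ σ₂ → |s.im| ≤ U + 1 → ∑ d ∈ S, ‖G d s‖ ≤ R) :
    (S.card : ℝ) * (κ * r ^ 2) ≤ R * (U + 3) ^ 2 := by
  set D : Set ℂ := Box σ₁ σ₂ (U + 1) with hD
  have hDc : IsCompact D := Box_compact _ _ _
  have hDsub : D ⊆ {s : ℂ | 1 / 4 < s.re} := by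
    intro s hs
    rw [hD, mem_Box] at hs
    show 1 / 4 < s.re
    linarith [hs.1.1]
  have hint : ∀ d ∈ S, IntegrableOn (fun s => ‖G d s‖) D := fun d hd =>
    ContinuousOn.integrableOn_compact hDc (((hG d hd).continuousOn.mono hDsub).norm)
  have key : ∀ d ∈ S, Real.pi * r ^ 2 * κ ≤ ∫ s in D, ‖G d s‖ := by
    intro d hd
    obtain ⟨ρ, h1, h2, h3, h4⟩ := h d hd
    have hball : Metric.ball ρ r ⊆ D := by
      intro s hs
      rw [mem_ball_iff_norm] at hs
      have h4 := abs_le.1 ((Complex.abs_re_le_norm (s - ρ)).trans hs.le)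
      have h5 := abs_le.1 ((Complex.abs_im_le_norm (s - ρ)).trans hs.le)
      rw [Complex.sub_re] at h4
      rw [Complex.sub_im] at h5
      rw [hD, mem_Box]
      have h6 := abs_le.1 h3
      refine ⟨⟨by linarith, by linarith⟩, abs_le.2 ⟨by linarith, by linarith⟩⟩
    have h5 := Pool.Agent.Y203.QTZ6a.Z6a (G d) ρ r hr ((hG d hd).mono (by
      intro s hs
      rw [mem_ball_iff_norm] at hs
      have h4 := abs_le.1 ((Complex.abs_re_le_norm (s - ρ)).trans hs.le)
      rw [Complex.sub_re] at h4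
      show 1 / 4 < s.re
      linarith))
    calc Real.pi * r ^ 2 * κ ≤ Real.pi * r ^ 2 * ‖G d ρ‖ := by gcongr
      _ ≤ ∫ s in Metric.ball ρ r, ‖G d s‖ := h5
      _ ≤ ∫ s in D, ‖G d s‖ := setIntegral_mono_set (hint d hd)
          (Eventually.of_forall fun s => norm_nonneg _) (Eventually.of_forall hball)
  have hsum : ∑ d ∈ S, ∫ s in D, ‖G d s‖ ≤ R * (Real.pi * (U + 1 + 2) ^ 2) := by
    rw [← integral_finsetSum _ hint]
    have h1 : ‖∫ s in D, ∑ d ∈ S, ‖G d s‖‖ ≤ R * volume.real D := by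
      apply norm_setIntegral_le_of_norm_le_const hDc.measure_lt_top
      intro s hs
      rw [hD, mem_Box] at hs
      rw [Real.norm_of_nonneg (Finset.sum_nonneg fun _ _ => norm_nonneg _)]
      exact hR s hs.1.1 hs.1.2 hs.2
    refine (le_abs_self _).trans (h1.trans ?_)
    apply mul_le_mul_of_nonneg_left _ hR0
    exact Box_vol (by linarith) (by linarith) (by linarith)
  have h6 : (S.card : ℝ) * (Real.pi * r ^ 2 * κ) ≤ R * (Real.pi * (U + 1 + 2) ^ 2) := by
    calc (S.card : ℝ) * (Real.pi * r ^ 2 * κ) = ∑ _d ∈ S, Real.pi * r ^ 2 * κ := by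
          rw [Finset.sum_const, nsmul_eq_mul]
      _ ≤ _ := (Finset.sum_le_sum key).trans hsum
  have hpi := Real.pi_pos
  refine le_of_mul_le_mul_left ?_ hpi
  calc Real.pi * ((S.card : ℝ) * (κ * r ^ 2)) = (S.card : ℝ) * (Real.pi * r ^ 2 * κ) := by ring
    _ ≤ _ := h6
    _ = _ := by ring

/-- from windows to all heights -/
theorem windows (S : Finset ℤ) (C : ℝ) (n : ℤ → ℕ)
    (h : ∀ m : ℕ, ((S.filter fun d => n d = m).card : ℝ) ≤ C * (1 / ((m : ℝ) + 1) ^ 2)) :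
    (S.card : ℝ) ≤ C * ∑' m : ℕ, 1 / ((m : ℝ) + 1) ^ 2 := by
  have hC : 0 ≤ C := by
    have := h 0
    have h1 : (0 : ℝ) ≤ ((S.filter fun d => n d = 0).card : ℝ) := Nat.cast_nonneg _
    norm_num at this
    linarith
  have hsum : Summable fun n : ℕ => 1 / ((n : ℝ) + 1) ^ 2 := by
    have h := (summable_nat_add_iff (f := fun n : ℕ => 1 / (n : ℝ) ^ 2) 1).2
      (Real.summable_one_div_nat_pow.2 (by norm_num))
    simpa using h
  have h1 : S.card = ∑ m ∈ S.image n, (S.filter fun d => n d = m).card :=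
    Finset.card_eq_sum_card_image n S
  rw [h1]
  push_cast
  calc ∑ m ∈ S.image n, ((S.filter fun d => n d = m).card : ℝ)
      ≤ ∑ m ∈ S.image n, C * (1 / ((m : ℝ) + 1) ^ 2) := Finset.sum_le_sum fun m _ => h m
    _ = C * ∑ m ∈ S.image n, 1 / ((m : ℝ) + 1) ^ 2 := by rw [Finset.mul_sum]
    _ ≤ _ := by
        refine mul_le_mul_of_nonneg_left ?_ hC
        exact hsum.sum_le_tsum _ fun m _ => by positivity

variable {Q : ℕ} {lam : ℕ → ℝ}

theorem ff_window (T : Twists Q lam) : ∃ (C : ℝ) (A B : ℕ), 0 < C ∧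
    ∀ (X : ℕ) (S : Finset ℤ) (δ r : ℝ) (m W : ℕ), 3 ≤ X → S ⊆ sqf X → 1 / Real.log X ≤ δ →
      δ ≤ 1 / 8 → 1 / (16 * Real.log X) ≤ r → r ≤ 1 / 8 →
      (Real.log X * ((m : ℝ) + 2)) ^ (W + A + B + 4) ≤ (X : ℝ) ^ (δ / 4) →
      (∀ d ∈ S, ∃ s : ℂ, 1 / 2 + 3 * δ + r ≤ s.re ∧ s.re + r ≤ 1 + δ ∧ |s.im| ≤ (m : ℝ) + 1 ∧
        1 / 2 ≤ ‖ff T (YY X) d s‖) →
      (S.card : ℝ) ≤ C * X / Real.log X ^ W * (1 / ((m : ℝ) + 1) ^ 2) := by
  obtain ⟨Cm, Am, B, hCm, hmean⟩ := Pool.Agent.Y474.QTHZ6.mean_boxH T (Pool.Agent.Y369.QTZ1.Z1 T)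
    (Pool.Agent.Y203.QTZ2.Z2 Q lam T.hecke) (HZ3 T)
  refine ⟨2048 * Cm, Am, B, by positivity, ?_⟩
  intro X S δ r m W hX hS hδ1 hδ2 hr1 hr2 hV hs
  have hL1 : 1 ≤ Real.log X := Pool.Agent.Y474.QTZ6.one_le_log hX
  set L := Real.log X with hLdef
  have hL0 : 0 < L := by linarith
  have hX0 : (0 : ℝ) < X := by exact_mod_cast (by omega : 0 < X)
  have hr0 : 0 < r := lt_of_lt_of_le (by positivity) hr1
  have hm0 : (0 : ℝ) ≤ m := Nat.cast_nonneg m
  set v : ℝ := (m : ℝ) + 2 with hv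
  have hv1 : 1 ≤ v := by linarith
  have hv0 : 0 < v := by linarith
  set R : ℝ := Cm * (1 + ((m : ℝ) + 1)) ^ B * (X : ℝ) ^ (1 - δ / 4) * L ^ Am with hR
  have hR0 : 0 ≤ R := by positivity
  have h1 := area_count S (fun d s => ff T (YY X) d s) (1 / 2 + 3 * δ) (1 + δ) ((m : ℝ) + 1) r (1 / 2) R
    hr0 hr2 (by positivity) hR0 (by have : 0 < δ := lt_of_lt_of_le (by positivity) hδ1
                                    linarith) (by linarith)
    (fun d hd => ff_diff T (YY X) (mem_sqf.1 (hS hd)).2) hs (by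
      intro s h1 h2 h3
      refine (Finset.sum_le_sum_of_subset_of_nonneg hS fun _ _ _ => norm_nonneg _).trans ?_
      exact hmean X δ ((m : ℝ) + 1) s hX hδ1 hδ2 (by positivity) h1 h2 h3)
  have hr2' : 1 / (256 * L ^ 2) ≤ r ^ 2 := by
    have h2 : (1 / (16 * L)) ^ 2 ≤ r ^ 2 := pow_le_pow_left₀ (by positivity) hr1 2
    refine le_trans (le_of_eq ?_) h2
    field_simp
    norm_num
  have h2 : (S.card : ℝ) ≤ 512 * L ^ 2 * (R * ((m : ℝ) + 1 + 3) ^ 2) := by
    have h3 : (S.card : ℝ) * (1 / 2 * (1 / (256 * L ^ 2))) ≤ R * ((m : ℝ) + 1 + 3) ^ 2 :=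
      le_trans (by gcongr) h1
    have h4 : (S.card : ℝ) * (1 / 2 * (1 / (256 * L ^ 2))) = (S.card : ℝ) / (512 * L ^ 2) := by
      field_simp
      ring
    rw [h4, div_le_iff₀ (by positivity)] at h3
    linarith
  have hXp : (X : ℝ) ^ (1 - δ / 4) = X / (X : ℝ) ^ (δ / 4) := by
    rw [Real.rpow_sub hX0, Real.rpow_one]
  have h3 : (m : ℝ) + 1 + 3 ≤ 2 * v := by rw [hv]; linarith
  have h4 : (1 + ((m : ℝ) + 1)) = v := by rw [hv]; ring
  have h5 : X / (X : ℝ) ^ (δ / 4) ≤ X / (L * v) ^ (W + Am + B + 4) :=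
    div_le_div_of_nonneg_left hX0.le (by positivity) hV
  calc (S.card : ℝ) ≤ 512 * L ^ 2 * (R * ((m : ℝ) + 1 + 3) ^ 2) := h2
    _ ≤ 512 * L ^ 2 * ((Cm * v ^ B * (X / (L * v) ^ (W + Am + B + 4)) * L ^ Am) * (2 * v) ^ 2) := by
        rw [hR, h4, hXp]
        gcongr
    _ = 2048 * Cm * X * ((L ^ (Am + 2) * v ^ (B + 2)) / (L * v) ^ (W + Am + B + 4)) := by
        rw [pow_add L, pow_add v]; ring
    _ ≤ 2048 * Cm * X * (1 / (L ^ W * v ^ 2)) := by
        refine mul_le_mul_of_nonneg_left ?_ (by positivity)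
        rw [div_le_div_iff₀ (by positivity) (by positivity), one_mul, mul_pow]
        calc L ^ (Am + 2) * v ^ (B + 2) * (L ^ W * v ^ 2) = L ^ (W + Am + 2) * v ^ (B + 4) := by ring
          _ ≤ L ^ (W + Am + B + 4) * v ^ (W + Am + B + 4) := by
              refine mul_le_mul (pow_le_pow_right₀ hL1 (by omega)) (pow_le_pow_right₀ hv1 (by omega))
                (by positivity) (by positivity)
    _ ≤ 2048 * Cm * X * (1 / (L ^ W * ((m : ℝ) + 1) ^ 2)) := by
        have : (m : ℝ) + 1 ≤ v := by rw [hv]; linarith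
        gcongr
    _ = _ := by field_simp

theorem ff_small (T : Twists Q lam) (W : ℕ) : ∃ C K : ℝ, 0 < C ∧ 0 < K ∧
    ∀ (X : ℕ) (S : Finset ℤ), 3 ≤ X → S ⊆ sqf X →
      (∀ d ∈ S, ∃ s : ℂ, 1 / 2 + K * ((Real.log (Real.log X) + Real.log (2 + |s.im|)) / Real.log X) ≤
        s.re ∧ s.re ≤ 17 / 16 ∧ 1 / 2 ≤ ‖ff T (YY X) d s‖) →
      (S.card : ℝ) ≤ C * X / Real.log X ^ W := by
  classical
  obtain ⟨C, A, B, hC, hwin⟩ := ff_window T
  set E : ℕ := W + A + B + 4 with hE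
  set Z : ℝ := ∑' m : ℕ, 1 / ((m : ℝ) + 1) ^ 2 with hZ
  have hZ0 : 0 ≤ Z := tsum_nonneg fun n => by positivity
  refine ⟨2 * C * Z + 1, 18 * E, by positivity, by positivity, fun X S hX hS hs => ?_⟩
  have hL1 : 1 ≤ Real.log X := Pool.Agent.Y474.QTZ6.one_le_log hX
  have hX0 : (0 : ℝ) < X := by exact_mod_cast (by omega : 0 < X)
  set L := Real.log X with hLdef
  have hL0 : 0 < L := by linarith
  have hE4 : (4 : ℝ) ≤ E := by
    have : 4 ≤ E := by omega
    exact_mod_cast this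
  choose! p hp1 hp2 hp3 using hs
  -- one window
  have hone : ∀ m : ℕ, ((S.filter fun d => ⌊|(p d).im|⌋₊ = m).card : ℝ) ≤
      (2 * C * X / L ^ W) * (1 / ((m : ℝ) + 1) ^ 2) := by
    intro m
    set Sm := S.filter fun d => ⌊|(p d).im|⌋₊ = m with hSm
    have hm0 : (0 : ℝ) ≤ m := Nat.cast_nonneg m
    set v : ℝ := (m : ℝ) + 2 with hv
    set g : ℝ := Real.log L + Real.log v with hg
    have hlogL : 0 ≤ Real.log L := Real.log_nonneg hL1
    have hl2 : (0.69 : ℝ) ≤ Real.log 2 := by have := Real.log_two_gt_d9; linarith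
    have hlv : 0.69 ≤ Real.log v := hl2.trans (Real.log_le_log (by norm_num) (by linarith))
    have hg0 : 0.69 ≤ g := by linarith
    have hVexp : ∀ j : ℕ, (L * v) ^ j = Real.exp (j * g) := by
      intro j
      rw [hg, ← Real.log_mul hL0.ne' (by positivity), Real.exp_nat_mul,
        Real.exp_log (by positivity)]
    have hXexp : ∀ x : ℝ, (X : ℝ) ^ x = Real.exp (L * x) := fun x => by
      rw [Real.rpow_def_of_pos hX0]
    have hin : ∀ d ∈ Sm, d ∈ S ∧ (m : ℝ) ≤ |(p d).im| ∧ |(p d).im| ≤ m + 1 := by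
      intro d hd
      rw [hSm, Finset.mem_filter] at hd
      obtain ⟨h1, h2⟩ := hd
      refine ⟨h1, ?_, ?_⟩
      · rw [← h2]; exact Nat.floor_le (abs_nonneg _)
      · rw [← h2]; exact (Nat.lt_floor_add_one _).le
    have hre : ∀ d ∈ Sm, 1 / 2 + 18 * E * (g / L) ≤ (p d).re := by
      intro d hd
      obtain ⟨h1, h2, h3⟩ := hin d hd
      refine le_trans ?_ (hp1 d h1)
      have : Real.log v ≤ Real.log (2 + |(p d).im|) := Real.log_le_log (by positivity) (by linarith)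
      have h5 : g ≤ Real.log L + Real.log (2 + |(p d).im|) := by rw [hg]; linarith
      gcongr
    rcases Sm.eq_empty_or_nonempty with h0 | ⟨d0, hd0⟩
    · rw [h0, Finset.card_empty, Nat.cast_zero]
      positivity
    have hη : 18 * E * (g / L) ≤ 9 / 16 := by
      have := hre d0 hd0
      have := hp2 d0 (hin d0 hd0).1
      linarith
    have hη' : 18 * E * g ≤ 9 / 16 * L := by
      have h1 : 18 * E * (g / L) = 18 * E * g / L := by ring
      rwa [h1, div_le_iff₀ hL0] at hη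
    have hL16 : 16 ≤ L := by nlinarith
    have ha : ((Sm.filter fun d => (p d).re ≤ 1).card : ℝ) ≤
        C * X / L ^ W * (1 / ((m : ℝ) + 1) ^ 2) := by
      rcases (Sm.filter fun d => (p d).re ≤ 1).eq_empty_or_nonempty with h1 | ⟨d1, hd1⟩
      · rw [h1, Finset.card_empty, Nat.cast_zero]
        positivity
      have hd1' := Finset.mem_filter.1 hd1
      have hη2 : 18 * E * (g / L) ≤ 1 / 2 := by linarith [hre d1 hd1'.1]
      set δ : ℝ := 18 * E * (g / L) / 4 with hδ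
      have hδL : 1 / L ≤ δ := by
        rw [div_le_iff₀ hL0, hδ]
        have e1 : 18 * E * (g / L) / 4 * L = 18 * E * g / 4 := by field_simp
        rw [e1]
        nlinarith
      have hδ0 : 0 < δ := lt_of_lt_of_le (by positivity) hδL
      refine hwin X _ δ δ m W hX ((Finset.filter_subset _ _).trans ((Finset.filter_subset _ _).trans
        hS)) hδL (by linarith) (le_trans ?_ hδL) (by linarith) ?_ ?_
      · rw [one_div_le_one_div (by positivity) hL0]
        linarith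
      · rw [← hLdef, ← hv, hVexp, hXexp, Real.exp_le_exp, ← hE]
        have e1 : L * (δ / 4) = 18 / 16 * (E * g) := by
          rw [hδ]
          field_simp
          ring
        rw [e1]
        nlinarith
      · intro d hd
        have hd' := Finset.mem_filter.1 hd
        obtain ⟨h1, h2, h3⟩ := hin d hd'.1
        have := hre d hd'.1
        exact ⟨p d, by linarith, by linarith [hd'.2], h3, hp3 d h1⟩
    have hb : ((Sm.filter fun d => ¬ (p d).re ≤ 1).card : ℝ) ≤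
        C * X / L ^ W * (1 / ((m : ℝ) + 1) ^ 2) := by
      refine hwin X _ (1 / 8) (1 / 16) m W hX ((Finset.filter_subset _ _).trans
        ((Finset.filter_subset _ _).trans hS)) ?_ le_rfl ?_ (by norm_num) ?_ ?_
      · rw [div_le_div_iff₀ hL0 (by norm_num)]
        linarith
      · rw [div_le_div_iff₀ (by positivity) (by norm_num)]
        linarith
      · rw [← hLdef, ← hv, hVexp, hXexp, Real.exp_le_exp, ← hE]
        nlinarith
      · intro d hd
        have hd' := Finset.mem_filter.1 hd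
        obtain ⟨h1, h2, h3⟩ := hin d hd'.1
        have h4 := hp2 d h1
        have h5 : 1 < (p d).re := not_le.1 hd'.2
        exact ⟨p d, by linarith, by linarith, h3, hp3 d h1⟩
    have hsplit : (Sm.card : ℝ) = ((Sm.filter fun d => (p d).re ≤ 1).card : ℝ) +
        ((Sm.filter fun d => ¬ (p d).re ≤ 1).card : ℝ) := by
      rw [← Nat.cast_add, Finset.card_filter_add_card_filter_not]
    rw [hsplit]
    calc _ ≤ C * X / L ^ W * (1 / ((m : ℝ) + 1) ^ 2) + C * X / L ^ W * (1 / ((m : ℝ) + 1) ^ 2) :=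
          add_le_add ha hb
      _ = _ := by ring
  have h := windows S _ _ hone
  refine h.trans ?_
  rw [← hZ]
  have : 0 ≤ (X : ℝ) / L ^ W := by positivity
  calc 2 * C * X / L ^ W * Z = 2 * C * Z * (X / L ^ W) := by ring
    _ ≤ (2 * C * Z + 1) * (X / L ^ W) := by gcongr; linarith
    _ = _ := by ring

end

end Pool.Agent.N351.EV
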