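import Pool.Agent.N351.EV.Up2
import Pool.Agent.N351.EV.One
import Pool.Agent.N351.EV.Lan
import Pool.Agent.N351.EV.Cnt
import Pool.Agent.N351.EV.Dig
import Pool.Agent.Y19.QT.ZD2

set_option autoImplicit false

/-! Project EV (helper351): the zeros of almost all twists in short windows. -/

namespace Pool.Agent.N351.EV

open Complex MeasureTheory Filter Topology Set
open Pool.Agent.Y19.QT
open Pool.Agent.Y703.QT8 (MM mm_zero mm_diff ell_eq q_ne q_cast q_pos ell_conj ell_diff gf_conj)
open scoped ComplexConjugate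

noncomputable section

variable {Q : ℕ} {lam : ℕ → ℝ}

/-- the completed `L`-function, centre `0` -/
def fd (T : Twists Q lam) (d : ℤ) (s : ℂ) : ℂ := MM T d 0 (1 + s)

/-- the archimedean factor, centre `0` -/
def Gd (T : Twists Q lam) (d : ℤ) (s : ℂ) : ℂ :=
  ((2 * Real.pi / T.q d : ℝ) : ℂ) ^ (-(1 + s)) * Complex.Gamma (1 + s)

theorem fd_diff (T : Twists Q lam) {d : ℤ} (hd : Squarefree d) : Differentiable ℂ (fd T d) := by
  have h0 : |(0 : ℝ)| < Real.pi / 2 := by
    have := Real.pi_pos
    rw [abs_zero]; positivity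
  exact (mm_diff T hd h0).comp (by fun_prop)

theorem fd_fe (T : Twists Q lam) {d : ℤ} (hd : Squarefree d) (s : ℂ) :
    fd T d (-s) = (T.w d : ℂ) * fd T d s := by
  unfold fd
  rw [mm_zero, mm_zero]
  have h := mellin_fe T hd (1 + s)
  have e : (2 - (1 + s) : ℂ) = 1 + -s := by ring
  rw [e] at h
  exact h

theorem w_ne (T : Twists Q lam) {d : ℤ} (hd : Squarefree d) : (T.w d : ℂ) ≠ 0 := by
  have := T.w_sq d hd
  intro h
  have h' : T.w d = 0 := by exact_mod_cast h
  rw [h'] at this
  norm_num at this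

theorem fd_conj (T : Twists Q lam) {d : ℤ} (s : ℂ) :
    fd T d (conj s) = conj (fd T d s) := by
  have hpi := Real.pi_pos
  have e3 : conj (MM T d 0 (1 + s)) = MM T d 0 (1 + conj s) := by
    rw [mm_zero, mm_zero]
    unfold mellin
    rw [← integral_conj]
    refine setIntegral_congr_fun measurableSet_Ioi fun u (hu : 0 < u) => ?_
    simp only [smul_eq_mul, map_mul]
    have e4 : conj (T.F d u) = T.F d u := by
      unfold Twists.F
      rw [← gf_conj, map_div₀, Complex.conj_ofReal, Complex.conj_ofReal]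
    have e5 : conj ((u : ℂ) ^ (1 + s - 1)) = (u : ℂ) ^ (1 + conj s - 1) := by
      have : 1 + conj s - 1 = conj (1 + s - 1) := by
        rw [map_sub, map_add, map_one]
      rw [this, Complex.cpow_conj, Complex.conj_ofReal]
      rw [Complex.arg_ofReal_of_nonneg hu.le]
      exact hpi.ne
    rw [e4, e5]
  unfold fd
  rw [e3]

theorem fd_eq (T : Twists Q lam) {d : ℤ} (hd : Squarefree d) {s : ℂ} (hs : -1 < s.re) :
    fd T d s = Gd T d s * T.ell d (1 / 2 + s) := by
  have hq := q_pos T hd
  have hpi := Real.pi_pos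
  have hG : Complex.Gamma (1 + s) ≠ 0 := Complex.Gamma_ne_zero_of_re_pos (by simp; linarith)
  have hq0 : ((2 * Real.pi / T.q d : ℝ) : ℂ) ≠ 0 := by
    have : (2 * Real.pi / T.q d : ℝ) ≠ 0 := by positivity
    exact_mod_cast this
  unfold fd Gd
  rw [ell_eq, q_cast]
  have e : (1 / 2 + s + 1 / 2 : ℂ) = 1 + s := by ring
  have hq1 : ((2 * Real.pi / T.q d : ℝ) : ℂ) ^ (1 + s) ≠ 0 := by
    rw [Ne, Complex.cpow_eq_zero_iff]; exact fun h => hq0 h.1
  rw [e, Complex.cpow_neg]
  generalize ((2 * Real.pi / T.q d : ℝ) : ℂ) ^ (1 + s) = x at *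
  field_simp

theorem Gd_an (T : Twists Q lam) {d : ℤ} (hd : Squarefree d) {s : ℂ} (hs : -1 < s.re) :
    AnalyticAt ℂ (Gd T d) s ∧ Gd T d s ≠ 0 ∧
      logDeriv (Gd T d) s = -((Real.log (2 * Real.pi / T.q d) : ℝ) : ℂ) +
        logDeriv Complex.Gamma (1 + s) := by
  have hq := q_pos T hd
  have hpi := Real.pi_pos
  have hk : 0 < 2 * Real.pi / T.q d := by positivity
  have hre : 0 < (1 + s).re := by simp; linarith
  have hG : Complex.Gamma (1 + s) ≠ 0 := Complex.Gamma_ne_zero_of_re_pos hre
  have hq0 : ((2 * Real.pi / T.q d : ℝ) : ℂ) ≠ 0 := by exact_mod_cast hk.ne'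
  set k : ℝ := 2 * Real.pi / T.q d with hkdef
  have hop : IsOpen {z : ℂ | -1 < z.re} := isOpen_lt continuous_const Complex.continuous_re
  have hGd : ∀ z : ℂ, -1 < z.re → DifferentiableAt ℂ (fun z => Complex.Gamma (1 + z)) z := by
    intro z hz
    have h1 : DifferentiableAt ℂ Complex.Gamma (1 + z) := Complex.differentiableAt_Gamma _ (fun m h => by
      have h0 : 0 < (1 + z).re := by simp; linarith
      rw [h] at h0
      simp at h0
      linarith [Nat.cast_nonneg (α := ℝ) m])
    exact h1.comp z (by fun_prop)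
  have hpd : ∀ z : ℂ, DifferentiableAt ℂ (fun z : ℂ => (k : ℂ) ^ (-(1 + z))) z := fun z =>
    DifferentiableAt.const_cpow (by fun_prop) (Or.inl hq0)
  have hd1 : DifferentiableOn ℂ (Gd T d) {z : ℂ | -1 < z.re} := fun z hz =>
    ((hpd z).mul (hGd z hz)).differentiableWithinAt
  refine ⟨hd1.analyticAt (hop.mem_nhds hs), ?_, ?_⟩
  · unfold Gd
    rw [← hkdef]
    exact mul_ne_zero (by rw [Ne, Complex.cpow_eq_zero_iff]; exact fun h => hq0 h.1) hG
  · have h1 : logDeriv (Gd T d) s = logDeriv (fun z : ℂ => (k : ℂ) ^ (-(1 + z))) s +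
        logDeriv (fun z => Complex.Gamma (1 + z)) s := by
      exact logDeriv_mul (f := fun z : ℂ => (k : ℂ) ^ (-(1 + z)))
        (g := fun z => Complex.Gamma (1 + z)) s
        (by rw [Ne, Complex.cpow_eq_zero_iff]; exact fun h => hq0 h.1) hG (hpd s) (hGd s hs)
    rw [h1]
    congr 1
    · have h2 : HasDerivAt (fun z : ℂ => (k : ℂ) ^ (-(1 + z)))
          ((k : ℂ) ^ (-(1 + s)) * Complex.log k * (-1)) s := by
        have h3 : HasDerivAt (fun z : ℂ => -(1 + z)) (-1) s :=
          ((hasDerivAt_id s).const_add 1).neg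
        exact h3.const_cpow (Or.inl hq0)
      rw [logDeriv_apply, h2.deriv, Complex.ofReal_log hk.le]
      have h4 : (k : ℂ) ^ (-(1 + s)) ≠ 0 := by
        rw [Ne, Complex.cpow_eq_zero_iff]; exact fun h => hq0 h.1
      field_simp
    · have h5 : deriv (fun z => Complex.Gamma (1 + z)) s = deriv Complex.Gamma (1 + s) := by
        have h6 := deriv_comp_const_add (𝕜 := ℂ) (f := Complex.Gamma) 1 s
        exact h6
      rw [logDeriv_apply, logDeriv_apply, h5]

theorem small_count (X : ℕ) (S : Finset ℤ) (Y : ℝ) (hY : 0 ≤ Y) (hS : S ⊆ sqf X)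
    (h : ∀ d ∈ S, |(d : ℝ)| ≤ Y) : (S.card : ℝ) ≤ 3 * Y := by
  rcases S.eq_empty_or_nonempty with h0 | ⟨d0, hd0⟩
  · rw [h0, Finset.card_empty, Nat.cast_zero]
    positivity
  · have h1 : (1 : ℝ) ≤ |(d0 : ℝ)| := by
      have : d0 ≠ 0 := (mem_sqf.1 (hS hd0)).2.ne_zero
      exact_mod_cast Int.one_le_abs this
    have hY1 : 1 ≤ Y := h1.trans (h d0 hd0)
    have h2 : S ⊆ Finset.Icc (-(⌊Y⌋₊ : ℤ)) ⌊Y⌋₊ := by
      intro d hd
      have h3 := h d hd
      have h4 : |d| ≤ (⌊Y⌋₊ : ℤ) := by
        have h5 : (d.natAbs : ℝ) ≤ Y := by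
          rw [Nat.cast_natAbs, Int.cast_abs]
          exact h3
        have h6 := Nat.le_floor h5
        rw [Int.abs_eq_natAbs]
        exact_mod_cast h6
      exact Finset.mem_Icc.2 (abs_le.1 h4)
    have h3 := Finset.card_le_card h2
    rw [Int.card_Icc] at h3
    have h4 : S.card ≤ 2 * ⌊Y⌋₊ + 1 := by omega
    have h5 : (⌊Y⌋₊ : ℝ) ≤ Y := Nat.floor_le (by linarith)
    have h6 : (S.card : ℝ) ≤ 2 * (⌊Y⌋₊ : ℝ) + 1 := by exact_mod_cast h4
    linarith

/-- the number of zeros in short windows, for almost all twists -/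
theorem tw (T : Twists Q lam) (W : ℕ) (ε : ℝ) (hε : 0 < ε) : ∃ C A : ℝ, 0 < C ∧ 0 < A ∧
    ∀ (X : ℕ) (S : Finset ℤ), 3 ≤ X → S ⊆ sqf X →
      (∀ d ∈ S, ∃ a b : ℝ, a < b ∧ b ≤ a + 1 ∧
        A * (Real.log (Real.log X) + Real.log (2 + |a|)) ≤ (b - a) * Real.log X ∧
        ¬ Good (fd T d) a b (Real.log X) ε) →
      (S.card : ℝ) ≤ C * X / Real.log X ^ W := by
  classical
  obtain ⟨C1, K1, hC1, hup⟩ := up_law T W
  obtain ⟨C2, K2, J, hC2, hK2, hlow⟩ := low_law T W
  obtain ⟨C0, hC0, habs⟩ := ell_abs T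
  obtain ⟨Cg, hCg, hdig⟩ := dig
  have hTc := T.one_le_c
  have hpi := Real.pi_pos
  have hlogC0 : 0 ≤ Real.log C0 := Real.log_nonneg hC0
  have hlogc : 0 ≤ Real.log T.c := Real.log_nonneg hTc
  have hlog7 : 0 ≤ Real.log 7 := Real.log_nonneg (by norm_num)
  have hlog2pi : 0 ≤ Real.log (2 * Real.pi) := Real.log_nonneg (by have := Real.pi_gt_three; linarith)
  -- the constant `B` of the complex-analytic part
  set B : ℝ := (K1 + K2 + J + 1) * (1 + Real.log 5) + Real.log C0 + Cg + W + Real.log T.c +
    Real.log (2 * Real.pi) + 2 with hB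
  have hlog5 : 0 ≤ Real.log 5 := Real.log_nonneg (by norm_num)
  have hB0 : 0 < B := by positivity
  obtain ⟨A, hA, hone⟩ := one lan cnt B ε hB0 hε
  refine ⟨3 + C1 + C2, 3 * A, by positivity, by positivity, fun X S hX hS hs => ?_⟩
  have hL1 : 1 ≤ Real.log X := Pool.Agent.Y474.QTZ6.one_le_log hX
  have hX0 : (0 : ℝ) < X := by exact_mod_cast (by omega : 0 < X)
  set L := Real.log X with hLdef
  have hL0 : 0 < L := by linarith
  have hLL : 0 ≤ Real.log L := Real.log_nonneg hL1
  have hl2 : (0.69 : ℝ) ≤ Real.log 2 := by have := Real.log_two_gt_d9; linarith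
  -- the exceptional sets
  set S1 : Finset ℤ := S.filter fun d : ℤ => |(d : ℝ)| ≤ X / L ^ W with hS1
  set S2 := S.filter fun d => ∃ s : ℂ, 1 / 2 ≤ s.re ∧ s.re ≤ 3 / 2 ∧
    (L * (2 + |s.im|)) ^ K1 < ‖T.ell d s‖ with hS2
  set S3 := S.filter fun d => ∃ s : ℂ,
    1 / 2 + K2 * ((Real.log L + Real.log (2 + |s.im|)) / L) ≤ s.re ∧ s.re ≤ 17 / 16 ∧
      ‖T.ell d s‖ * (L * (2 + |s.im|)) ^ J < 1 with hS3
  have hcov : S ⊆ S1 ∪ (S2 ∪ S3) := by
    intro d hd
    rw [Finset.mem_union, Finset.mem_union]
    by_contra hcon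
    push Not at hcon
    obtain ⟨g1, g2, g3⟩ := hcon
    have g1' : X / L ^ W < |(d : ℝ)| := by
      by_contra h
      exact g1 (Finset.mem_filter.2 ⟨hd, not_lt.1 h⟩)
    have g2' : ∀ s : ℂ, 1 / 2 ≤ s.re → s.re ≤ 3 / 2 → ‖T.ell d s‖ ≤ (L * (2 + |s.im|)) ^ K1 := by
      intro s h1 h2
      by_contra h
      exact g2 (Finset.mem_filter.2 ⟨hd, s, h1, h2, not_le.1 h⟩)
    have g3' : ∀ s : ℂ, 1 / 2 + K2 * ((Real.log L + Real.log (2 + |s.im|)) / L) ≤ s.re →
        s.re ≤ 17 / 16 → 1 ≤ ‖T.ell d s‖ * (L * (2 + |s.im|)) ^ J := by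
      intro s h1 h2
      by_contra h
      exact g3 (Finset.mem_filter.2 ⟨hd, s, h1, h2, not_le.1 h⟩)
    have hsq := (mem_sqf.1 (hS hd)).2
    obtain ⟨a, b, hab, hab1, hwin, hbad⟩ := hs d hd
    apply hbad
    set l : ℝ := Real.log L + Real.log (2 + |a|) + 1 with hl
    have hla : Real.log 2 ≤ Real.log (2 + |a|) :=
      Real.log_le_log (by norm_num) (by have := abs_nonneg a; linarith)
    have hl1 : 1 ≤ l := by rw [hl]; linarith
    -- heights
    have him : ∀ z : ℂ, |z.im - (a + b) / 2| ≤ 7 →
        Real.log (2 + |z.im|) ≤ Real.log (2 + |a|) + Real.log 5 := by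
      intro z hz
      rw [← Real.log_mul (by have := abs_nonneg a; positivity) (by norm_num)]
      apply Real.log_le_log (by positivity)
      have h1 : |z.im| ≤ |a| + 8 := by
        have h2 := abs_le.1 hz
        have h3 := neg_abs_le a
        have h4 := le_abs_self a
        rw [abs_le]
        constructor <;> linarith [h2.1, h2.2]
      linarith [abs_nonneg a]
    have hgB : ∀ z : ℂ, |z.im - (a + b) / 2| ≤ 7 →
        Real.log L + Real.log (2 + |z.im|) ≤ (1 + Real.log 5) * l := by
      intro z hz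
      have h1 := him z hz
      rw [hl]
      nlinarith [mul_nonneg hlog5 hLL, mul_nonneg hlog5 (show 0 ≤ Real.log (2 + |a|) by linarith)]
    have hVexp : ∀ (z : ℂ) (j : ℕ), (L * (2 + |z.im|)) ^ j =
        Real.exp (j * (Real.log L + Real.log (2 + |z.im|))) := by
      intro z j
      have h1 : 0 < 2 + |z.im| := by positivity
      rw [← Real.log_mul hL0.ne' h1.ne', Real.exp_nat_mul, Real.exp_log (by positivity)]
    have hq0 := q_pos T hsq
    have hq1 : Real.log (T.q d) ≤ L + Real.log T.c := by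
      have h1 : T.q d ≤ T.c * X := by
        refine (T.q_upper d hsq).trans ?_
        gcongr
        exact_mod_cast (mem_sqf.1 (hS hd)).1
      have h2 := Real.log_le_log hq0 h1
      rw [Real.log_mul (by positivity) hX0.ne'] at h2
      linarith
    have hq2 : L - W * Real.log L - Real.log T.c ≤ Real.log (T.q d) := by
      have h1 : X / L ^ W ≤ T.c * T.q d := g1'.le.trans (T.q_lower d hsq)
      have h2 := Real.log_le_log (by positivity) h1
      rw [Real.log_mul (by positivity) hq0.ne', Real.log_div hX0.ne' (by positivity),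
        Real.log_pow] at h2
      linarith
    have hqL : |Real.log (2 * Real.pi / T.q d) + L| ≤
        W * Real.log L + Real.log T.c + Real.log (2 * Real.pi) := by
      rw [Real.log_div (by positivity) hq0.ne', abs_le]
      have h3 : 0 ≤ W * Real.log L := by positivity
      constructor
      · linarith
      · linarith
    refine hone (fd T d) (Gd T d) (fun s => T.ell d (1 / 2 + s)) (T.w d) L l a b (fd_diff T hsq)
      ((ell_diff T hsq).comp (by fun_prop)) (w_ne T hsq) (fd_fe T hsq) (fun s => fd_conj T s)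
      (fun z hz => ⟨(Gd_an T hsq (by linarith)).1, (Gd_an T hsq (by linarith)).2.1,
        fd_eq T hsq (by linarith)⟩) hl1 hab hab1 ?_ ?_ ?_ ?_ ?_
    · refine le_trans ?_ hwin
      have h1 : l ≤ 3 * (Real.log L + Real.log (2 + |a|)) := by rw [hl]; linarith
      calc A * l ≤ A * (3 * (Real.log L + Real.log (2 + |a|))) := by gcongr
        _ = _ := by ring
    · intro z hz1 hz2 hz3
      rw [(Gd_an T hsq (by linarith)).2.2]
      have hre : (1 + z).re = 1 + z.re := by simp
      have him1 : (1 + z).im = z.im := by simp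
      have h1 := hdig (1 + z) (by rw [hre]; linarith) (by rw [hre]; linarith)
      rw [him1] at h1
      have h2 : ‖-((Real.log (2 * Real.pi / T.q d) : ℝ) : ℂ) + logDeriv Complex.Gamma (1 + z) - L‖ ≤
          |Real.log (2 * Real.pi / T.q d) + L| + ‖logDeriv Complex.Gamma (1 + z)‖ := by
        have e : -((Real.log (2 * Real.pi / T.q d) : ℝ) : ℂ) + logDeriv Complex.Gamma (1 + z) - L =
            -((Real.log (2 * Real.pi / T.q d) + L : ℝ) : ℂ) + logDeriv Complex.Gamma (1 + z) := by
          push_cast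
          ring
        rw [e]
        refine (norm_add_le _ _).trans ?_
        rw [norm_neg, Complex.norm_real, Real.norm_eq_abs]
      refine h2.trans ?_
      have h3 := him z hz3
      have h4 : |Real.log (2 * Real.pi / T.q d) + L| + ‖logDeriv Complex.Gamma (1 + z)‖ ≤
          (W * Real.log L + Real.log T.c + Real.log (2 * Real.pi)) +
            (Cg + (Real.log (2 + |a|) + Real.log 5)) := by linarith
      refine h4.trans ?_
      have hKJ : (0 : ℝ) ≤ (K1 : ℝ) + K2 + J := by positivity
      have h5 : 0 ≤ Real.log (2 + |a|) := by linarith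
      have h6 : W * Real.log L ≤ W * l := by
        gcongr
        rw [hl]; linarith
      have h7 : Real.log (2 + |a|) ≤ l := by rw [hl]; linarith
      have h8 : Real.log 5 ≤ (1 + Real.log 5) * l := by nlinarith
      have h9 : 0 ≤ ((K1 : ℝ) + K2 + J) * (1 + Real.log 5) * l := by positivity
      have e : B * l = ((K1 : ℝ) + K2 + J) * (1 + Real.log 5) * l + (1 + Real.log 5) * l +
          Real.log C0 * l + Cg * l + W * l + Real.log T.c * l + Real.log (2 * Real.pi) * l +
            2 * l := by
        rw [hB]; ring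
      rw [e]
      have h10 : Cg ≤ Cg * l := le_mul_of_one_le_right hCg.le hl1
      have h11 : Real.log T.c ≤ Real.log T.c * l := le_mul_of_one_le_right hlogc hl1
      have h12 : Real.log (2 * Real.pi) ≤ Real.log (2 * Real.pi) * l :=
        le_mul_of_one_le_right hlog2pi hl1
      have h13 : 0 ≤ Real.log C0 * l := by positivity
      linarith
    · intro z hz1 hz2 hz3
      have hre : (1 / 2 + z : ℂ).re = 1 / 2 + z.re := by simp
      have him1 : (1 / 2 + z : ℂ).im = z.im := by simp
      rcases le_or_gt (1 / 2 + z.re) (3 / 2) with h | h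
      · have h1 := g2' (1 / 2 + z) (by rw [hre]; linarith) (by rw [hre]; exact h)
        rw [him1, hVexp] at h1
        refine h1.trans (Real.exp_le_exp.2 ?_)
        have h2 := hgB z hz3
        calc (K1 : ℝ) * (Real.log L + Real.log (2 + |z.im|)) ≤ K1 * ((1 + Real.log 5) * l) := by
              gcongr
          _ ≤ B * l := by
              have : (K1 : ℝ) * (1 + Real.log 5) ≤ B := by
                rw [hB]
                have : 0 ≤ ((K2 : ℝ) + J + 1) * (1 + Real.log 5) := by positivity
                have : (0 : ℝ) ≤ W := Nat.cast_nonneg _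
                nlinarith
              nlinarith
      · have h1 := (habs d (1 / 2 + z) hsq (by rw [hre]; linarith)).2
        refine h1.trans ?_
        rw [← Real.exp_log (by linarith : 0 < C0)]
        apply Real.exp_le_exp.2
        have h2 : Real.log C0 ≤ Real.log C0 * l := le_mul_of_one_le_right hlogC0 hl1
        have h3 : Real.log C0 ≤ B := by
          rw [hB]
          have : 0 ≤ ((K1 : ℝ) + K2 + J + 1) * (1 + Real.log 5) := by positivity
          have : (0 : ℝ) ≤ W := Nat.cast_nonneg _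
          linarith
        nlinarith
    · intro z hz1 hz2 hz3
      have hre : (1 / 2 + z : ℂ).re = 1 / 2 + z.re := by simp
      have him1 : (1 / 2 + z : ℂ).im = z.im := by simp
      have hz0 : 0 ≤ z.re := le_trans (by positivity) hz1
      rcases le_or_gt (1 / 2 + z.re) (17 / 16) with h | h
      · have h0 : 1 / 2 + K2 * ((Real.log L + Real.log (2 + |(1 / 2 + z : ℂ).im|)) / L) ≤
            (1 / 2 + z : ℂ).re := by
          rw [him1, hre]
          have h2 := hgB z hz3
          have h3 : K2 * ((Real.log L + Real.log (2 + |z.im|)) / L) ≤ B * l / L := by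
            have e : K2 * ((Real.log L + Real.log (2 + |z.im|)) / L) =
              K2 * (Real.log L + Real.log (2 + |z.im|)) / L := by ring
            rw [e]
            refine div_le_div_of_nonneg_right ?_ hL0.le
            calc K2 * (Real.log L + Real.log (2 + |z.im|)) ≤ K2 * ((1 + Real.log 5) * l) := by gcongr
              _ ≤ B * l := by
                  have : K2 * (1 + Real.log 5) ≤ B := by
                    rw [hB]
                    have : 0 ≤ ((K1 : ℝ) + J + 1) * (1 + Real.log 5) := by positivity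
                    have : (0 : ℝ) ≤ W := Nat.cast_nonneg _
                    nlinarith
                  nlinarith
          linarith
        have h1 := g3' (1 / 2 + z) h0 (by rw [hre]; exact h)
        rw [him1, hVexp] at h1
        have h2 := hgB z hz3
        have h3 : (J : ℝ) * (Real.log L + Real.log (2 + |z.im|)) ≤ B * l := by
          calc (J : ℝ) * (Real.log L + Real.log (2 + |z.im|)) ≤ J * ((1 + Real.log 5) * l) := by
                gcongr
            _ ≤ B * l := by
                have : (J : ℝ) * (1 + Real.log 5) ≤ B := by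
                  rw [hB]
                  have : 0 ≤ ((K1 : ℝ) + K2 + 1) * (1 + Real.log 5) := by positivity
                  have : (0 : ℝ) ≤ W := Nat.cast_nonneg _
                  nlinarith
                nlinarith
        rw [Real.exp_neg, inv_le_iff_one_le_mul₀ (Real.exp_pos _)]
        refine h1.trans ?_
        gcongr
      · have h1 := (habs d (1 / 2 + z) hsq (by rw [hre]; linarith)).1
        refine le_trans ?_ h1
        rw [Real.exp_neg]
        apply inv_anti₀ (by linarith)
        rw [← Real.exp_log (by linarith : 0 < C0)]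
        apply Real.exp_le_exp.2
        have h2 : Real.log C0 ≤ Real.log C0 * l := le_mul_of_one_le_right hlogC0 hl1
        have h3 : Real.log C0 ≤ B := by
          rw [hB]
          have : 0 ≤ ((K1 : ℝ) + K2 + J + 1) * (1 + Real.log 5) := by positivity
          have : (0 : ℝ) ≤ W := Nat.cast_nonneg _
          linarith
        nlinarith
    · intro z hz h0
      have h1 := (Pool.Agent.Y500.QTZ4.Z4 T).1 d (1 / 2 + z) hsq (by simp; linarith)
      apply h1
      rw [fd_eq T hsq (by linarith)] at h0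
      rcases mul_eq_zero.1 h0 with h | h
      · exact absurd h (Gd_an T hsq (by linarith)).2.1
      · show T.ell d (1 / 2 + z) * _ = 0
        rw [h, zero_mul]
  have hsub : ∀ P : ℤ → Prop, ∀ [DecidablePred P], S.filter P ⊆ sqf X := fun P _ =>
    (Finset.filter_subset _ _).trans hS
  have c1 : (S1.card : ℝ) ≤ 3 * (X / L ^ W) := small_count X S1 _ (by positivity) (hsub _)
    fun d hd => (Finset.mem_filter.1 hd).2
  have c2 : (S2.card : ℝ) ≤ C1 * X / L ^ W := hup X S2 hX (hsub _)
    fun d hd => (Finset.mem_filter.1 hd).2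
  have c3 : (S3.card : ℝ) ≤ C2 * X / L ^ W := hlow X S3 hX (hsub _)
    fun d hd => (Finset.mem_filter.1 hd).2
  calc (S.card : ℝ) ≤ ((S1 ∪ (S2 ∪ S3)).card : ℝ) := by exact_mod_cast Finset.card_le_card hcov
    _ ≤ ((S1.card + (S2.card + S3.card) : ℕ) : ℝ) := by
        exact_mod_cast (Finset.card_union_le _ _).trans
          (Nat.add_le_add_left (Finset.card_union_le _ _) _)
    _ = (S1.card : ℝ) + (S2.card + S3.card) := by push_cast; rfl
    _ ≤ 3 * (X / L ^ W) + (C1 * X / L ^ W + C2 * X / L ^ W) := by gcongr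
    _ = _ := by ring

end

end Pool.Agent.N351.EV
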