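import Pool.Agent.N351.EV.Sup
import Pool.Agent.Y705.QT13

set_option autoImplicit false

/-! Project EV (helper351): upper bounds at every point, for almost all twists; the half-plane of
absolute convergence. -/

namespace Pool.Agent.N351.EV

open Complex MeasureTheory Filter Topology
open Pool.Agent.Y19.QT
open Pool.Agent.Y474.QTZ6 (YY)
open Pool.Agent.Y500.QTZ4 (Dv Dv_summable cx_summable cx_analytic mj mj_le Lq_mul Lq_analytic half_preconn)
open Pool.Agent.Y180.QT12b2 (cx Ep Ep_bound Mol_diff)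
open Pool.Agent.Y705.QT (hE_bound)
open Pool.Agent.H306R2.RZ (js)

noncomputable section

variable {Q : ℕ} {lam : ℕ → ℝ}

/-! ### The half-plane of absolute convergence -/

/-- the Dirichlet series with the divisor function at `17/16` -/
def M1 : ℝ := ∑' n, ‖LSeries.term Dv ((17 / 16 : ℝ) : ℂ) n‖

theorem cx_le {a : ℕ → ℝ} (ha : ∀ n, |a n| ≤ (n.divisors.card : ℝ)) {s : ℂ}
    (hs : 17 / 16 ≤ s.re) : ‖LSeries (cx a) s‖ ≤ M1 := by
  have h1 : Summable fun n => ‖LSeries.term Dv ((17 / 16 : ℝ) : ℂ) n‖ :=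
    (Dv_summable (s := ((17 / 16 : ℝ) : ℂ)) (by rw [Complex.ofReal_re]; norm_num)).norm
  refine tsum_of_norm_bounded h1.hasSum fun n => ?_
  rw [LSeries.norm_term_eq, LSeries.norm_term_eq, Complex.ofReal_re]
  split_ifs with hn
  · exact le_rfl
  · rw [cx, Dv, Complex.norm_real, Real.norm_eq_abs, Complex.norm_natCast]
    have h2 : (1 : ℝ) ≤ n := by exact_mod_cast Nat.one_le_iff_ne_zero.2 hn
    have h3 : (n : ℝ) ^ (17 / 16 : ℝ) ≤ (n : ℝ) ^ s.re := Real.rpow_le_rpow_of_exponent_le h2 hs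
    exact div_le_div₀ (by positivity) (ha n) (by positivity) h3

theorem M1_nonneg : 0 ≤ M1 := tsum_nonneg fun n => norm_nonneg _

theorem lj_div (H : Hecke Q lam) (d : ℤ) (n : ℕ) : |lam n * js d n| ≤ (n.divisors.card : ℝ) := by
  rw [abs_mul]
  have h1 := (Pool.Agent.Y180.QT12b1.T12b1 Q lam H).2.1 n
  calc |lam n| * |js d n| ≤ |lam n| * 1 :=
        mul_le_mul_of_nonneg_left (Pool.Agent.Y180.QT12b2.js_le d n) (abs_nonneg _)
    _ ≤ _ := by rw [mul_one]; exact h1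

theorem Lq_series (T : Twists Q lam) {d : ℤ} (hd : Squarefree d) {s : ℂ} (hs : 1 < s.re) :
    T.Lq d s = LSeries (cx fun n => lam n * js d n) s := by
  have h8 : ∀ s : ℂ, 2 < s.re → T.ell d s = ∑' n : ℕ, (T.cf d n : ℂ) * (n : ℂ) ^ (-s) :=
    fun s hs => Pool.Agent.Y703.QT8.ell_dir T hd hs
  have hL : AnalyticOnNhd ℂ (T.Lq d) {s : ℂ | 1 < s.re} := by
    refine (Lq_analytic T hd).mono ?_
    intro s (hs : 1 < s.re)
    show 1 / 4 < s.re
    linarith
  have h3 : T.Lq d =ᶠ[𝓝 (3 : ℂ)] LSeries (cx fun n => lam n * js d n) := by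
    have : {s : ℂ | 2 < s.re} ∈ 𝓝 (3 : ℂ) :=
      (isOpen_lt continuous_const Complex.continuous_re).mem_nhds (by norm_num)
    filter_upwards [this] with s hs
    exact Pool.Agent.Y180.QT12b2.Lq_eq T hd h8 hs
  have h4 := hL.eqOn_of_preconnected_of_eventuallyEq (cx_analytic (lj_div T.hecke d))
    (half_preconn 1) (z₀ := 3) (by show (1 : ℝ) < (3 : ℂ).re; norm_num) h3
  exact h4 hs

/-- the inverse of the factor at the bad primes -/
theorem Ep_inv (T : Twists Q lam) {d : ℤ} (hd : Squarefree d) {s : ℂ} (hs : 1 / 4 ≤ s.re) :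
    ‖(Ep T d s)⁻¹‖ ≤ T.c := by
  have sE : LSeriesSummable (fun n => (T.e d n : ℂ)) s := (hE_bound _ _ (T.e_sum d hd) s hs).1
  have sE' : LSeriesSummable (fun n => (T.e' d n : ℂ)) s := (hE_bound _ _ (T.e'_sum d hd) s hs).1
  have hEE : LSeries (fun n => (T.e d n : ℂ)) s * LSeries (fun n => (T.e' d n : ℂ)) s = 1 := by
    rw [← LSeries_convolution' sE sE']
    have h5 : LSeries (LSeries.convolution (fun n => (T.e d n : ℂ)) (fun n => (T.e' d n : ℂ))) s =
        LSeries LSeries.delta s := by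
      apply LSeries_congr
      intro n hn
      rw [LSeries.convolution_def]
      show ∑ p ∈ n.divisorsAntidiagonal, (T.e d p.1 : ℂ) * (T.e' d p.2 : ℂ) = LSeries.delta n
      have h6 := T.e_inv d hd n (Nat.one_le_iff_ne_zero.mpr hn)
      have h7 : ((∑ x ∈ n.divisorsAntidiagonal, T.e d x.1 * T.e' d x.2 : ℝ) : ℂ) =
          ((if n = 1 then 1 else 0 : ℝ) : ℂ) := by rw [h6]
      rw [ofReal_sum] at h7
      simp only [ofReal_mul] at h7
      rw [h7, LSeries.delta]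
      split_ifs <;> simp
    rw [h5, LSeries_delta]
    rfl
  have h1 : Ep T d s = LSeries (fun n => (T.e' d n : ℂ)) s := by
    unfold Pool.Agent.Y180.QT12b2.Ep
    rw [Pool.Agent.Y705.QT.tsum_eq_ls (fun n => (T.e' d n : ℂ)) (by simp [(T.e_zero d hd).2]) s]
  rw [h1, ← eq_inv_of_mul_eq_one_left hEE]
  exact (hE_bound _ _ (T.e_sum d hd) s hs).2

theorem Ep_ne0 (T : Twists Q lam) {d : ℤ} (hd : Squarefree d) {s : ℂ} (hs : 1 / 4 ≤ s.re) :
    Ep T d s ≠ 0 := by
  intro h0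
  -- otherwise the product of the two series is not 1
  have sE : LSeriesSummable (fun n => (T.e d n : ℂ)) s := (hE_bound _ _ (T.e_sum d hd) s hs).1
  have sE' : LSeriesSummable (fun n => (T.e' d n : ℂ)) s := (hE_bound _ _ (T.e'_sum d hd) s hs).1
  have hEE : LSeries (fun n => (T.e d n : ℂ)) s * LSeries (fun n => (T.e' d n : ℂ)) s = 1 := by
    rw [← LSeries_convolution' sE sE']
    have h5 : LSeries (LSeries.convolution (fun n => (T.e d n : ℂ)) (fun n => (T.e' d n : ℂ))) s =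
        LSeries LSeries.delta s := by
      apply LSeries_congr
      intro n hn
      rw [LSeries.convolution_def]
      show ∑ p ∈ n.divisorsAntidiagonal, (T.e d p.1 : ℂ) * (T.e' d p.2 : ℂ) = LSeries.delta n
      have h6 := T.e_inv d hd n (Nat.one_le_iff_ne_zero.mpr hn)
      have h7 : ((∑ x ∈ n.divisorsAntidiagonal, T.e d x.1 * T.e' d x.2 : ℝ) : ℂ) =
          ((if n = 1 then 1 else 0 : ℝ) : ℂ) := by rw [h6]
      rw [ofReal_sum] at h7
      simp only [ofReal_mul] at h7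
      rw [h7, LSeries.delta]
      split_ifs <;> simp
    rw [h5, LSeries_delta]
    rfl
  have h1 : Ep T d s = LSeries (fun n => (T.e' d n : ℂ)) s := by
    unfold Pool.Agent.Y180.QT12b2.Ep
    rw [Pool.Agent.Y705.QT.tsum_eq_ls (fun n => (T.e' d n : ℂ)) (by simp [(T.e_zero d hd).2]) s]
  rw [← h1, h0, mul_zero] at hEE
  exact zero_ne_one hEE

theorem ell_eq_Lq (T : Twists Q lam) {d : ℤ} (hd : Squarefree d) {s : ℂ} (hs : 1 / 4 ≤ s.re) :
    T.ell d s = T.Lq d s * (Ep T d s)⁻¹ := by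
  have e : T.Lq d s = T.ell d s * Ep T d s := rfl
  rw [e, mul_assoc, mul_inv_cancel₀ (Ep_ne0 T hd hs), mul_one]

theorem ell_abs (T : Twists Q lam) : ∃ C : ℝ, 1 ≤ C ∧ ∀ (d : ℤ) (s : ℂ), Squarefree d →
    17 / 16 ≤ s.re → C⁻¹ ≤ ‖T.ell d s‖ ∧ ‖T.ell d s‖ ≤ C := by
  have hc := T.one_le_c
  have hM := M1_nonneg
  refine ⟨T.c * (M1 + 1), by nlinarith, fun d s hd hs => ?_⟩
  have h1 := Lq_mul T hd (s := s) (by linarith)
  have h2 := cx_le (mj_le T.hecke d) hs
  have h3 : ‖T.Lq d s‖ ≤ M1 := by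
    rw [Lq_series T hd (by linarith)]
    exact cx_le (lj_div T.hecke d) hs
  have h4 : 1 ≤ ‖T.Lq d s‖ * (M1 + 1) := by
    calc (1 : ℝ) = ‖T.Lq d s * LSeries (cx (mj Q lam d)) s‖ := by rw [h1, norm_one]
      _ = ‖T.Lq d s‖ * ‖LSeries (cx (mj Q lam d)) s‖ := norm_mul _ _
      _ ≤ _ := by gcongr; linarith
  have h5 : ‖T.Lq d s‖ ≤ ‖T.ell d s‖ * T.c := by
    have e : T.Lq d s = T.ell d s * Ep T d s := rfl
    rw [e, norm_mul]
    exact mul_le_mul_of_nonneg_left (Ep_bound T hd (by linarith)) (norm_nonneg _)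
  constructor
  · rw [inv_le_iff_one_le_mul₀ (by positivity)]
    calc 1 ≤ ‖T.Lq d s‖ * (M1 + 1) := h4
      _ ≤ (‖T.ell d s‖ * T.c) * (M1 + 1) := by gcongr
      _ = _ := by ring
  · rw [ell_eq_Lq T hd (by linarith), norm_mul]
    calc ‖T.Lq d s‖ * ‖(Ep T d s)⁻¹‖ ≤ M1 * T.c := by
          gcongr
          exact Ep_inv T hd (by linarith)
      _ ≤ _ := by nlinarith

/-! ### The mollifier -/

theorem mol_large (T : Twists Q lam) (W : ℕ) : ∃ (C : ℝ) (K : ℕ), 0 < C ∧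
    ∀ (X : ℕ) (S : Finset ℤ), 3 ≤ X → S ⊆ sqf X →
      (∀ d ∈ S, ∃ s : ℂ, 1 / 2 + 1 / (16 * Real.log X) ≤ s.re ∧ s.re ≤ 17 / 16 ∧
        (Real.log X * (2 + |s.im|)) ^ K < ‖Mol Q lam (YY X) d s‖) →
      (S.card : ℝ) ≤ C * X / Real.log X ^ W := by
  classical
  obtain ⟨C2, A2, hC2, hmean⟩ := Pool.Agent.Y141.QT12c2.T12c2 Q lam T.hecke
  set Z : ℝ := ∑' m : ℕ, 1 / ((m : ℝ) + 1) ^ 2 with hZ
  have hZ0 : 0 ≤ Z := tsum_nonneg fun n => by positivity
  refine ⟨1024 * C2 * Z + 1, W + A2 + 4, by positivity, fun X S hX hS hs => ?_⟩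
  have hL1 : 1 ≤ Real.log X := Pool.Agent.Y474.QTZ6.one_le_log hX
  have hX0 : (0 : ℝ) < X := by exact_mod_cast (by omega : 0 < X)
  have hX1 : (1 : ℝ) ≤ X := by exact_mod_cast (by omega : 1 ≤ X)
  set L := Real.log X with hLdef
  have hL0 : 0 < L := by linarith
  have hY1 : 1 ≤ YY X := by
    unfold Pool.Agent.Y474.QTZ6.YY
    rw [Nat.one_le_floor_iff]
    exact Real.one_le_rpow hX1 (by norm_num)
  have hY4 : (YY X : ℝ) ^ 4 ≤ X := by
    have h1 : (YY X : ℝ) ≤ (X : ℝ) ^ (1 / 4 : ℝ) := Nat.floor_le (by positivity)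
    calc (YY X : ℝ) ^ 4 ≤ ((X : ℝ) ^ (1 / 4 : ℝ)) ^ 4 := pow_le_pow_left₀ (Nat.cast_nonneg _) h1 4
      _ = X := by
          rw [← Real.rpow_natCast, ← Real.rpow_mul hX0.le]
          norm_num
  choose! p hp1 hp2 hp3 using hs
  have hone : ∀ m : ℕ, ((S.filter fun d => ⌊|(p d).im|⌋₊ = m).card : ℝ) ≤
      (1024 * C2 * X / L ^ W) * (1 / ((m : ℝ) + 1) ^ 2) := by
    intro m
    set Sm := S.filter fun d => ⌊|(p d).im|⌋₊ = m with hSm
    have hm0 : (0 : ℝ) ≤ m := Nat.cast_nonneg m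
    set v : ℝ := (m : ℝ) + 2 with hv
    have hv1 : 1 ≤ v := by linarith
    have hin : ∀ d ∈ Sm, d ∈ S ∧ (m : ℝ) ≤ |(p d).im| ∧ |(p d).im| ≤ m + 1 := by
      intro d hd
      rw [hSm, Finset.mem_filter] at hd
      obtain ⟨h1, h2⟩ := hd
      refine ⟨h1, ?_, ?_⟩
      · rw [← h2]; exact Nat.floor_le (abs_nonneg _)
      · rw [← h2]; exact (Nat.lt_floor_add_one _).le
    set r : ℝ := 1 / (16 * L) with hr
    have hr0 : 0 < r := by positivity
    have hr16 : r ≤ 1 / 16 := by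
      rw [hr, div_le_div_iff₀ (by positivity) (by norm_num)]
      linarith
    have h1 := area_count Sm (fun d s => Mol Q lam (YY X) d s ^ 2) (1 / 2) 2 ((m : ℝ) + 1) r
      ((L * v) ^ (2 * (W + A2 + 4))) (C2 * X * L ^ A2)
      hr0 (by linarith) (by positivity) (by positivity) le_rfl le_rfl
      (fun d _ => ((Mol_diff Q lam (YY X) d).pow 2).differentiableOn)
      (fun d hd => by
        obtain ⟨g1, g2, g3⟩ := hin d hd
        refine ⟨p d, hp1 d g1, by linarith [hp2 d g1], g3, ?_⟩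
        rw [norm_pow, pow_mul, ← pow_mul, mul_comm 2, pow_mul]
        refine pow_le_pow_left₀ (by positivity) ?_ 2
        refine le_trans ?_ (hp3 d g1).le
        refine pow_le_pow_left₀ (by positivity) ?_ _
        have : v ≤ 2 + |(p d).im| := by rw [hv]; linarith
        gcongr)
      (fun s h1 h2 h3 => by
        have h4 := hmean X (YY X) s hX hY1 hY4 (by linarith)
        rw [max_eq_left (by linarith), mul_zero, Real.rpow_zero, mul_one] at h4
        refine le_trans ?_ h4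
        have hsub : Sm ⊆ sqf X := by
          rw [hSm]
          exact (Finset.filter_subset _ _).trans hS
        calc ∑ d ∈ Sm, ‖Mol Q lam (YY X) d s ^ 2‖ = ∑ d ∈ Sm, ‖Mol Q lam (YY X) d s‖ ^ 2 :=
              Finset.sum_congr rfl fun d _ => norm_pow _ _
          _ ≤ _ := Finset.sum_le_sum_of_subset_of_nonneg hsub fun _ _ _ => by positivity)
    have hr2' : r ^ 2 = 1 / (256 * L ^ 2) := by
      rw [hr]
      field_simp
      norm_num
    rw [hr2'] at h1
    have hV0 : 0 < (L * v) ^ (2 * (W + A2 + 4)) := by positivity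
    have h2 : (Sm.card : ℝ) ≤ 256 * L ^ 2 * (C2 * X * L ^ A2 * ((m : ℝ) + 1 + 3) ^ 2) /
        (L * v) ^ (2 * (W + A2 + 4)) := by
      rw [le_div_iff₀ hV0]
      have h4 : (Sm.card : ℝ) * ((L * v) ^ (2 * (W + A2 + 4)) * (1 / (256 * L ^ 2))) =
          (Sm.card : ℝ) * (L * v) ^ (2 * (W + A2 + 4)) / (256 * L ^ 2) := by ring
      rw [h4, div_le_iff₀ (by positivity)] at h1
      linarith
    have h3 : (m : ℝ) + 1 + 3 ≤ 2 * v := by rw [hv]; linarith
    calc (Sm.card : ℝ) ≤ 256 * L ^ 2 * (C2 * X * L ^ A2 * ((m : ℝ) + 1 + 3) ^ 2) /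
        (L * v) ^ (2 * (W + A2 + 4)) := h2
      _ ≤ 256 * L ^ 2 * (C2 * X * L ^ A2 * (2 * v) ^ 2) / (L * v) ^ (2 * (W + A2 + 4)) := by gcongr
      _ = 1024 * C2 * X * ((L ^ (A2 + 2) * v ^ 2) / (L * v) ^ (2 * (W + A2 + 4))) := by
          rw [pow_add L]; ring
      _ ≤ 1024 * C2 * X * (1 / (L ^ W * v ^ 2)) := by
          refine mul_le_mul_of_nonneg_left ?_ (by positivity)
          rw [div_le_div_iff₀ (by positivity) (by positivity), one_mul, mul_pow]
          calc L ^ (A2 + 2) * v ^ 2 * (L ^ W * v ^ 2) = L ^ (W + A2 + 2) * v ^ 4 := by ring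
            _ ≤ L ^ (2 * (W + A2 + 4)) * v ^ (2 * (W + A2 + 4)) := by
                refine mul_le_mul (pow_le_pow_right₀ hL1 (by omega)) (pow_le_pow_right₀ hv1 (by omega))
                  (by positivity) (by positivity)
      _ ≤ 1024 * C2 * X * (1 / (L ^ W * ((m : ℝ) + 1) ^ 2)) := by
          have : (m : ℝ) + 1 ≤ v := by rw [hv]; linarith
          gcongr
      _ = _ := by field_simp
  have h := windows S _ _ hone
  refine h.trans ?_
  rw [← hZ]
  have : 0 ≤ (X : ℝ) / L ^ W := by positivity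
  calc 1024 * C2 * X / L ^ W * Z = 1024 * C2 * Z * (X / L ^ W) := by ring
    _ ≤ (1024 * C2 * Z + 1) * (X / L ^ W) := by gcongr; linarith
    _ = _ := by ring

/-- LOWER BOUND: for almost all `d`, at every point not too near the critical line -/
theorem low_law (T : Twists Q lam) (W : ℕ) : ∃ (C K : ℝ) (J : ℕ), 0 < C ∧ 0 < K ∧
    ∀ (X : ℕ) (S : Finset ℤ), 3 ≤ X → S ⊆ sqf X →
      (∀ d ∈ S, ∃ s : ℂ, 1 / 2 + K * ((Real.log (Real.log X) + Real.log (2 + |s.im|)) / Real.log X) ≤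
        s.re ∧ s.re ≤ 17 / 16 ∧ ‖T.ell d s‖ * (Real.log X * (2 + |s.im|)) ^ J < 1) →
      (S.card : ℝ) ≤ C * X / Real.log X ^ W := by
  classical
  obtain ⟨C1, K1, hC1, hK1, h1⟩ := ff_small T W
  obtain ⟨C2, K2, hC2, h2⟩ := mol_large T W
  obtain ⟨m, hm⟩ : ∃ m : ℕ, 2 * T.c ≤ (2 : ℝ) ^ m := by
    obtain ⟨m, hm⟩ := pow_unbounded_of_one_lt (2 * T.c) (one_lt_two : (1 : ℝ) < 2)
    exact ⟨m, hm.le⟩
  refine ⟨C1 + C2, K1 + 1, K2 + m, by positivity, by positivity, fun X S hX hS hs => ?_⟩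
  have hL1 : 1 ≤ Real.log X := Pool.Agent.Y474.QTZ6.one_le_log hX
  have hX0 : (0 : ℝ) < X := by exact_mod_cast (by omega : 0 < X)
  have hc := T.one_le_c
  set L := Real.log X with hLdef
  have hL0 : 0 < L := by linarith
  choose! p hp1 hp2 hp3 using hs
  have hl2 : (0.69 : ℝ) ≤ Real.log 2 := by have := Real.log_two_gt_d9; linarith
  have hg : ∀ d, 0.69 ≤ Real.log L + Real.log (2 + |(p d).im|) := by
    intro d
    have g1 : 0 ≤ Real.log L := Real.log_nonneg hL1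
    have g2 : Real.log 2 ≤ Real.log (2 + |(p d).im|) :=
      Real.log_le_log (by norm_num) (by have := abs_nonneg (p d).im; linarith)
    linarith
  set S1 := S.filter fun d => 1 / 2 ≤ ‖Pool.Agent.Y474.QTZ6.ff T (YY X) d (p d)‖ with hS1
  set S2 := S.filter fun d => (L * (2 + |(p d).im|)) ^ K2 < ‖Mol Q lam (YY X) d (p d)‖ with hS2
  have hcov : S ⊆ S1 ∪ S2 := by
    intro d hd
    rw [Finset.mem_union]
    by_contra hcon
    push Not at hcon
    obtain ⟨g1, g2⟩ := hcon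
    have g1' : ‖Pool.Agent.Y474.QTZ6.ff T (YY X) d (p d)‖ < 1 / 2 := by
      by_contra h
      exact g1 (Finset.mem_filter.2 ⟨hd, not_lt.1 h⟩)
    have g2' : ‖Mol Q lam (YY X) d (p d)‖ ≤ (L * (2 + |(p d).im|)) ^ K2 := by
      by_contra h
      exact g2 (Finset.mem_filter.2 ⟨hd, not_le.1 h⟩)
    have hsq := (mem_sqf.1 (hS hd)).2
    have hre : 1 / 2 ≤ (p d).re := by
      refine le_trans ?_ (hp1 d hd)
      have := hg d
      have : 0 ≤ (K1 + 1) * ((Real.log L + Real.log (2 + |(p d).im|)) / L) := by positivity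
      linarith
    have h3 : 1 / 2 ≤ ‖T.Lq d (p d) * Mol Q lam (YY X) d (p d)‖ := by
      have e : (1 : ℂ) = T.Lq d (p d) * Mol Q lam (YY X) d (p d) -
        Pool.Agent.Y474.QTZ6.ff T (YY X) d (p d) := by unfold Pool.Agent.Y474.QTZ6.ff; ring
      have h4 : (1 : ℝ) ≤ ‖T.Lq d (p d) * Mol Q lam (YY X) d (p d)‖ +
          ‖Pool.Agent.Y474.QTZ6.ff T (YY X) d (p d)‖ := by
        calc (1 : ℝ) = ‖(1 : ℂ)‖ := norm_one.symm
          _ = ‖T.Lq d (p d) * Mol Q lam (YY X) d (p d) -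
            Pool.Agent.Y474.QTZ6.ff T (YY X) d (p d)‖ := by rw [← e]
          _ ≤ _ := norm_sub_le _ _
      linarith
    rw [norm_mul] at h3
    have h5 : ‖T.Lq d (p d)‖ ≤ ‖T.ell d (p d)‖ * T.c := by
      have e : T.Lq d (p d) = T.ell d (p d) * Ep T d (p d) := rfl
      rw [e, norm_mul]
      exact mul_le_mul_of_nonneg_left (Ep_bound T hsq (by linarith)) (norm_nonneg _)
    have hV2 : 2 ≤ L * (2 + |(p d).im|) := by
      have := abs_nonneg (p d).im
      nlinarith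
    have h6 : 1 ≤ ‖T.ell d (p d)‖ * (L * (2 + |(p d).im|)) ^ (K2 + m) := by
      calc (1 : ℝ) ≤ 2 * (‖T.Lq d (p d)‖ * ‖Mol Q lam (YY X) d (p d)‖) := by linarith
        _ ≤ 2 * ((‖T.ell d (p d)‖ * T.c) * (L * (2 + |(p d).im|)) ^ K2) := by gcongr
        _ = ‖T.ell d (p d)‖ * (L * (2 + |(p d).im|)) ^ K2 * (2 * T.c) := by ring
        _ ≤ ‖T.ell d (p d)‖ * (L * (2 + |(p d).im|)) ^ K2 * (L * (2 + |(p d).im|)) ^ m := by
            refine mul_le_mul_of_nonneg_left (hm.trans ?_) (by positivity)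
            exact pow_le_pow_left₀ (by norm_num) hV2 m
        _ = _ := by rw [pow_add]; ring
    exact absurd (hp3 d hd) (not_lt.2 h6)
  have c1 : (S1.card : ℝ) ≤ C1 * X / L ^ W := h1 X S1 hX ((Finset.filter_subset _ _).trans hS)
    fun d hd => by
      have hd' := Finset.mem_filter.1 hd
      refine ⟨p d, le_trans ?_ (hp1 d hd'.1), hp2 d hd'.1, hd'.2⟩
      have := hg d
      gcongr
      linarith
  have c2 : (S2.card : ℝ) ≤ C2 * X / L ^ W := h2 X S2 hX ((Finset.filter_subset _ _).trans hS)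
    fun d hd => by
      have hd' := Finset.mem_filter.1 hd
      refine ⟨p d, le_trans ?_ (hp1 d hd'.1), hp2 d hd'.1, hd'.2⟩
      have h3 := hg d
      have h4 : 1 / (16 * L) ≤ (K1 + 1) * ((Real.log L + Real.log (2 + |(p d).im|)) / L) := by
        have e1 : (K1 + 1) * ((Real.log L + Real.log (2 + |(p d).im|)) / L) =
          ((K1 + 1) * (Real.log L + Real.log (2 + |(p d).im|))) / L := by ring
        rw [e1, div_le_div_iff₀ (by positivity) hL0]
        have h5 : 1 ≤ 16 * ((K1 + 1) * (Real.log L + Real.log (2 + |(p d).im|))) := by nlinarith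
        nlinarith
      linarith
  calc (S.card : ℝ) ≤ ((S1 ∪ S2).card : ℝ) := by exact_mod_cast Finset.card_le_card hcov
    _ ≤ ((S1.card + S2.card : ℕ) : ℝ) := by exact_mod_cast Finset.card_union_le _ _
    _ = (S1.card : ℝ) + S2.card := by push_cast; rfl
    _ ≤ C1 * X / L ^ W + C2 * X / L ^ W := add_le_add c1 c2
    _ = _ := by ring

end

end Pool.Agent.N351.EV
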