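import Pool.Agent.N351.EV.Up

set_option autoImplicit false

/-! Project EV (helper351): upper bounds at every point of the half-plane `Re s ≥ 1/2`, for almost all
twists. -/

namespace Pool.Agent.N351.EV

open Complex MeasureTheory Filter Topology Asymptotics
open Pool.Agent.Y19.QT
open scoped ENNReal

noncomputable section

variable {Q : ℕ} {lam : ℕ → ℝ}

/-- the maximal inequality on the critical line -/
theorem ell_line (T : Twists Q lam) : ∃ (C : ℝ) (A B : ℕ), 0 < C ∧ ∀ (X : ℕ) (t : ℤ → ℝ), 3 ≤ X →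
    ∑ d ∈ sqf X, ‖T.ell d (1 / 2 + t d * I)‖ ^ 2 / (2 + |t d|) ^ B ≤ C * X * Real.log X ^ A := by
  obtain ⟨C, A, B, hC, hW⟩ := WW_le T
  have hpi := Real.pi_pos
  refine ⟨1 / Real.pi * 9 * (C * 8 * 3 ^ A), A + 2, B + 2, by positivity, fun X t hX => ?_⟩
  have hX0 : (0 : ℝ) < X := by exact_mod_cast (by omega : 0 < X)
  have hX3 : (3 : ℝ) ≤ X := by exact_mod_cast hX
  have hl1 : 1 ≤ Real.log X := by
    rw [Real.le_log_iff_exp_le hX0]
    have h := Real.exp_one_lt_d9
    linarith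
  set L8 : ℝ := Real.log ((8 * X : ℕ) : ℝ) with hL8
  have e8 : L8 = Real.log 8 + Real.log X := by
    rw [hL8]
    push_cast
    rw [Real.log_mul (by norm_num) hX0.ne']
  have h8a : Real.log 8 ≤ 2 * Real.log X := by
    have h3 : 2 * Real.log X = Real.log ((X : ℝ) ^ 2) := by rw [Real.log_pow]; push_cast; ring
    rw [h3]
    apply Real.log_le_log (by norm_num)
    nlinarith
  have h8b : 1 ≤ Real.log 8 := by
    rw [Real.le_log_iff_exp_le (by norm_num)]
    have h := Real.exp_one_lt_d9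
    linarith
  have hL2 : 2 ≤ L8 := by rw [e8]; linarith
  have hL3 : L8 ≤ 3 * Real.log X := by rw [e8]; linarith
  have hL0 : 0 < L8 := by linarith
  have hW' := hW (8 * X) (by omega) hL2
  have hsub : sqf X ⊆ sqf (8 * X) := by
    intro d hd
    rw [mem_sqf] at hd ⊢
    refine ⟨hd.1.trans ?_, hd.2⟩
    push_cast
    have : (0 : ℤ) ≤ X := Int.natCast_nonneg X
    linarith
  have hr1 : 1 / L8 ≤ 1 := by rw [div_le_one hL0]; linarith
  have hpt : ∀ d ∈ sqf X, ENNReal.ofReal (‖T.ell d (1 / 2 + t d * I)‖ ^ 2 / (2 + |t d|) ^ (B + 2)) ≤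
      ENNReal.ofReal (1 / Real.pi * L8 ^ 2) * WW T d (1 / L8) (B + 2) := by
    intro d hd
    have hsq : Squarefree d := (mem_sqf.1 hd).2
    have h2 := pt_le T hsq (r := 1 / L8) (by positivity) hr1 (B + 2) (t d)
    set e : ℂ := T.ell d (1 / 2 + t d * I) with he
    have ht0 : 0 < (2 + |t d|) ^ (B + 2) := by positivity
    calc ENNReal.ofReal (‖e‖ ^ 2 / (2 + |t d|) ^ (B + 2))
        = ENNReal.ofReal (1 / Real.pi * L8 ^ 2 / (2 + |t d|) ^ (B + 2)) *
          (ENNReal.ofReal (Real.pi * (1 / L8) ^ 2) * ‖e‖ₑ ^ 2) := by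
          rw [← ofReal_norm_eq_enorm, ← ENNReal.ofReal_pow (norm_nonneg _),
            ← ENNReal.ofReal_mul (by positivity), ← ENNReal.ofReal_mul (by positivity)]
          congr 1
          field_simp
      _ ≤ ENNReal.ofReal (1 / Real.pi * L8 ^ 2 / (2 + |t d|) ^ (B + 2)) *
          (ENNReal.ofReal ((2 + |t d|) ^ (B + 2)) * WW T d (1 / L8) (B + 2)) := by gcongr
      _ = _ := by
          rw [← mul_assoc, ← ENNReal.ofReal_mul (by positivity)]
          congr 2
          field_simp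
  have hsum : ENNReal.ofReal (∑ d ∈ sqf X, ‖T.ell d (1 / 2 + t d * I)‖ ^ 2 / (2 + |t d|) ^ (B + 2)) ≤
      ENNReal.ofReal (1 / Real.pi * L8 ^ 2 * (C * (8 * X : ℕ) * L8 ^ A)) := by
    rw [ENNReal.ofReal_sum_of_nonneg (fun _ _ => by positivity)]
    calc _ ≤ ∑ d ∈ sqf X, ENNReal.ofReal (1 / Real.pi * L8 ^ 2) * WW T d (1 / L8) (B + 2) :=
          Finset.sum_le_sum hpt
      _ ≤ ∑ d ∈ sqf (8 * X), ENNReal.ofReal (1 / Real.pi * L8 ^ 2) * WW T d (1 / L8) (B + 2) :=
          Finset.sum_le_sum_of_subset hsub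
      _ = ENNReal.ofReal (1 / Real.pi * L8 ^ 2) * ∑ d ∈ sqf (8 * X), WW T d (1 / L8) (B + 2) := by
          rw [Finset.mul_sum]
      _ ≤ ENNReal.ofReal (1 / Real.pi * L8 ^ 2) * ENNReal.ofReal (C * (8 * X : ℕ) * L8 ^ A) := by
          gcongr
      _ = _ := (ENNReal.ofReal_mul (by positivity)).symm
  refine ((ENNReal.ofReal_le_ofReal_iff (by positivity)).1 hsum).trans ?_
  push_cast
  calc 1 / Real.pi * L8 ^ 2 * (C * (8 * (X : ℝ)) * L8 ^ A)
      ≤ 1 / Real.pi * (3 * Real.log X) ^ 2 * (C * (8 * (X : ℝ)) * (3 * Real.log X) ^ A) := by gcongr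
    _ = _ := by ring

/-- for almost all `d`, at every point of the critical line -/
theorem up_line (T : Twists Q lam) (W : ℕ) : ∃ (C : ℝ) (K : ℕ), 0 < C ∧
    ∀ (X : ℕ) (S : Finset ℤ), 3 ≤ X → S ⊆ sqf X →
      (∀ d ∈ S, ∃ t : ℝ, (Real.log X * (2 + |t|)) ^ K < ‖T.ell d (1 / 2 + t * I)‖) →
      (S.card : ℝ) ≤ C * X / Real.log X ^ W := by
  obtain ⟨C, A, B, hC, hmax⟩ := ell_line T
  refine ⟨C, A + B + W, hC, fun X S hX hS hSt => ?_⟩
  have hX0 : (0 : ℝ) < X := by exact_mod_cast (by omega : 0 < X)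
  have hX3 : (3 : ℝ) ≤ X := by exact_mod_cast hX
  have hl1 : 1 ≤ Real.log X := by
    rw [Real.le_log_iff_exp_le hX0]
    have h := Real.exp_one_lt_d9
    linarith
  have hl0 : 0 < Real.log X := by linarith
  choose! t ht using hSt
  have h1 := hmax X t hX
  have h2 : ∀ d ∈ S, Real.log X ^ (A + W) ≤
      ‖T.ell d (1 / 2 + t d * I)‖ ^ 2 / (2 + |t d|) ^ B := by
    intro d hd
    have h3 := (ht d hd).le
    have ht1 : (1 : ℝ) ≤ 2 + |t d| := by have := abs_nonneg (t d); linarith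
    rw [le_div_iff₀ (by positivity)]
    calc Real.log X ^ (A + W) * (2 + |t d|) ^ B
        ≤ Real.log X ^ (2 * (A + B + W)) * (2 + |t d|) ^ (2 * (A + B + W)) := by
          gcongr
          · omega
          · omega
      _ = ((Real.log X * (2 + |t d|)) ^ (A + B + W)) ^ 2 := by
          rw [← mul_pow, ← pow_mul]
          congr 1
          ring
      _ ≤ _ := pow_le_pow_left₀ (by positivity) h3 2
  have h3 : S.card * Real.log X ^ (A + W) ≤ C * X * Real.log X ^ A := by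
    calc S.card * Real.log X ^ (A + W) = ∑ _d ∈ S, Real.log X ^ (A + W) := by
          rw [Finset.sum_const, nsmul_eq_mul]
      _ ≤ ∑ d ∈ S, ‖T.ell d (1 / 2 + t d * I)‖ ^ 2 / (2 + |t d|) ^ B := Finset.sum_le_sum h2
      _ ≤ ∑ d ∈ sqf X, ‖T.ell d (1 / 2 + t d * I)‖ ^ 2 / (2 + |t d|) ^ B :=
          Finset.sum_le_sum_of_subset_of_nonneg hS fun _ _ _ => by positivity
      _ ≤ _ := h1
  rw [le_div_iff₀ (by positivity)]
  have h4 : 0 < Real.log X ^ A := by positivity
  rw [pow_add] at h3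
  refine le_of_mul_le_mul_right ?_ h4
  calc S.card * Real.log X ^ W * Real.log X ^ A =
        S.card * (Real.log X ^ A * Real.log X ^ W) := by ring
    _ ≤ _ := h3

/-- from the critical line to the right by the principle of Phragmen and Lindelof -/
theorem pl_up (T : Twists Q lam) (K : ℕ) : ∃ C : ℝ, 1 ≤ C ∧ ∀ (d : ℤ) (V : ℝ), Squarefree d → 1 ≤ V →
    (∀ t : ℝ, ‖T.ell d (1 / 2 + t * I)‖ ≤ (V * (2 + |t|)) ^ K) →
    ∀ s : ℂ, 1 / 2 ≤ s.re → s.re ≤ 3 / 2 → ‖T.ell d s‖ ≤ C * (V * (2 + |s.im|)) ^ K := by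
  obtain ⟨C0, hC0, habs⟩ := ell_abs T
  refine ⟨(3 ^ K + C0) * 2 ^ K, ?_, fun d V hd hV hline s hs1 hs2 => ?_⟩
  · have h1 : (1 : ℝ) ≤ 3 ^ K := one_le_pow₀ (by norm_num)
    have h2 : (1 : ℝ) ≤ 2 ^ K := one_le_pow₀ (by norm_num)
    nlinarith
  obtain ⟨hdiff, -, -, C1, hgr⟩ := Pool.Agent.Y703.QT8.T8a T d hd
  have hV0 : 0 < V := by linarith
  set g : ℂ → ℂ := fun z => T.ell d z / (z + 1) ^ K with hg
  have hne : ∀ z : ℂ, 0 < z.re → z + 1 ≠ 0 := by
    intro z hz h
    have : (z + 1).re = 0 := by rw [h]; rfl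
    simp at this
    linarith
  have hlow : ∀ z : ℂ, 1 / 2 ≤ z.re → (2 + |z.im|) / 3 ≤ ‖z + 1‖ := by
    intro z hz
    have h1 : |(z + 1).re| ≤ ‖z + 1‖ := Complex.abs_re_le_norm _
    have h2 : |(z + 1).im| ≤ ‖z + 1‖ := Complex.abs_im_le_norm _
    have h3 : (z + 1).re = z.re + 1 := by simp
    have h4 : (z + 1).im = z.im := by simp
    rw [h3, abs_of_pos (by linarith)] at h1
    rw [h4] at h2
    linarith
  have hhigh : ∀ z : ℂ, 1 / 2 ≤ z.re → z.re ≤ 3 / 2 → ‖z + 1‖ ≤ 2 * (2 + |z.im|) := by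
    intro z hz1 hz2
    have h1 := Complex.norm_le_abs_re_add_abs_im (z + 1)
    have h3 : (z + 1).re = z.re + 1 := by simp
    have h4 : (z + 1).im = z.im := by simp
    rw [h3, h4, abs_of_pos (by linarith)] at h1
    have := abs_nonneg z.im
    linarith
  have hb : ∀ z : ℂ, 1 / 2 ≤ z.re → ‖g z‖ ≤ ‖T.ell d z‖ := by
    intro z hz
    simp only [hg]
    rw [norm_div, norm_pow]
    have h1 : 1 ≤ ‖z + 1‖ := by
      have h2 : |(z + 1).re| ≤ ‖z + 1‖ := Complex.abs_re_le_norm _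
      have h3 : (z + 1).re = z.re + 1 := by simp
      rw [h3, abs_of_pos (by linarith)] at h2
      linarith
    exact div_le_self (norm_nonneg _) (one_le_pow₀ h1)
  have hmain : ‖g s‖ ≤ (3 ^ K + C0) * V ^ K := by
    refine PhragmenLindelof.vertical_strip (a := 1 / 2) (b := 3 / 2) (f := g) ?_ ?_ ?_ ?_ hs1 hs2
    · apply DifferentiableOn.diffContOnCl
      intro z hz
      have hz' : z ∈ re ⁻¹' Set.Icc (1 / 2) (3 / 2) := by
        rw [Complex.closure_preimage_re, closure_Ioo (by norm_num)] at hz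
        exact hz
      have h1 : 0 < z.re := by
        have : 1 / 2 ≤ z.re := hz'.1
        linarith
      exact ((hdiff z).div ((differentiableAt_id.add_const 1).pow K)
        (pow_ne_zero _ (hne z h1))).differentiableWithinAt
    · refine ⟨1, ?_, 1, ?_⟩
      · have := Real.pi_gt_three
        rw [lt_div_iff₀ (by norm_num)]
        linarith
      · refine IsBigO.of_bound (|C1|) ?_
        have h1 : re ⁻¹' Set.Ioo (1 / 2) (3 / 2) ∈ comap (_root_.abs ∘ im) atTop ⊓
            𝓟 (re ⁻¹' Set.Ioo (1 / 2 : ℝ) (3 / 2)) := mem_inf_of_right (mem_principal_self _)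
        filter_upwards [h1] with z hz
        have hz1 : 1 / 2 < z.re := hz.1
        have hz2 : z.re < 3 / 2 := hz.2
        have h2 := hgr z (by linarith) (by linarith)
        have h3 : Real.exp (Real.pi / 32 * |z.im|) ≤ Real.exp (1 * Real.exp (1 * |z.im|)) := by
          apply Real.exp_le_exp.2
          have h4 := Real.add_one_le_exp (1 * |z.im|)
          have h5 := Real.pi_lt_four
          have h6 := abs_nonneg z.im
          nlinarith
        rw [Real.norm_of_nonneg (Real.exp_pos _).le]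
        calc ‖g z‖ ≤ ‖T.ell d z‖ := hb z hz1.le
          _ ≤ C1 * Real.exp (Real.pi / 32 * |z.im|) := h2
          _ ≤ |C1| * Real.exp (Real.pi / 32 * |z.im|) := by
              gcongr
              exact le_abs_self _
          _ ≤ _ := by gcongr
    · intro z hz
      have e1 : z = 1 / 2 + (z.im : ℂ) * I := by
        apply Complex.ext
        · simp [hz]
        · simp
      have h1 := hline z.im
      rw [← e1] at h1
      simp only [hg]
      rw [norm_div, norm_pow, div_le_iff₀ (by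
        have := hlow z (by linarith)
        have h2 : 0 < ‖z + 1‖ := lt_of_lt_of_le (by positivity) this
        positivity)]
      have h2 := hlow z (by linarith)
      calc ‖T.ell d z‖ ≤ (V * (2 + |z.im|)) ^ K := h1
        _ = 3 ^ K * V ^ K * ((2 + |z.im|) / 3) ^ K := by
            rw [div_pow, mul_pow]
            field_simp
        _ ≤ (3 ^ K + C0) * V ^ K * ‖z + 1‖ ^ K := by
            gcongr
            linarith
    · intro z hz
      refine (hb z (by linarith)).trans ((habs d z hd (by linarith)).2.trans ?_)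
      have h1 : (1 : ℝ) ≤ V ^ K := one_le_pow₀ hV
      have h2 : (0 : ℝ) ≤ 3 ^ K := by positivity
      nlinarith
  have h5 : ‖T.ell d s‖ = ‖g s‖ * ‖s + 1‖ ^ K := by
    simp only [hg]
    rw [norm_div, norm_pow, div_mul_cancel₀]
    exact pow_ne_zero _ (norm_ne_zero_iff.2 (hne s (by linarith)))
  rw [h5]
  calc ‖g s‖ * ‖s + 1‖ ^ K ≤ ((3 ^ K + C0) * V ^ K) * (2 * (2 + |s.im|)) ^ K := by
        gcongr
        exact hhigh s hs1 hs2
    _ = _ := by rw [mul_pow, mul_pow]; ring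

/-- UPPER BOUND: for almost all `d`, at every point with real part between `1/2` and `3/2` -/
theorem up_law (T : Twists Q lam) (W : ℕ) : ∃ (C : ℝ) (K : ℕ), 0 < C ∧
    ∀ (X : ℕ) (S : Finset ℤ), 3 ≤ X → S ⊆ sqf X →
      (∀ d ∈ S, ∃ s : ℂ, 1 / 2 ≤ s.re ∧ s.re ≤ 3 / 2 ∧
        (Real.log X * (2 + |s.im|)) ^ K < ‖T.ell d s‖) →
      (S.card : ℝ) ≤ C * X / Real.log X ^ W := by
  obtain ⟨C, K, hC, h⟩ := up_line T W
  obtain ⟨C1, hC1, hpl⟩ := pl_up T K
  obtain ⟨m, hm⟩ : ∃ m : ℕ, C1 ≤ (2 : ℝ) ^ m := by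
    obtain ⟨m, hm⟩ := pow_unbounded_of_one_lt C1 (one_lt_two : (1 : ℝ) < 2)
    exact ⟨m, hm.le⟩
  refine ⟨C, K + m, hC, fun X S hX hS hs => h X S hX hS fun d hd => ?_⟩
  by_contra hcon
  push Not at hcon
  have hL1 : 1 ≤ Real.log X := Pool.Agent.Y474.QTZ6.one_le_log hX
  obtain ⟨s, hs1, hs2, hs3⟩ := hs d hd
  have h1 := hpl d (Real.log X) (mem_sqf.1 (hS hd)).2 hL1 hcon s hs1 hs2
  have hV2 : 2 ≤ Real.log X * (2 + |s.im|) := by
    have := abs_nonneg s.im
    nlinarith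
  have h2 : C1 * (Real.log X * (2 + |s.im|)) ^ K ≤ (Real.log X * (2 + |s.im|)) ^ (K + m) := by
    rw [pow_add, mul_comm]
    refine mul_le_mul_of_nonneg_left (hm.trans ?_) (by positivity)
    exact pow_le_pow_left₀ (by norm_num) hV2 m
  exact absurd hs3 (not_lt.2 (h1.trans h2))

end

end Pool.Agent.N351.EV
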